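import Pool.Agent.Lib.MP_d0f9e0_co.AN45.Ray
import Pool.Agent.Lib.MP_d0f9e0_co.GH.Card
import Pool.Agent.Lib.MP_d0f9e0_co.GH.Adm
import Pool.Agent.Lib.MP_d0f9e0_co.GH.Beta

/-!
# A good basis of a lattice for two torsion points (helper19, Project Z)
-/

set_option autoImplicit false

namespace Pool.Agent.Lib.MP_d0f9e0_co.AN

open Pool.MP_d0f9e0_co.SH Pool.MP_d0f9e0_co.GH

variable {L : AddSubgroup V} {δ : ℚ} {u w : V} {θ η : ℝ} {A : V ≃+ V}

/-- Change of basis by a matrix of determinant one. -/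
theorem lat_change (h : Pool.MP_d0f9e0_co.GH.Lat L δ u w) {s t s' t' : ℤ}
    (hd : s * t' - t * s' = 1) :
    Pool.MP_d0f9e0_co.GH.Lat L δ ((s : ℚ) • u + (t : ℚ) • w) ((s' : ℚ) • u + (t' : ℚ) • w) where
  eq := by
    have hd' : (s : ℚ) * t' - t * s' = 1 := by exact_mod_cast hd
    rw [h.eq]
    apply le_antisymm
    · rw [AddSubgroup.closure_le]
      rintro x (rfl | hx)
      · rw [SetLike.mem_coe, AddSubgroup.mem_closure_pair]
        refine ⟨t', -t, ?_⟩
        rw [← Int.cast_smul_eq_zsmul ℚ, ← Int.cast_smul_eq_zsmul ℚ]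
        have e : ∀ X Y : V, (t' : ℚ) • ((s : ℚ) • X + (t : ℚ) • Y) +
            ((-t : ℤ) : ℚ) • ((s' : ℚ) • X + (t' : ℚ) • Y) = ((s : ℚ) * t' - t * s') • X := by
          intro X Y
          push_cast
          module
        rw [e, hd', one_smul]
      · rw [Set.mem_singleton_iff] at hx
        subst hx
        rw [SetLike.mem_coe, AddSubgroup.mem_closure_pair]
        refine ⟨-s', s, ?_⟩
        rw [← Int.cast_smul_eq_zsmul ℚ, ← Int.cast_smul_eq_zsmul ℚ]
        have e : ∀ X Y : V, ((-s' : ℤ) : ℚ) • ((s : ℚ) • X + (t : ℚ) • Y) +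
            (s : ℚ) • ((s' : ℚ) • X + (t' : ℚ) • Y) = ((s : ℚ) * t' - t * s') • Y := by
          intro X Y
          push_cast
          module
        rw [e, hd', one_smul]
    · rw [AddSubgroup.closure_le]
      rintro x (rfl | hx)
      · rw [SetLike.mem_coe, AddSubgroup.mem_closure_pair]
        exact ⟨s, t, by rw [Int.cast_smul_eq_zsmul, Int.cast_smul_eq_zsmul]⟩
      · rw [Set.mem_singleton_iff] at hx
        subst hx
        rw [SetLike.mem_coe, AddSubgroup.mem_closure_pair]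
        exact ⟨s', t', by rw [Int.cast_smul_eq_zsmul, Int.cast_smul_eq_zsmul]⟩
  det_eq := by
    have hd' : (s : ℚ) * t' - t * s' = 1 := by exact_mod_cast hd
    rw [det_add_left, det_add_right, det_add_right, det_smul_left, det_smul_left, det_smul_left,
      det_smul_left, det_smul_right, det_smul_right, det_smul_right, det_smul_right, det_self,
      det_self, det_swap u w, h.det_eq]
    linear_combination δ * hd'
  pos := h.pos

/-- Every lattice has a basis whose first vector is admissible. -/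
theorem exists_basis0 (hθ : Irrational θ) (hA : Hyp θ A η) (h1 : 1 < η)
    (h : Pool.MP_d0f9e0_co.GH.Lat L δ u w) :
    ∃ e f : V, Pool.MP_d0f9e0_co.GH.Lat L δ e f ∧ 0 < ell θ e ∧ 0 < det e (A e) := by
  obtain ⟨v, hvL, hv1, hv2⟩ := exists_adm hθ hA h1 h
  have hvL' := hvL
  rw [h.eq, AddSubgroup.mem_closure_pair] at hvL'
  obtain ⟨m, n, hmn⟩ := hvL'
  have hg : 0 < Int.gcd m n := by
    rw [Int.gcd_pos_iff]
    by_contra hc
    push Not at hc
    rw [hc.1, hc.2, zero_smul, zero_smul, add_zero] at hmn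
    rw [← hmn] at hv1
    simp [ell] at hv1
  obtain ⟨m', n', hco, hm, hn⟩ := Int.exists_gcd_one hg
  have hco' : IsCoprime m' n' := Int.isCoprime_iff_gcd_eq_one.mpr hco
  obtain ⟨a, b, hab⟩ := hco'
  have hd : m' * a - n' * (-b) = 1 := by linear_combination hab
  have hg' : (0 : ℚ) < (Int.gcd m n : ℕ) := by exact_mod_cast hg
  have hve : v = ((Int.gcd m n : ℕ) : ℚ) • ((m' : ℚ) • u + (n' : ℚ) • w) := by
    rw [← hmn, ← Int.cast_smul_eq_zsmul ℚ m u, ← Int.cast_smul_eq_zsmul ℚ n w]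
    have hm' : (m : ℚ) = m' * ((Int.gcd m n : ℕ) : ℚ) := by exact_mod_cast hm
    have hn' : (n : ℚ) = n' * ((Int.gcd m n : ℕ) : ℚ) := by exact_mod_cast hn
    rw [smul_add, smul_smul, smul_smul]
    congr 2
    · rw [hm', mul_comm]
    · rw [hn', mul_comm]
  refine ⟨_, _, lat_change h hd, ?_, ?_⟩
  · rw [hve, ell_smul] at hv1
    have hg'' : (0 : ℝ) < (((Int.gcd m n : ℕ) : ℚ) : ℝ) := by exact_mod_cast hg'
    exact pos_of_mul_pos_right hv1 hg''.le
  · rw [hve, map_smul_rat, det_smul_left, det_smul_right] at hv2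
    exact pos_of_mul_pos_right (pos_of_mul_pos_right hv2 hg'.le) hg'.le

/-- The quadratic form `det v (A v)` splits over the reals. -/
theorem form_split (hA : Hyp θ A η) {e f : V} (he : 0 < ell θ e) (hq : 0 < det e (A e)) :
    ∃ θ₂ : ℝ, ∀ s t : ℤ,
      ((det ((s : ℚ) • e + (t : ℚ) • f) (A ((s : ℚ) • e + (t : ℚ) • f)) : ℚ) : ℝ) =
        (det e (A e) : ℚ) * (s + t * (ell θ f / ell θ e)) * (s + t * θ₂) := by
  set Q : ℝ := ((det e (A e) : ℚ) : ℝ) with hQ
  have hQ0 : Q ≠ 0 := by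
    rw [hQ]
    exact_mod_cast hq.ne'
  set M : ℝ := ((det e (A f) + det f (A e) : ℚ) : ℝ) with hM
  set θ₁ : ℝ := ell θ f / ell θ e with hθ₁
  have hf : ell θ f = θ₁ * ell θ e := by rw [hθ₁, div_mul_cancel₀ _ he.ne']
  refine ⟨M / Q - θ₁, fun s t => ?_⟩
  -- identities
  have i1 := ell_expand θ e f (A e)
  have i2 := ell_expand θ f e (A f)
  rw [hA.ell_eq, hf] at i1
  rw [hA.ell_eq, hf] at i2
  have sw1 : det (A e) f = - det f (A e) := det_swap _ _
  have sw2 : det (A f) e = - det e (A f) := det_swap _ _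
  have sw3 : det f e = - det e f := det_swap _ _
  rw [sw1] at i1
  rw [sw2, sw3] at i2
  push_cast at i1 i2
  have j1 : Q * θ₁ = η * (det e f : ℚ) + (det f (A e) : ℚ) := by
    apply mul_right_cancel₀ he.ne'
    rw [hQ]
    linear_combination -i1
  have j2 : ((det f (A f) : ℚ) : ℝ) = (-(η * (det e f : ℚ)) + (det e (A f) : ℚ)) * θ₁ := by
    apply mul_right_cancel₀ he.ne'
    linear_combination -i2
  have j3 : Q * (M / Q - θ₁) = M - Q * θ₁ := by
    rw [mul_sub, mul_div_cancel₀ _ hQ0]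
  rw [map_add, map_smul_rat, map_smul_rat, det_add_left, det_add_right, det_add_right,
    det_smul_left, det_smul_left, det_smul_left, det_smul_left, det_smul_right, det_smul_right,
    det_smul_right, det_smul_right]
  push_cast
  rw [← hQ, j2]
  have e1 : Q * (s + t * θ₁) * (s + t * (M / Q - θ₁)) =
      Q * s * (s + t * θ₁) + t * (s + t * θ₁) * (Q * (M / Q - θ₁)) := by ring
  rw [e1, j3, j1, hM]
  push_cast
  linear_combination (-(s : ℝ) * t) * j1

/-- coordinates of a point in a basis -/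
theorem coord_eq (h : Pool.MP_d0f9e0_co.GH.Lat L δ u w) (p : V) :
    (det p w / δ) • u + (det u p / δ) • w = p := by
  have e := det_expand u w p
  rw [h.det_eq] at e
  have h0 := h.ne
  have e3 : (det p w / δ) • u + (det u p / δ) • w = δ⁻¹ • (det p w • u + det u p • w) := by
    rw [smul_add, smul_smul, smul_smul, div_eq_inv_mul, div_eq_inv_mul]
  rw [e3, ← e, smul_smul, inv_mul_cancel₀ h0, one_smul]

/-- **A good basis** for two torsion points `p`, `y` with `p, p + y ∉ L`. -/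
theorem exists_good_basis (hθ : Irrational θ) (hA : Hyp θ A η) (h1 : 1 < η)
    (h : Pool.MP_d0f9e0_co.GH.Lat L δ u w) (p y : V) (hp : p ∉ L) (hq : p + y ∉ L) :
    ∃ e f : V, Pool.MP_d0f9e0_co.GH.Lat L δ e f ∧ 0 < ell θ e ∧ 0 < det e (A e) ∧
      0 < Int.fract (det e p / δ) ∧ Int.fract (det e p / δ) + Int.fract (det e y / δ) < 1 := by
  obtain ⟨e₀, f₀, hLat, he, hQ⟩ := exists_basis0 hθ hA h1 h
  obtain ⟨θ₂, hθ₂⟩ := form_split (f := f₀) hA he hQ
  have hδ := hLat.ne
  obtain ⟨n, hn, hnp⟩ := exists_mul_mem hLat p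
  obtain ⟨n', hn', hny⟩ := exists_mul_mem hLat y
  -- the coordinates
  set P : ℚ × ℚ := (det p f₀ / δ, det e₀ p / δ) with hP
  set Y : ℚ × ℚ := (det y f₀ / δ, det e₀ y / δ) with hY
  have c1 : ∃ i j : ℤ, ((n * n' : ℕ) : ℚ) * P.1 = i ∧ ((n * n' : ℕ) : ℚ) * P.2 = j := by
    obtain ⟨⟨i, hi⟩, ⟨j, hj⟩⟩ := (hLat.mem_iff _).mp hnp
    rw [det_smul_left] at hi
    rw [det_smul_right] at hj
    refine ⟨n' * i, n' * j, ?_, ?_⟩
    · simp only [hP]
      push_cast
      field_simp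
      linear_combination hi
    · simp only [hP]
      push_cast
      field_simp
      linear_combination hj
  have c2 : ∃ i j : ℤ, ((n * n' : ℕ) : ℚ) * Y.1 = i ∧ ((n * n' : ℕ) : ℚ) * Y.2 = j := by
    obtain ⟨⟨i, hi⟩, ⟨j, hj⟩⟩ := (hLat.mem_iff _).mp hny
    rw [det_smul_left] at hi
    rw [det_smul_right] at hj
    refine ⟨n * i, n * j, ?_, ?_⟩
    · simp only [hY]
      push_cast
      field_simp
      linear_combination hi
    · simp only [hY]
      push_cast
      field_simp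
      linear_combination hj
  have c3 : ¬ ∃ i j : ℤ, P.1 = i ∧ P.2 = j := by
    rintro ⟨i, j, hi, hj⟩
    apply hp
    rw [hLat.mem_iff]
    simp only [hP] at hi hj
    rw [div_eq_iff hδ] at hi hj
    exact ⟨⟨i, hi⟩, ⟨j, hj⟩⟩
  have c4 : ¬ ∃ i j : ℤ, P.1 + Y.1 = i ∧ P.2 + Y.2 = j := by
    rintro ⟨i, j, hi, hj⟩
    apply hq
    rw [hLat.mem_iff]
    simp only [hP, hY] at hi hj
    rw [← add_div, div_eq_iff hδ] at hi hj
    exact ⟨⟨i, by rw [det_add_left, hi]⟩, ⟨j, by rw [det_add_right, hj]⟩⟩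
  obtain ⟨s, t, hco, r1, r2, r3, r4⟩ := Pool.Agent.MP_d0f9e0_co.AN45.exists_ray_strict
    (ell θ f₀ / ell θ e₀) θ₂ (n * n') (Nat.mul_pos hn hn') P Y c1 c2 c3 c4
  obtain ⟨a, b, hab⟩ := hco
  have hd : s * a - t * (-b) = 1 := by linear_combination hab
  have key : ∀ x : V, det ((s : ℚ) • e₀ + (t : ℚ) • f₀) x / δ =
      s * (det e₀ x / δ) - t * (det x f₀ / δ) := by
    intro x
    rw [det_add_left, det_smul_left, det_smul_left, det_swap x f₀]
    ring
  refine ⟨_, _, lat_change hLat hd, ?_, ?_, ?_, ?_⟩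
  · rw [ell_add, ell_smul, ell_smul]
    have e1 : ((s : ℚ) : ℝ) * ell θ e₀ + ((t : ℚ) : ℝ) * ell θ f₀ =
        ell θ e₀ * ((s : ℝ) + t * (ell θ f₀ / ell θ e₀)) := by
      push_cast
      field_simp
    rw [e1]
    exact mul_pos he r1
  · have e1 := hθ₂ s t
    have e2 : (0 : ℝ) < ((det e₀ (A e₀) : ℚ) : ℝ) := by exact_mod_cast hQ
    have e3 : (0 : ℝ) < ((det ((s : ℚ) • e₀ + (t : ℚ) • f₀)
        (A ((s : ℚ) • e₀ + (t : ℚ) • f₀)) : ℚ) : ℝ) := by
      rw [e1]
      exact mul_pos (mul_pos e2 r1) r2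
    exact_mod_cast e3
  · rw [key]
    exact r3
  · rw [key, key]
    exact r4

end Pool.Agent.Lib.MP_d0f9e0_co.AN
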