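import Pool.Agent.Lib.MP_d0f9e0_co.AN.Symm
import Pool.Agent.Lib.MP_d0f9e0_co.AN.Basis
import Pool.Agent.Lib.MP_d0f9e0_co.GH.AllNG
import Pool.Agent.Lib.MP_d0f9e0_co.PH.ZL96

/-!
# From one good basis to all lattices and all pairs (helper19, Project Z)
-/

set_option autoImplicit false

namespace Pool.Agent.Lib.MP_d0f9e0_co.AN

open Pool.MP_d0f9e0_co.SH hiding Fx Lat fib fib_per fib_inv fib_disc mem_fib mem_Fx
open Pool.MP_d0f9e0_co.GH

variable {L : AddSubgroup V} {δ : ℚ} {u w : V} {θ η : ℝ} {A : V ≃+ V}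

/-- **(A2) in one basis**: the statement which is proved by the contour shift. -/
def OneA2 (S : ℝ → ℝ → ℝ → ℝ) : Prop :=
  ∀ (θ : ℝ) (A : V ≃+ V) (η : ℝ) [Fintype (Fx A Zl)], Irrational θ → Hyp θ A η → 1 < η →
    Stb A Zl → 0 < det (1, 0) (A (1, 0)) →
    ∀ (p y : V) (hp : (QuotientAddGroup.mk p : V ⧸ Zl) ∈ Fx A Zl)
      (hy : (QuotientAddGroup.mk y : V ⧸ Zl) ∈ Fx A Zl),
      0 < p.2 → 0 ≤ y.2 → p.2 + y.2 < 1 →
      A2At η (fun x y : Fx A Zl => psi A Zl 1 x y) (fun x => cL S θ A Zl x)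
        (fun x => zL θ A Zl x) (-⟨_, hp⟩) (-⟨_, hy⟩)

/-! ### The frame of a basis -/

/-- the additive automorphism sending the standard basis to `u, w` -/
def frame (u w : V) (h : det u w ≠ 0) : V ≃+ V where
  toFun x := x.1 • u + x.2 • w
  invFun p := (det p w / det u w, det u p / det u w)
  left_inv x := by
    ext
    · simp only [det_add_left, det_smul_left, det_self, mul_zero, add_zero]
      rw [mul_div_assoc, div_self h, mul_one]
    · simp only [det_add_right, det_smul_right, det_self, mul_zero, zero_add]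
      rw [mul_div_assoc, div_self h, mul_one]
  right_inv p := by
    show (det p w / det u w) • u + (det u p / det u w) • w = p
    have e := det_expand u w p
    have e3 : (det p w / det u w) • u + (det u p / det u w) • w =
        (det u w)⁻¹ • (det p w • u + det u p • w) := by
      rw [smul_add, smul_smul, smul_smul, div_eq_inv_mul, div_eq_inv_mul]
    rw [e3, ← e, smul_smul, inv_mul_cancel₀ h, one_smul]
  map_add' x y := by
    simp only [Prod.fst_add, Prod.snd_add, add_smul]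
    abel

theorem frame_apply (h : det u w ≠ 0) (x : V) : frame u w h x = x.1 • u + x.2 • w := rfl

theorem frame_symm_apply (h : det u w ≠ 0) (p : V) :
    (frame u w h).symm p = (det p w / det u w, det u p / det u w) := rfl

theorem frame_det (h : det u w ≠ 0) (x y : V) :
    det (frame u w h x) (frame u w h y) = det u w * det x y := by
  rw [frame_apply, frame_apply, det_add_left, det_add_right, det_add_right, det_smul_left,
    det_smul_left, det_smul_left, det_smul_left, det_smul_right, det_smul_right, det_smul_right,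
    det_smul_right, det_self, det_self, det_swap u w]
  simp only [det]
  ring

theorem frame_ell (h : det u w ≠ 0) (hu : 0 < ell θ u) (x : V) :
    ell θ (frame u w h x) = ell θ u * ell (ell θ w / ell θ u) x := by
  rw [frame_apply, ell_add, ell_smul, ell_smul]
  have := hu.ne'
  simp only [ell]
  simp only [ell] at this
  field_simp

theorem frame_mem (hLat : Lat L δ u w) (h : det u w ≠ 0) (x : V) :
    frame u w h x ∈ L ↔ x ∈ Zl := by
  rw [hLat.mem_iff, mem_Zl, frame_apply]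
  rw [det_add_left, det_add_right, det_smul_left, det_smul_left, det_smul_right, det_smul_right,
    det_self, det_self, mul_zero, mul_zero, add_zero, zero_add, hLat.det_eq]
  have hδ := hLat.ne
  constructor
  · rintro ⟨⟨m, hm⟩, ⟨n, hn⟩⟩
    exact ⟨m, n, Prod.ext (mul_right_cancel₀ hδ hm) (mul_right_cancel₀ hδ hn)⟩
  · rintro ⟨m, n, rfl⟩
    exact ⟨⟨m, rfl⟩, ⟨n, rfl⟩⟩

/-- the matrix of `A` in the basis -/
def conj (A : V ≃+ V) (g : V ≃+ V) : V ≃+ V := g.trans (A.trans g.symm)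

theorem conj_apply (A g : V ≃+ V) (x : V) : conj A g x = g.symm (A (g x)) := rfl

theorem g_conj (A g : V ≃+ V) (x : V) : g (conj A g x) = A (g x) := by
  rw [conj_apply, AddEquiv.apply_symm_apply]

theorem hyp_conj (hA : Hyp θ A η) (h : det u w ≠ 0) (hu : 0 < ell θ u) :
    Hyp (ell θ w / ell θ u) (conj A (frame u w h)) η where
  det_eq p q := by
    apply mul_left_cancel₀ h
    rw [← frame_det h, ← frame_det h, g_conj, g_conj, hA.det_eq]
  ell_eq p := by
    apply mul_left_cancel₀ hu.ne'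
    rw [← frame_ell h hu, g_conj, hA.ell_eq, frame_ell h hu]
    ring
  pos := hA.pos

/-! ### The main theorem -/

theorem A2At.map {G G' : Type*} [AddCommGroup G] [Fintype G] [AddCommGroup G'] [Fintype G']
    (E : G ≃+ G') {ψ : G → G → ℂ} {ψ' : G' → G' → ℂ} {c : G → ℝ} {c' : G' → ℝ} {z : G → ℂ}
    {z' : G' → ℂ} (hψ : ∀ x y, ψ' (E x) (E y) = ψ x y) (hc : ∀ x, c' (E x) = c x)
    (hz : ∀ x, z' (E x) = z x) {p y : G} (h : A2At η ψ c z p y) :
    A2At η ψ' c' z' (E p) (E y) := by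
  unfold A2At at h ⊢
  rw [← E.toEquiv.sum_comp]
  simp only [AddEquiv.toEquiv_eq_coe, EquivLike.coe_coe, ← map_sub, ← map_add, ← map_neg, hψ, hc,
    hz, ← map_zero E]
  exact h

theorem cL_frame {S : ℝ → ℝ → ℝ → ℝ} (hS : CS S) {θ' : ℝ} {A' g : V ≃+ V}
    (hθ : Irrational θ) (hA : Hyp θ A η) (h1 : 1 < η) (hLat : Lat L δ u w)
    (hθ' : Irrational θ') (hA' : Hyp θ' A' η) (hL' : Stb A' Zl)
    (hg : ∀ p, g p ∈ L ↔ p ∈ Zl) (hc : ∀ p, g (A' p) = A (g p)) {κ : ℚ} (hκ : 0 < κ)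
    (hdet : ∀ p q, det (g p) (g q) = κ * det p q)
    {l : ℝ} (hl : 0 < l) (hell : ∀ p, ell θ (g p) = l * ell θ' p) (x : Fx A' Zl) :
    cL S θ A L (gq g Zl L hg x) = cL S θ' A' Zl x := by
  obtain ⟨x, hx⟩ := x
  obtain ⟨P, rfl⟩ := QuotientAddGroup.mk_surjective x
  rw [gq_mk]
  exact cl_map hS hθ hθ' hA (good_of hθ' hA' h1) (Lat.of_gh lat_Zl) (Lat.of_gh hLat) hL' g hg hκ
    hdet hl hell hc ((mem_Fx_iff hL').mp hx)

theorem zL_frame {θ' : ℝ} {A' g : V ≃+ V}
    (hθ : Irrational θ) (hA : Hyp θ A η) (h1 : 1 < η) (hLat : Lat L δ u w)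
    (hθ' : Irrational θ') (hA' : Hyp θ' A' η) (hL' : Stb A' Zl)
    (hg : ∀ p, g p ∈ L ↔ p ∈ Zl) (hc : ∀ p, g (A' p) = A (g p)) {κ : ℚ} (hκ : 0 < κ)
    (hdet : ∀ p q, det (g p) (g q) = κ * det p q)
    {l : ℝ} (hl : 0 < l) (hell : ∀ p, ell θ (g p) = l * ell θ' p) (x : Fx A' Zl) :
    zL θ A L (gq g Zl L hg x) = zL θ' A' Zl x := by
  obtain ⟨x, hx⟩ := x
  unfold zL
  obtain ⟨v, hv, hadm⟩ := fib_adm hθ' hA' h1 lat_Zl x
  rw [Pool.MP_d0f9e0_co.PH.clsZ_map hθ hθ' hA hA' (fib_disc lat_Zl x) (fib_disc hLat _)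
    (fib_inv hL' hx) g (fun p => fib_gq g Zl L hg x p) hκ hdet hl hell hc hadm]

/-- representative of a class with second coordinate in `[0,1)` -/
theorem exists_rep (x : V) : ∃ x' : V, (QuotientAddGroup.mk x' : V ⧸ Zl) = QuotientAddGroup.mk x ∧
    x'.2 = Int.fract x.2 := by
  refine ⟨(x.1, Int.fract x.2), ?_, rfl⟩
  rw [QuotientAddGroup.eq, mem_Zl]
  refine ⟨0, ⌊x.2⌋, ?_⟩
  ext
  · simp
  · simp only [neg_add_eq_sub]
    exact Int.self_sub_fract x.2

theorem A2At_good {S : ℝ → ℝ → ℝ → ℝ} (hS : CS S) (one : OneA2 S) [Fintype (Fx A L)]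
    (hθ : Irrational θ) (hA : Hyp θ A η) (h1 : 1 < η)
    (hLat : Lat L δ u w) (hL : Stb A L) (p y : Fx A L) (hp : p ≠ 0)
    (hq : p + y ≠ 0) :
    A2At η (fun x y : Fx A L => psi A L δ x y) (fun x => cL S θ A L x) (fun x => zL θ A L x)
      (-p) (-y) := by
  obtain ⟨⟨p', hp'⟩, rfl⟩ : ∃ P : {P : V // (QuotientAddGroup.mk P : V ⧸ L) ∈ Fx A L},
      p = ⟨QuotientAddGroup.mk P.1, P.2⟩ := by
    obtain ⟨P, hP⟩ := QuotientAddGroup.mk_surjective p.1
    exact ⟨⟨P, by rw [hP]; exact p.2⟩, Subtype.ext hP.symm⟩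
  obtain ⟨⟨y', hy'⟩, rfl⟩ : ∃ P : {P : V // (QuotientAddGroup.mk P : V ⧸ L) ∈ Fx A L},
      y = ⟨QuotientAddGroup.mk P.1, P.2⟩ := by
    obtain ⟨P, hP⟩ := QuotientAddGroup.mk_surjective y.1
    exact ⟨⟨P, by rw [hP]; exact y.2⟩, Subtype.ext hP.symm⟩
  simp only at *
  have hpL : p' ∉ L := fun h => hp (Subtype.ext ((QuotientAddGroup.eq_zero_iff p').mpr h))
  have hqL : p' + y' ∉ L := fun h => hq (Subtype.ext (by
    show (QuotientAddGroup.mk p' : V ⧸ L) + QuotientAddGroup.mk y' = 0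
    rw [← QuotientAddGroup.mk_add]
    exact (QuotientAddGroup.eq_zero_iff _).mpr h))
  obtain ⟨e, f, hef, he, hQ, r1, r2⟩ := exists_good_basis hθ hA h1 hLat p' y' hpL hqL
  have h0 : det e f ≠ 0 := by rw [hef.det_eq]; exact hef.ne
  set g := frame e f h0 with hgdef
  set A' := conj A g with hA'def
  set θ' := ell θ f / ell θ e with hθ'def
  have hθ' : Irrational θ' := irr_ratio hθ he (by rw [det_swap e f]; exact neg_ne_zero.mpr h0)
  have hA' : Hyp θ' A' η := hyp_conj hA h0 he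
  have hg : ∀ x, g x ∈ L ↔ x ∈ Zl := frame_mem hef h0
  have hc : ∀ x, g (A' x) = A (g x) := g_conj A g
  have hL' : Stb A' Zl := fun x => by rw [← hg, hc, hL, hg]
  have hdet : ∀ p q, det (g p) (g q) = δ * det p q := fun p q => by
    rw [hgdef, frame_det, hef.det_eq]
  have hell : ∀ p, ell θ (g p) = ell θ e * ell θ' p := frame_ell h0 he
  have hg1 : g (1, 0) = e := by
    rw [hgdef, frame_apply, one_smul, zero_smul, add_zero]
  have hQ' : 0 < det (1, 0) (A' (1, 0)) := by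
    have e1 := hdet (1, 0) (A' (1, 0))
    rw [hc, hg1] at e1
    rw [e1] at hQ
    exact pos_of_mul_pos_right hQ hef.pos.le
  have : Finite (Fx A' Zl) := finite_Fx hθ' hA' h1 lat_Zl hL'
  have : Fintype (Fx A' Zl) := Fintype.ofFinite _
  set E : Fx A' Zl ≃+ Fx A L := gF hg hc hL' with hE
  -- representatives
  have rep : ∀ x' : V, (QuotientAddGroup.mk x' : V ⧸ L) ∈ Fx A L →
      ∃ x'' : V, ∃ hx'' : (QuotientAddGroup.mk x'' : V ⧸ Zl) ∈ Fx A' Zl,
        x''.2 = Int.fract (det e x' / δ) ∧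
        ((E ⟨QuotientAddGroup.mk x'', hx''⟩ : Fx A L) : V ⧸ L) = QuotientAddGroup.mk x' := by
    intro x' hx'
    obtain ⟨x'', e1, e2⟩ := exists_rep (g.symm x')
    have e3 : gq g Zl L hg (QuotientAddGroup.mk x'') = QuotientAddGroup.mk x' := by
      rw [e1, gq_mk, AddEquiv.apply_symm_apply]
    have hx'' : (QuotientAddGroup.mk x'' : V ⧸ Zl) ∈ Fx A' Zl := by
      rw [← gq_mem_Fx hg hc hL', e3]
      exact hx'
    refine ⟨x'', hx'', ?_, ?_⟩
    · rw [e2, hgdef, frame_symm_apply, hef.det_eq]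
    · rw [hE, coe_gF, e3]
  obtain ⟨P, hP, P2, PE⟩ := rep p' hp'
  obtain ⟨Y, hY, Y2, YE⟩ := rep y' hy'
  have key := one θ' A' η hθ' hA' h1 hL' hQ' P Y hP hY (by rw [P2]; exact r1)
    (by rw [Y2]; exact Int.fract_nonneg _) (by rw [P2, Y2]; exact r2)
  have key2 := key.map E (ψ' := fun x y : Fx A L => psi A L δ x y)
    (c' := fun x => cL S θ A L x) (z' := fun x => zL θ A L x)
    (fun x y => by
      simp only [hE, coe_gF]
      exact psi_gq hA' hA lat_Zl hLat hg hc hL' hef.ne hdet (by ring) x.2 y.2)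
    (fun x => by
      simp only [hE, coe_gF]
      exact cL_frame hS hθ hA h1 hLat hθ' hA' hL' hg hc hef.pos hdet he hell x)
    (fun x => by
      simp only [hE, coe_gF]
      exact zL_frame hθ hA h1 hLat hθ' hA' hL' hg hc hef.pos hdet he hell x)
  have q1 : E ⟨QuotientAddGroup.mk P, hP⟩ = ⟨QuotientAddGroup.mk p', hp'⟩ := Subtype.ext PE
  have q2 : E ⟨QuotientAddGroup.mk Y, hY⟩ = ⟨QuotientAddGroup.mk y', hy'⟩ := Subtype.ext YE
  rw [map_neg, map_neg, q1, q2] at key2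
  exact key2

/-- The quadratic relation of the phase for all lattices. -/
def QuadAll : Prop :=
  ∀ (θ : ℝ) (A : V ≃+ V) (η : ℝ) (L : AddSubgroup V) (δ : ℚ) (u w : V),
    Irrational θ → Hyp θ A η → 1 < η → Lat L δ u w → Stb A L →
    ∀ x ∈ Fx A L, ∀ y ∈ Fx A L, zL θ A L (x + y) ^ 2 * zL θ A L 0 ^ 2 =
      zL θ A L x ^ 2 * zL θ A L y ^ 2 * psi A L δ x y

/-- **All near group data** from (A2) in one basis and the quadratic relation. -/
theorem allNG_of_one {S : ℝ → ℝ → ℝ → ℝ} (hS : DS S) (one : OneA2 S) (hquad : QuadAll) :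
    AllNG S := by
  intro θ A η L δ u w _ hθ hA h1 hLat hL
  refine ng_of hS hθ hA h1 hLat hL
    (fun x hx => Pool.MP_d0f9e0_co.PH.zL_neg hθ hA h1 hLat hL hx)
    (hquad θ A η L δ u w hθ hA h1 hLat hL) ?_
  intro p hp y
  have good : ∀ y : Fx A L, p + y ≠ 0 → A2At η (fun x y : Fx A L => psi A L δ x y)
      (fun x => cL S θ A L x) (fun x => zL θ A L x) p y := fun y hy => by
    have := A2At_good hS.cs one hθ hA h1 hLat hL (-p) (-y) (neg_ne_zero.mpr hp)
      (by rw [← neg_add]; exact neg_ne_zero.mpr hy)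
    rwa [neg_neg, neg_neg] at this
  by_cases hy : p + y = 0
  · refine A2At.symm' (G := Fx A L) (ψ := fun x y : Fx A L => psi A L δ x y)
      (c := fun x => cL S θ A L x) (z := fun x => zL θ A L x)
      (p := p) (y := y) (fun a b c => psi_add hA hLat hL a.2 b.2 c.2)
      (fun a b => psi_symm hA hLat hL a.2 b.2) (fun a b => ex_ne_zero _)
      (fun a => Pool.MP_d0f9e0_co.PH.zL_ne θ A L a)
      (fun a => Pool.MP_d0f9e0_co.PH.zL_neg hθ hA h1 hLat hL a.2)
      (fun a b => hquad θ A η L δ u w hθ hA h1 hLat hL a a.2 b b.2) (good (-p - y) ?_)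
    rw [add_sub, add_neg_cancel, zero_sub, neg_ne_zero]
    rintro rfl
    rw [add_zero] at hy
    exact hp hy
  · exact good y hy

end Pool.Agent.Lib.MP_d0f9e0_co.AN
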