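import Pool.Agent.Lib.MP_d0f9e0_co.AN.Defs
import Pool.Agent.Lib.MP_d0f9e0_co.AN38.Beta

/-!
# The level `c` beta integral (row R3, helper38)

`LC.beta`: for `p = (ρ, mp)` with `0 < ρ`, `c ρ ∉ ℤ`, `y = (zy, my)` with `-1/c < Re zy`,
`Re zy + ρ < η/c` and `0 < x0 < ρ`,
`I * ∑_{m < c} ∫ FF(x0 + t I, m) dt = RR`.
-/

set_option autoImplicit false

open Complex MeasureTheory Filter Topology Set

namespace Pool.Agent.Lib.MP_d0f9e0_co.AN

open Pool.MP_d0f9e0_co.CS (ee)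
open Pool.Agent.MP_d0f9e0_co

variable {c : ℕ} {a d : ℤ} {η : ℝ} {E : ℂ → ℤ → ℂ}

theorem ee38 (z : ℂ) : ee z = AN38.ee z := rfl

theorem LC.per_mul (h : LC c a d η E) (z : ℂ) (m k : ℤ) : E z (m + c * k) = E z m := by
  induction k using Int.induction_on with
  | zero => simp
  | succ k ih => rw [mul_add, mul_one, ← add_assoc, h.per, ih]
  | pred k ih =>
    rw [← h.per, show m + (c : ℤ) * (-(k : ℤ) - 1) + c = m + c * -(k : ℤ) by ring, ih]

/-- The same function on `ℂ × ZMod c`. -/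
def EZ (c : ℕ) (E : ℂ → ℤ → ℂ) (z : ℂ) (m : ZMod c) : ℂ := E z (m.val : ℤ)

theorem LC.EZ_int (h : LC c a d η E) [NeZero c] (z : ℂ) (n : ℤ) : EZ c E z (n : ZMod c) = E z n := by
  unfold EZ
  rw [ZMod.val_intCast]
  conv_rhs => rw [← Int.emod_add_mul_ediv n c]
  rw [h.per_mul]

theorem LC.up_one (h : LC c a d η E) (m : ℤ) {A B : ℝ} (hA : -1 / (c : ℝ) < A) (hB : B < η / c) :
    ∃ C : ℝ, ∀ z : ℂ, A ≤ z.re → z.re ≤ B → 0 ≤ z.im → ‖E z m‖ ≤ C ∧ ‖(E z m)⁻¹‖ ≤ C := by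
  obtain ⟨C, ε, hε, hC⟩ := h.top m A B hA hB
  -- upper part
  have h1 : ∀ z : ℂ, A ≤ z.re → z.re ≤ B → 0 ≤ z.im → ‖E z m‖ ≤ 1 + |C| := by
    intro z z1 z2 z3
    have k1 := hC z z1 z2 z3
    have k2 : C * Real.exp (-ε * z.im) ≤ |C| := by
      calc C * Real.exp (-ε * z.im) ≤ |C| * Real.exp (-ε * z.im) := by
            gcongr; exact le_abs_self C
        _ ≤ |C| * 1 := by
            gcongr
            apply Real.exp_le_one_iff.2
            nlinarith
        _ = |C| := mul_one _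
    calc ‖E z m‖ = ‖1 + (E z m - 1)‖ := by ring_nf
      _ ≤ ‖(1 : ℂ)‖ + ‖E z m - 1‖ := norm_add_le _ _
      _ ≤ 1 + |C| := by rw [norm_one]; linarith
  have hlim : Tendsto (fun y : ℝ => C * Real.exp (-ε * y)) atTop (𝓝 0) := by
    have t1 : Tendsto (fun y : ℝ => -ε * y) atTop atBot :=
      tendsto_id.const_mul_atTop_of_neg (by linarith)
    have := (Real.tendsto_exp_atBot.comp t1).const_mul C
    simpa using this
  obtain ⟨Y, hY⟩ := (((tendsto_order.1 hlim).2 (1 / 2) (by norm_num)).and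
    (eventually_ge_atTop 0)).exists_forall_of_atTop
  have h2 : ∀ z : ℂ, A ≤ z.re → z.re ≤ B → Y ≤ z.im → ‖(E z m)⁻¹‖ ≤ 2 := by
    intro z z1 z2 z3
    obtain ⟨y1, y2⟩ := hY z.im z3
    have k1 := hC z z1 z2 y2
    have k2 : (1 : ℝ) ≤ ‖E z m‖ + ‖E z m - 1‖ := by
      calc (1 : ℝ) = ‖E z m - (E z m - 1)‖ := by rw [sub_sub_cancel, norm_one]
        _ ≤ ‖E z m‖ + ‖E z m - 1‖ := norm_sub_le _ _
    have k3 : (1 : ℝ) / 2 ≤ ‖E z m‖ := by linarith
    rw [norm_inv]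
    calc ‖E z m‖⁻¹ ≤ ((1 : ℝ) / 2)⁻¹ := by
          apply inv_anti₀ (by norm_num) k3
      _ = 2 := by norm_num
  -- the compact rectangle
  have hcomp : IsCompact (Icc A B ×ℂ Icc 0 Y) := isCompact_Icc.reProdIm isCompact_Icc
  have hcont : ContinuousOn (fun z => (E z m)⁻¹) (Icc A B ×ℂ Icc 0 Y) := by
    apply ContinuousOn.inv₀
    · refine (h.diff m).continuousOn.mono ?_
      intro z hz
      rw [mem_reProdIm] at hz
      exact ⟨lt_of_lt_of_le hA hz.1.1, lt_of_le_of_lt hz.1.2 hB⟩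
    · intro z hz
      rw [mem_reProdIm] at hz
      exact h.ne z m (lt_of_lt_of_le hA hz.1.1) (lt_of_le_of_lt hz.1.2 hB)
  obtain ⟨D, hD⟩ := hcomp.exists_bound_of_continuousOn hcont
  refine ⟨max (1 + |C|) (max 2 D), fun z z1 z2 z3 => ⟨(h1 z z1 z2 z3).trans (le_max_left _ _), ?_⟩⟩
  by_cases hy : Y ≤ z.im
  · exact ((h2 z z1 z2 hy).trans (le_max_left _ _)).trans (le_max_right _ _)
  · have : z ∈ (Icc A B ×ℂ Icc 0 Y) := by
      rw [mem_reProdIm]
      exact ⟨⟨z1, z2⟩, ⟨z3, (not_le.1 hy).le⟩⟩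
    exact ((hD z this).trans (le_max_right _ _)).trans (le_max_right _ _)

theorem LC.up_all (h : LC c a d η E) [NeZero c] {A B : ℝ} (hA : -1 / (c : ℝ) < A)
    (hB : B < η / c) :
    ∃ C : ℝ, 0 ≤ C ∧ ∀ (z : ℂ) (m : ZMod c), A ≤ z.re → z.re ≤ B → 0 ≤ z.im →
      ‖EZ c E z m‖ ≤ C ∧ ‖(EZ c E z m)⁻¹‖ ≤ C := by
  choose C hC using fun m : ZMod c => h.up_one (m.val : ℤ) hA hB
  refine ⟨∑ m : ZMod c, |C m|, Finset.sum_nonneg fun m _ => abs_nonneg _, fun z m z1 z2 z3 => ?_⟩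
  have k1 : C m ≤ ∑ m : ZMod c, |C m| := (le_abs_self _).trans
    (Finset.single_le_sum (f := fun m => |C m|) (fun m _ => abs_nonneg _) (Finset.mem_univ m))
  exact ⟨((hC m z z1 z2 z3).1).trans k1, ((hC m z z1 z2 z3).2).trans k1⟩

theorem norm_refl_exp (c : ℕ) (η : ℝ) (z : ℂ) :
    ‖Complex.exp (Real.pi * I * (c * z ^ 2 - (η - 1) * z) / η)‖ =
      Real.exp (-(z.im * (2 * Real.pi * c * z.re / η - Real.pi * (η - 1) / η))) := by
  rw [Complex.norm_exp]
  congr 1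
  rw [show (Real.pi : ℂ) * I * (c * z ^ 2 - (η - 1) * z) / η =
    ((Real.pi / η : ℝ) : ℂ) * (I * (((c : ℝ) : ℂ) * z ^ 2 - ((η - 1 : ℝ) : ℂ) * z)) by
      push_cast; ring, Complex.re_ofReal_mul, Complex.I_mul_re, Complex.sub_im,
    Complex.im_ofReal_mul, Complex.im_ofReal_mul]
  have : (z ^ 2).im = 2 * z.re * z.im := by rw [pow_two, Complex.mul_im]; ring
  rw [this]
  ring

/-- The level `c` interface of `AN38` from the interface `LC`. -/
theorem LC.toLevE (h : LC c a d η E) [NeZero c] : AN38.LevE c a d η (EZ c E) := by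
  have hη1 := h.one_lt
  have hη : 0 < η := by linarith
  have hc0 : 0 < (c : ℝ) := by exact_mod_cast h.c_pos
  have hneg : -1 / (c : ℝ) = -(1 / c) := by ring
  have hadc : (a : ZMod c) * (d : ZMod c) = 1 := by
    have := (ZMod.intCast_zmod_eq_zero_iff_dvd (a * d - 1) c).2 h.inv
    push_cast at this
    exact sub_eq_zero.1 this
  refine
    { one_lt := hη1
      irr := h.irr
      adc := hadc
      diff := fun m => ?_
      ne := fun z m h1 h2 => ?_
      s1 := fun z m h1 h2 => ?_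
      s2 := fun z m h1 h2 => ?_
      up := fun A B hA hB => ?_
      dn := fun A B hA hB => ?_
      lim := fun x m h1 h2 => ?_ }
  · have := h.diff (m.val : ℤ)
    rw [hneg] at this
    exact this
  · exact h.ne z _ (by rw [hneg]; exact h1) h2
  · obtain ⟨n, rfl⟩ := ZMod.intCast_surjective m
    have e1 : ((n : ZMod c) - (a : ZMod c)) = ((n - a : ℤ) : ZMod c) := by push_cast; ring
    have e2 : (η - 1) / (c : ℝ) = η / c - 1 / c := by ring
    rw [e1, h.EZ_int, h.EZ_int, h.s1 z n (by rw [hneg]; exact h1) (by rw [e2]; linarith)]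
    congr 2
    unfold AN38.xt
    rw [AN38.chi_int, ← AN38.ee_add, ee38]
    congr 1
    have hηC : (η : ℂ) ≠ 0 := by exact_mod_cast hη.ne'
    have hcC : (c : ℂ) ≠ 0 := by exact_mod_cast hc0.ne'
    push_cast
    field_simp
  · obtain ⟨n, rfl⟩ := ZMod.intCast_surjective m
    have e1 : ((n : ZMod c) - 1) = ((n - 1 : ℤ) : ZMod c) := by push_cast; ring
    rw [e1, h.EZ_int, h.EZ_int, h.s2 z n (by rw [hneg]; exact h1) h2]
    congr 2
    unfold AN38.xx
    rw [show (d : ZMod c) * (n : ZMod c) = ((d * n : ℤ) : ZMod c) by push_cast; ring,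
      AN38.chi_int, ← AN38.ee_add, ee38]
    congr 1
    push_cast
    ring
  · obtain ⟨C, -, hC⟩ := h.up_all (A := A) (B := B) (by rw [hneg]; exact hA) hB
    exact ⟨C, hC⟩
  · obtain ⟨K, hK, hr⟩ := h.refl
    obtain ⟨C, hC0, hC⟩ := h.up_all (A := (η - 1) / c - B) (B := (η - 1) / c - A)
      (by rw [hneg, sub_div]; linarith) (by rw [sub_div]; linarith)
    refine ⟨C, fun z m z1 z2 z3 => ?_⟩
    have e1 : ((η - 1) / c - z : ℂ).re = (η - 1) / c - z.re := by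
      rw [show ((η - 1) / c - z : ℂ) = (((η - 1) / c : ℝ) : ℂ) - z by push_cast; ring,
        Complex.sub_re, Complex.ofReal_re]
    have e2 : ((η - 1) / c - z : ℂ).im = -z.im := by
      rw [show ((η - 1) / c - z : ℂ) = (((η - 1) / c : ℝ) : ℂ) - z by push_cast; ring,
        Complex.sub_im, Complex.ofReal_im, zero_sub]
    obtain ⟨b1, b2⟩ := hC ((η - 1) / c - z) ((a - 1 - (m.val : ℤ) : ℤ) : ZMod c)
      (by rw [e1]; linarith) (by rw [e1]; linarith) (by rw [e2]; linarith)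
    rw [h.EZ_int] at b1 b2
    have n1 : E ((η - 1) / c - z) (a - 1 - (m.val : ℤ)) ≠ 0 :=
      h.ne _ _ (by rw [e1, hneg, sub_div]; linarith) (by rw [e1, sub_div]; linarith)
    have k1 := hr z (m.val : ℤ) (by rw [hneg]; linarith) (by linarith)
    have k2 : ‖E z (m.val : ℤ)‖ * ‖E ((η - 1) / c - z) (a - 1 - (m.val : ℤ))‖ =
        Real.exp (-(z.im * (2 * Real.pi * c * z.re / η - Real.pi * (1 - 1 / η)))) := by
      rw [← norm_mul, k1, norm_mul, hK, one_mul, norm_refl_exp]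
      congr 3
      field_simp
    have p1 : 0 < ‖E ((η - 1) / c - z) (a - 1 - (m.val : ℤ))‖ := norm_pos_iff.2 n1
    set X := Real.exp (-(z.im * (2 * Real.pi * c * z.re / η - Real.pi * (1 - 1 / η)))) with hX
    have hX0 : 0 < X := Real.exp_pos _
    have hX1 : Real.exp (z.im * (2 * Real.pi * c * z.re / η - Real.pi * (1 - 1 / η))) = X⁻¹ := by
      rw [hX, ← Real.exp_neg, neg_neg]
    rw [hX1]
    have p2 : 0 < ‖E z (m.val : ℤ)‖ := by
      rcases (norm_nonneg (E z (m.val : ℤ))).lt_or_eq with h5 | h5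
      · exact h5
      · rw [← h5, zero_mul] at k2
        exact absurd k2.symm hX0.ne'
    constructor
    · change ‖E z (m.val : ℤ)‖ ≤ C * X
      have : ‖E z (m.val : ℤ)‖ = ‖(E ((η - 1) / c - z) (a - 1 - (m.val : ℤ)))⁻¹‖ * X := by
        rw [← k2, norm_inv]
        field_simp
      rw [this]
      gcongr
    · change ‖(E z (m.val : ℤ))⁻¹‖ ≤ C * X⁻¹
      have : ‖(E z (m.val : ℤ))⁻¹‖ = ‖E ((η - 1) / c - z) (a - 1 - (m.val : ℤ))‖ * X⁻¹ := by
        rw [← k2, norm_inv]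
        field_simp
      rw [this]
      gcongr
  · obtain ⟨C, ε, hε, hC⟩ := h.top (m.val : ℤ) x x (by rw [hneg]; exact h1) h2
    rw [tendsto_iff_norm_sub_tendsto_zero]
    have hlim : Tendsto (fun y : ℝ => C * Real.exp (-ε * y)) atTop (𝓝 0) := by
      have t1 : Tendsto (fun y : ℝ => -ε * y) atTop atBot :=
        tendsto_id.const_mul_atTop_of_neg (by linarith)
      have := (Real.tendsto_exp_atBot.comp t1).const_mul C
      simpa using this
    refine squeeze_zero' (Eventually.of_forall fun t => norm_nonneg _) ?_ hlim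
    filter_upwards [eventually_ge_atTop 0] with t ht
    have r1 : ((x : ℂ) + t * I).re = x := by simp
    have r2 : ((x : ℂ) + t * I).im = t := by simp
    have := hC ((x : ℂ) + t * I) (by rw [r1]) (by rw [r1]) (by rw [r2]; exact ht)
    rw [r2] at this
    exact this

theorem psi38 [NeZero c] (z : ℂ) (m : ℤ) (w : ℂ) (k : ℤ) :
    psi η c d z m w k = AN38.psi d η z (m : ZMod c) w (k : ZMod c) := by
  unfold psi AN38.psi
  rw [show -((d : ZMod c) * (m : ZMod c) * (k : ZMod c)) = ((-(d * m * k) : ℤ) : ZMod c) by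
    push_cast; ring, AN38.chi_int, ← AN38.ee_add, ee38]
  congr 1
  push_cast
  ring

theorem xt38 [NeZero c] (z : ℂ) (m : ℤ) :
    ee (z / η + m / c) = AN38.xt η z (m : ZMod c) := by
  unfold AN38.xt
  rw [AN38.chi_int, ← AN38.ee_add, ee38]

theorem LC.FF_eq (h : LC c a d η E) [NeZero c] (ρ : ℝ) (mp : ℤ) (w : ℂ) (k : ℤ) (z : ℂ) (m : ℤ) :
    FF E η c a d ρ mp w k z m =
      AN38.KK a d η (EZ c E) (ρ - η / c) ((mp : ZMod c) + 1) w (k : ZMod c) z (m : ZMod c) := by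
  unfold FF AN38.KK
  rw [show (m : ZMod c) + (a : ZMod c) = ((m + a : ℤ) : ZMod c) by push_cast; ring,
    show (m : ZMod c) - ((mp : ZMod c) + 1) = ((m - mp - 1 : ℤ) : ZMod c) by push_cast; ring,
    h.EZ_int, h.EZ_int, ← psi38, ← xt38,
    show z - ((ρ - η / c : ℝ) : ℂ) = z - ρ + η / c by push_cast; ring]
  rw [div_eq_mul_inv]

theorem LC.RR_eq (h : LC c a d η E) [NeZero c] (ρ : ℝ) (mp : ℤ) (w : ℂ) (k : ℤ) :
    RR E η c a d ρ mp w k = AN38.RRz a d η (EZ c E) ρ (mp : ZMod c) w (k : ZMod c) := by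
  unfold RR AN38.RRz
  rw [show (mp : ZMod c) + (a : ZMod c) = ((mp + a : ℤ) : ZMod c) by push_cast; ring,
    show (k : ZMod c) + (mp : ZMod c) = ((k + mp : ℤ) : ZMod c) by push_cast; ring,
    show (0 : ZMod c) = ((0 : ℤ) : ZMod c) by simp,
    h.EZ_int, h.EZ_int, h.EZ_int, h.EZ_int, ← psi38, ← xt38]

/-- **The level `c` beta integral.** -/
theorem LC.beta (h : LC c a d η E) {ρ : ℝ} (hρ : 0 < ρ) (hn : ∀ n : ℕ, ρ ≠ n / c) (mp : ℤ)
    {zy : ℂ} (my : ℤ) (hy : -1 / (c : ℝ) < zy.re) (hy' : zy.re + ρ < η / c) {x0 : ℝ}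
    (hx : 0 < x0) (hx' : x0 < ρ) :
    I * ∑ m ∈ Finset.range c, ∫ t : ℝ, FF E η c a d ρ mp zy my (x0 + t * I) m =
      RR E η c a d ρ mp zy my := by
  have : NeZero c := ⟨h.c_pos.ne'⟩
  have hc0 : 0 < (c : ℝ) := by exact_mod_cast h.c_pos
  have hneg : -1 / (c : ℝ) = -(1 / c) := by ring
  set n := ⌊c * ρ⌋₊ with hnn
  have h0 : 0 ≤ c * ρ := by positivity
  have h1 : (n : ℝ) / c < ρ := by
    have a1 : (n : ℝ) ≤ c * ρ := Nat.floor_le h0
    have a2 : (n : ℝ) / c ≤ ρ := by rw [div_le_iff₀ hc0]; linarith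
    exact lt_of_le_of_ne a2 (hn n).symm
  have h2 : ρ < (n + 1) / c := by
    rw [lt_div_iff₀ hc0, mul_comm]
    exact Nat.lt_floor_add_one _
  have key := h.toLevE.beta n (ρ := ρ) (mp : ZMod c) h1 h2 zy (my : ZMod c) x0
    (by rw [← hneg]; exact hy) (by linarith) hx hx'
  rw [h.RR_eq, ← key]
  congr 1
  unfold AN38.JP AN38.JJ
  rw [Finset.sum_range]
  have e1 : ∀ m : ZMod c, (∫ t : ℝ, AN38.KK a d η (EZ c E) (ρ - η / c) ((mp : ZMod c) + 1) zy
      (my : ZMod c) (x0 + t * I) m) = ∫ t : ℝ, FF E η c a d ρ mp zy my (x0 + t * I) (m.val : ℤ) := by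
    intro m
    congr 1
    ext t
    rw [h.FF_eq]
    congr 1
    simp
  simp_rw [e1]
  obtain ⟨c', rfl⟩ : ∃ c', c = c' + 1 := ⟨c - 1, (Nat.succ_pred_eq_of_pos h.c_pos).symm⟩
  rfl

end Pool.Agent.Lib.MP_d0f9e0_co.AN
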