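import Pool.Agent.Lib.MP_d0f9e0_co.CS26

/-!
# Level c quantum dilogarithm: definitions and interfaces (helper19, Project Z)

`ee z = exp (2 π i z)` is `Pool.MP_d0f9e0_co.CS.ee`.
-/

set_option autoImplicit false

open Complex MeasureTheory Filter Topology Set

namespace Pool.Agent.Lib.MP_d0f9e0_co.AN

open Pool.MP_d0f9e0_co.CS (ee)

/-- The Bernoulli polynomial `B_{2,2}(z | 1, η)`. -/
noncomputable def B22 (η : ℝ) (z : ℂ) : ℂ := (z ^ 2 - (1 + η) * z + (1 + η ^ 2 + 3 * η) / 6) / η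

/-- Interface of the (Faddeev normalised) double sine function with periods `1, η` on the open
strip `0 < Re z < 1 + η`:
`s z = exp (- ∫_{ℝ + iδ} e^{zt} / ((e^t - 1) (e^{ηt} - 1)) dt / t)`, `0 < δ < 2π/η`. -/
structure SS (η : ℝ) (s : ℂ → ℂ) : Prop where
  one_lt : 1 < η
  irr : Irrational η
  diff : DifferentiableOn ℂ s {z : ℂ | 0 < z.re ∧ z.re < 1 + η}
  ne : ∀ z : ℂ, 0 < z.re → z.re < 1 + η → s z ≠ 0
  add_one : ∀ z : ℂ, 0 < z.re → z.re < η → s (z + 1) = (1 - ee (z / η)) * s z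
  add_eta : ∀ z : ℂ, 0 < z.re → z.re < 1 → s (z + η) = (1 - ee z) * s z
  refl : ∀ z : ℂ, 0 < z.re → z.re < 1 + η →
    s z * s (1 + η - z) = Complex.exp (Real.pi * I * B22 η z)
  top : ∀ a b : ℝ, 0 < a → b < 1 + η → ∃ C ε : ℝ, 0 < ε ∧ ∀ z : ℂ, a ≤ z.re → z.re ≤ b →
    0 ≤ z.im → ‖s z - 1‖ ≤ C * Real.exp (-ε * z.im)
  real : ∀ x : ℝ, 0 < x → x < 1 + η →
    s x = ‖s x‖ * Complex.exp (Real.pi * I * B22 η x / 2)

/-- The index `k_j = (m - a j) mod c`, in `[0, c)`. -/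
def kk (c : ℕ) (a m : ℤ) (j : ℕ) : ℤ := (m - a * j) % c

/-- The level `c` function `E(z, m) = ∏_{j=1}^c s (z + (k_j η + j) / c)`. -/
noncomputable def EE (s : ℂ → ℂ) (η : ℝ) (c : ℕ) (a : ℤ) (z : ℂ) (m : ℤ) : ℂ :=
  ∏ j ∈ Finset.Icc 1 c, s (z + ((kk c a m j : ℂ) * η + j) / c)

/-- The kernel `ψ((z,m),(w,k)) = e(c z w / η - d m k / c)` on `ℂ × ℤ/c`. -/
noncomputable def psi (η : ℝ) (c : ℕ) (d : ℤ) (z : ℂ) (m : ℤ) (w : ℂ) (k : ℤ) : ℂ :=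
  ee (c * z * w / η - d * m * k / c)

/-- Interface of the level `c` function `E : ℂ → ℤ → ℂ` on the strip `-1/c < Re z < η/c`. -/
structure LC (c : ℕ) (a d : ℤ) (η : ℝ) (E : ℂ → ℤ → ℂ) : Prop where
  c_pos : 0 < c
  inv : (c : ℤ) ∣ a * d - 1
  one_lt : 1 < η
  irr : Irrational η
  per : ∀ (z : ℂ) (m : ℤ), E z (m + c) = E z m
  diff : ∀ m : ℤ, DifferentiableOn ℂ (fun z => E z m) {z : ℂ | -1 / (c : ℝ) < z.re ∧ z.re < η / c}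
  ne : ∀ (z : ℂ) (m : ℤ), -1 / (c : ℝ) < z.re → z.re < η / c → E z m ≠ 0
  s1 : ∀ (z : ℂ) (m : ℤ), -1 / (c : ℝ) < z.re → z.re < (η - 1) / c →
    E (z + 1 / c) (m - a) = (1 - ee (z / η + 1 / (c * η) + (m - a) / c)) * E z m
  s2 : ∀ (z : ℂ) (m : ℤ), -1 / (c : ℝ) < z.re → z.re < 0 →
    E (z + η / c) (m - 1) = (1 - ee (z + d * m / c)) * E z m
  refl : ∃ K : ℤ → ℂ, (∀ m, ‖K m‖ = 1) ∧ ∀ (z : ℂ) (m : ℤ), -1 / (c : ℝ) < z.re →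
    z.re < η / c → E z m * E ((η - 1) / c - z) (a - 1 - m) =
      K m * Complex.exp (Real.pi * I * (c * z ^ 2 - (η - 1) * z) / η)
  top : ∀ (m : ℤ) (α β : ℝ), -1 / (c : ℝ) < α → β < η / c → ∃ C ε : ℝ, 0 < ε ∧ ∀ z : ℂ,
    α ≤ z.re → z.re ≤ β → 0 ≤ z.im → ‖E z m - 1‖ ≤ C * Real.exp (-ε * z.im)

/-- The integrand `x~ E(h - s1) / E(h - p + s2) ψ(h, y)` of the level `c` beta integral,
`h = (z, m)`, `p = (zp, mp)`, `y = (zy, my)`, `s1 = (1/c, -a)`, `s2 = (η/c, -1)`. -/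
noncomputable def FF (E : ℂ → ℤ → ℂ) (η : ℝ) (c : ℕ) (a d : ℤ) (zp : ℂ) (mp : ℤ) (zy : ℂ)
    (my : ℤ) (z : ℂ) (m : ℤ) : ℂ :=
  ee (z / η + m / c) * E (z - 1 / c) (m + a) / E (z - zp + η / c) (m - mp - 1) *
    psi η c d z m zy my

/-- The right side `P~ E(p - s1) E(y) ψ(p,y) / (E(0,0) E(y + p))`. -/
noncomputable def RR (E : ℂ → ℤ → ℂ) (η : ℝ) (c : ℕ) (a d : ℤ) (zp : ℂ) (mp : ℤ) (zy : ℂ)
    (my : ℤ) : ℂ :=
  ee (zp / η + mp / c) * E (zp - 1 / c) (mp + a) * E zy my * psi η c d zp mp zy my /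
    (E 0 0 * E (zy + zp) (my + mp))

/-- `1/E` continued to `-(1+η)/c < Re z < η/c` by one application of `s2`. -/
noncomputable def Rinv (E : ℂ → ℤ → ℂ) (η : ℝ) (c : ℕ) (d : ℤ) (z : ℂ) (m : ℤ) : ℂ :=
  if 0 ≤ z.re then 1 / E z m else (1 - ee (z + d * m / c)) / E (z + η / c) (m - 1)

end Pool.Agent.Lib.MP_d0f9e0_co.AN
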