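import Pool.Agent.Lib.MP_d0f9e0_co.AN.Defs

/-!
# The level `c` function satisfies its interface (helper96, row R2)
-/

set_option autoImplicit false

open Complex MeasureTheory Filter Topology Set

namespace Pool.Agent.Lib.MP_d0f9e0_co.AN

open Pool.MP_d0f9e0_co.CS (ee ee_zero ee_add ee_int ee_add_int)

/-! ### The indices -/

theorem kk_nonneg {c : ℕ} (hc : 0 < c) (a m : ℤ) (j : ℕ) : 0 ≤ kk c a m j :=
  Int.emod_nonneg _ (by exact_mod_cast hc.ne')

theorem kk_lt {c : ℕ} (hc : 0 < c) (a m : ℤ) (j : ℕ) : kk c a m j < c :=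
  Int.emod_lt_of_pos _ (by exact_mod_cast hc)

theorem kk_sub_a (c : ℕ) (a m : ℤ) (j : ℕ) : kk c a (m - a) j = kk c a m (j + 1) := by
  rw [kk, kk]
  congr 1
  push_cast
  ring

theorem kk_add_c (c : ℕ) (a m : ℤ) (j : ℕ) : kk c a m (j + c) = kk c a m j := by
  rw [kk, kk]
  have : m - a * ((j + c : ℕ) : ℤ) = m - a * j + c * (-a) := by push_cast; ring
  rw [this, Int.add_mul_emod_self_left]

theorem kk_per (c : ℕ) (a m : ℤ) (j : ℕ) : kk c a (m + c) j = kk c a m j := by
  rw [kk, kk]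
  have : m + c - a * (j : ℤ) = m - a * j + c * 1 := by ring
  rw [this, Int.add_mul_emod_self_left]

theorem kk_dvd (c : ℕ) (a m : ℤ) (j : ℕ) : (c : ℤ) ∣ m - a * j - kk c a m j := by
  rw [kk]
  exact Int.dvd_self_sub_emod

theorem kk_eq_iff {c : ℕ} (hc : 0 < c) (a m k : ℤ) (j : ℕ) (h0 : 0 ≤ k) (h1 : k < c) :
    kk c a m j = k ↔ (c : ℤ) ∣ m - a * j - k := by
  constructor
  · intro h; rw [← h]; exact kk_dvd c a m j
  · intro h
    have h2 := kk_dvd c a m j
    have h3 : (c : ℤ) ∣ kk c a m j - k := by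
      have := dvd_sub h h2
      have e : m - a * (j : ℤ) - k - (m - a * j - kk c a m j) = kk c a m j - k := by ring
      rwa [e] at this
    have h5 : (kk c a m j) % c = k % c := (Int.emod_emod_of_dvd _ (dvd_refl _)).symm.trans (by
      rw [Int.emod_emod_of_dvd _ (dvd_refl _)]
      exact Int.emod_eq_emod_iff_emod_sub_eq_zero.2 (Int.emod_eq_zero_of_dvd h3))
    rwa [Int.emod_eq_of_lt (kk_nonneg hc a m j) (kk_lt hc a m j), Int.emod_eq_of_lt h0 h1] at h5

theorem kk_succ_of_ne {c : ℕ} (hc : 0 < c) {a m : ℤ} {j : ℕ} (h : kk c a m j ≠ 0) :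
    kk c a (m - 1) j = kk c a m j - 1 := by
  have h1 := kk_nonneg hc a m j
  have h2 := kk_lt hc a m j
  rw [kk_eq_iff hc _ _ _ _ (by omega) (by omega)]
  have := kk_dvd c a m j
  have e : m - 1 - a * (j : ℤ) - (kk c a m j - 1) = m - a * j - kk c a m j := by ring
  rwa [e]

theorem kk_succ_of_eq {c : ℕ} (hc : 0 < c) {a m : ℤ} {j : ℕ} (h : kk c a m j = 0) :
    kk c a (m - 1) j = c - 1 := by
  have h0 : (0 : ℤ) < c := by exact_mod_cast hc
  rw [kk_eq_iff hc _ _ _ _ (by omega) (by omega)]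
  have h1 := kk_dvd c a m j
  rw [h] at h1
  have e : m - 1 - a * (j : ℤ) - (c - 1) = (m - a * j - 0) - c := by ring
  rw [e]
  exact dvd_sub h1 (dvd_refl _)

theorem kk_refl {c : ℕ} (hc : 0 < c) (a m : ℤ) {i : ℕ} (hi : i < c) :
    kk c a (a - 1 - m) (c - 1 - i + 1) = c - 1 - kk c a m (i + 1) := by
  have h1 := kk_nonneg hc a m (i + 1)
  have h2 := kk_lt hc a m (i + 1)
  rw [kk_eq_iff hc _ _ _ _ (by omega) (by omega)]
  have h3 := kk_dvd c a m (i + 1)
  have e0 : ((c - 1 - i + 1 : ℕ) : ℤ) = c - i := by omega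
  have e : a - 1 - m - a * ((c - 1 - i + 1 : ℕ) : ℤ) - (c - 1 - kk c a m (i + 1)) =
      -(m - a * ((i + 1 : ℕ) : ℤ) - kk c a m (i + 1)) + c * (-a - 1) := by
    rw [e0]; push_cast; ring
  rw [e]
  exact dvd_add (dvd_neg.2 h3) (dvd_mul_right _ _)

theorem kk_inj {c : ℕ} {a d m : ℤ} (hd : (c : ℤ) ∣ a * d - 1) {i j : ℕ}
    (hi : i < c) (hj : j < c) (h : kk c a m (i + 1) = kk c a m (j + 1)) : i = j := by
  have h1 := kk_dvd c a m (i + 1)
  have h2 := kk_dvd c a m (j + 1)
  rw [h] at h1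
  have h3 : (c : ℤ) ∣ a * (j - i) := by
    have := dvd_sub h1 h2
    have e : m - a * ((i + 1 : ℕ) : ℤ) - kk c a m (j + 1) -
        (m - a * ((j + 1 : ℕ) : ℤ) - kk c a m (j + 1)) = a * (j - i) := by
      push_cast; ring
    rwa [e] at this
  have h4 : (c : ℤ) ∣ (j : ℤ) - i := by
    have e : ((j : ℤ) - i) = d * (a * (j - i)) - (a * d - 1) * (j - i) := by ring
    rw [e]
    exact dvd_sub (Dvd.dvd.mul_left h3 _) (Dvd.dvd.mul_right hd _)
  have h5 : (j : ℤ) - i = 0 := by
    apply Int.eq_zero_of_abs_lt_dvd h4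
    rw [abs_lt]
    constructor <;> omega
  omega

theorem sum_kk {c : ℕ} (hc : 0 < c) {a d : ℤ} (hd : (c : ℤ) ∣ a * d - 1) (m : ℤ) :
    2 * ∑ i ∈ Finset.range c, kk c a m (i + 1) = c * (c - 1) := by
  classical
  have h1 : (Finset.range c).image (fun i => (kk c a m (i + 1)).toNat) = Finset.range c := by
    apply Finset.eq_of_subset_of_card_le
    · intro x hx
      obtain ⟨i, _, rfl⟩ := Finset.mem_image.1 hx
      rw [Finset.mem_range]
      have h1 := kk_nonneg hc a m (i + 1)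
      have h2 := kk_lt hc a m (i + 1)
      omega
    · rw [Finset.card_image_of_injOn]
      intro i hi j hj h
      rw [Finset.mem_coe, Finset.mem_range] at hi hj
      refine kk_inj hd hi hj ?_ (m := m)
      have h1 := kk_nonneg hc a m (i + 1)
      have h2 := kk_nonneg hc a m (j + 1)
      simp only at h
      omega
  have h2 : ∑ x ∈ (Finset.range c).image (fun i => (kk c a m (i + 1)).toNat), (x : ℤ) =
      ∑ i ∈ Finset.range c, kk c a m (i + 1) := by
    rw [Finset.sum_image]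
    · refine Finset.sum_congr rfl fun i _ => ?_
      exact Int.toNat_of_nonneg (kk_nonneg hc a m (i + 1))
    · intro i hi j hj h
      rw [Finset.mem_coe, Finset.mem_range] at hi hj
      refine kk_inj hd hi hj ?_ (m := m)
      have h1 := kk_nonneg hc a m (i + 1)
      have h2 := kk_nonneg hc a m (j + 1)
      simp only at h
      omega
  rw [← h2, h1]
  have h3 := Finset.sum_range_id_mul_two c
  have h4 : (((∑ i ∈ Finset.range c, i) * 2 : ℕ) : ℤ) = ((c * (c - 1) : ℕ) : ℤ) := by rw [h3]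
  rw [Nat.cast_mul, Nat.cast_mul, Nat.cast_sub (by omega)] at h4
  push_cast at h4
  linarith

/-! ### The points -/

/-- The point `(k_j η + j) / c`. -/
noncomputable def pt (η : ℝ) (c : ℕ) (a m : ℤ) (j : ℕ) : ℝ := ((kk c a m j : ℝ) * η + j) / c

theorem pt_cast (η : ℝ) (c : ℕ) (a m : ℤ) (j : ℕ) :
    ((pt η c a m j : ℝ) : ℂ) = ((kk c a m j : ℂ) * η + j) / c := by
  rw [pt]; push_cast; rfl

theorem pt_lower {η : ℝ} (hη : 1 < η) {c : ℕ} (hc : 0 < c) (a m : ℤ) {j : ℕ} (hj : 1 ≤ j) :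
    1 / (c : ℝ) ≤ pt η c a m j := by
  have hc' : (0 : ℝ) < c := by exact_mod_cast hc
  rw [pt]
  have h0 : (0 : ℝ) ≤ kk c a m j := by exact_mod_cast kk_nonneg hc a m j
  have h1 : (0 : ℝ) ≤ kk c a m j * η := by positivity
  have h2 : (1 : ℝ) ≤ j := by exact_mod_cast hj
  gcongr
  linarith

theorem pt_upper {η : ℝ} (hη : 1 < η) {c : ℕ} (hc : 0 < c) (a m : ℤ) {j : ℕ} (hj : j ≤ c) :
    pt η c a m j ≤ 1 + η - η / c := by
  have hc' : (0 : ℝ) < c := by exact_mod_cast hc
  rw [pt, div_le_iff₀ hc']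
  have h1 : (kk c a m j : ℝ) ≤ c - 1 := by
    have h2 : kk c a m j ≤ c - 1 := by have := kk_lt hc a m j; omega
    exact_mod_cast h2
  have h2 : (j : ℝ) ≤ c := by exact_mod_cast hj
  have h3 : (kk c a m j : ℝ) * η ≤ (c - 1) * η := by
    apply mul_le_mul_of_nonneg_right h1; linarith
  have h4 : (1 + η - η / c) * c = c + η * c - η := by
    field_simp
  rw [h4]
  nlinarith

theorem EE_eq (s : ℂ → ℂ) (η : ℝ) (c : ℕ) (a : ℤ) (z : ℂ) (m : ℤ) :
    EE s η c a z m = ∏ i ∈ Finset.range c, s (z + (pt η c a m (i + 1) : ℝ)) := by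
  rw [EE]
  have e : Finset.Icc 1 c = Finset.Ico 1 (c + 1) := by
    ext x; simp only [Finset.mem_Icc, Finset.mem_Ico]; omega
  rw [e, Finset.prod_Ico_eq_prod_range]
  simp only [Nat.add_sub_cancel]
  refine Finset.prod_congr rfl fun i _ => ?_
  rw [pt_cast, add_comm 1 i]

theorem sum_pt {η : ℝ} {c : ℕ} (hc : 0 < c) {a d : ℤ} (hd : (c : ℤ) ∣ a * d - 1) (m : ℤ) :
    ∑ i ∈ Finset.range c, pt η c a m (i + 1) = ((c - 1) * η + (c + 1)) / 2 := by
  have hc' : (0 : ℝ) < c := by exact_mod_cast hc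
  have h1 : (2 : ℝ) * ∑ i ∈ Finset.range c, (kk c a m (i + 1) : ℝ) = c * (c - 1) := by
    have := sum_kk hc hd m
    exact_mod_cast this
  have h2 : (2 : ℝ) * ∑ i ∈ Finset.range c, ((i + 1 : ℕ) : ℝ) = c * (c + 1) := by
    have h3 := Finset.sum_range_id_mul_two (c + 1)
    rw [Finset.sum_range_succ'] at h3
    simp only [add_zero, Nat.add_sub_cancel] at h3
    have h4 : (((∑ i ∈ Finset.range c, (i + 1)) * 2 : ℕ) : ℝ) = (((c + 1) * c : ℕ) : ℝ) := by
      rw [h3]
    rw [Nat.cast_mul, Nat.cast_sum] at h4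
    push_cast at h4 ⊢
    linarith
  have h3 : ∑ i ∈ Finset.range c, pt η c a m (i + 1) =
      ((∑ i ∈ Finset.range c, (kk c a m (i + 1) : ℝ)) * η +
        ∑ i ∈ Finset.range c, ((i + 1 : ℕ) : ℝ)) / c := by
    rw [Finset.sum_mul, ← Finset.sum_add_distrib, Finset.sum_div]
    exact Finset.sum_congr rfl fun i _ => rfl
  rw [h3, div_eq_div_iff hc'.ne' (by norm_num)]
  linear_combination η * h1 + h2

/-! ### The equations -/

theorem EE_s1 {η : ℝ} {s : ℂ → ℂ} (hs : SS η s) {c : ℕ} (hc : 0 < c) (a : ℤ)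
    {z : ℂ} {m : ℤ} (h1 : -1 / (c : ℝ) < z.re) (h2 : z.re < (η - 1) / c) :
    EE s η c a (z + 1 / c) (m - a) =
      (1 - ee (z / η + 1 / (c * η) + (m - a) / c)) * EE s η c a z m := by
  have hη := hs.one_lt
  have hη0 : (η : ℂ) ≠ 0 := by
    have : η ≠ 0 := by linarith
    exact_mod_cast this
  obtain ⟨n, rfl⟩ : ∃ n, c = n + 1 := Nat.exists_eq_succ_of_ne_zero hc.ne'
  have hc0 : ((n + 1 : ℕ) : ℂ) ≠ 0 := by exact_mod_cast hc.ne'
  have hcp : (0 : ℝ) < ((n + 1 : ℕ) : ℝ) := by exact_mod_cast hc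
  set F : ℕ → ℂ := fun j => s (z + (pt η (n + 1) a m j : ℝ)) with hF
  have e1 : EE s η (n + 1) a (z + 1 / (n + 1 : ℕ)) (m - a) =
      ∏ i ∈ Finset.range (n + 1), F (i + 1 + 1) := by
    rw [EE_eq]
    refine Finset.prod_congr rfl fun i _ => ?_
    rw [hF]
    simp only
    rw [pt_cast, pt_cast, kk_sub_a]
    congr 1
    push_cast
    ring
  have e2 : EE s η (n + 1) a z m = ∏ i ∈ Finset.range (n + 1), F (i + 1) := EE_eq _ _ _ _ _ _
  have e3 : F (n + 1 + 1) =
      (1 - ee (z / η + 1 / ((n + 1 : ℕ) * η) + (m - a) / (n + 1 : ℕ))) * F 1 := by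
    rw [hF]
    simp only
    have h3 : pt η (n + 1) a m (n + 1 + 1) = pt η (n + 1) a m 1 + 1 := by
      rw [pt, pt, show n + 1 + 1 = 1 + (n + 1) by ring, kk_add_c]
      field_simp
      push_cast
      ring
    have h4 : z + ((pt η (n + 1) a m 1 + 1 : ℝ) : ℂ) =
        z + (pt η (n + 1) a m 1 : ℝ) + 1 := by
      push_cast; ring
    have h5 := pt_lower hη hc a m (le_refl 1)
    have h6 : pt η (n + 1) a m 1 ≤ η - η / (n + 1 : ℕ) + 1 / (n + 1 : ℕ) := by
      rw [pt]
      have h4 : (kk (n + 1) a m 1 : ℝ) ≤ (n + 1 : ℕ) - 1 := by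
        have h2 : kk (n + 1) a m 1 ≤ (n + 1 : ℕ) - 1 := by
          have := kk_lt hc a m 1; omega
        exact_mod_cast h2
      have h5 : (kk (n + 1) a m 1 : ℝ) * η ≤ ((n + 1 : ℕ) - 1) * η := by
        apply mul_le_mul_of_nonneg_right h4; linarith
      rw [div_le_iff₀ hcp]
      have h6 : (η - η / (n + 1 : ℕ) + 1 / (n + 1 : ℕ)) * (n + 1 : ℕ) =
          η * (n + 1 : ℕ) - η + 1 := by
        field_simp
      rw [h6]
      push_cast at h5 ⊢
      linarith
    have h7 : -1 / ((n + 1 : ℕ) : ℝ) = -(1 / ((n + 1 : ℕ) : ℝ)) := by ring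
    have h8 : (η - 1) / ((n + 1 : ℕ) : ℝ) = η / (n + 1 : ℕ) - 1 / (n + 1 : ℕ) := by ring
    rw [h7] at h1
    rw [h8] at h2
    rw [h3, h4, hs.add_one]
    · congr 2
      obtain ⟨t, ht⟩ := kk_dvd (n + 1) a m 1
      have h9 : (kk (n + 1) a m 1 : ℂ) = m - a - (n + 1 : ℕ) * t := by
        have h10 : kk (n + 1) a m 1 = m - a - (n + 1 : ℕ) * t := by
          push_cast at ht ⊢
          linarith
        rw [h10]
        push_cast
        ring
      have h11 : (z + ((pt η (n + 1) a m 1 : ℝ) : ℂ)) / η =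
          z / η + 1 / ((n + 1 : ℕ) * η) + (m - a) / (n + 1 : ℕ) + ((-t : ℤ) : ℂ) := by
        rw [pt_cast, h9]
        field_simp
        push_cast
        ring
      rw [h11, ee_add_int]
    · simp only [Complex.add_re, Complex.ofReal_re]
      linarith
    · simp only [Complex.add_re, Complex.ofReal_re]
      linarith
  rw [e1, e2, Finset.prod_range_succ, e3, Finset.prod_range_succ' (fun i => F (i + 1))]
  ring

theorem EE_s2 {η : ℝ} {s : ℂ → ℂ} (hs : SS η s) {c : ℕ} (hc : 0 < c) {a d : ℤ}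
    (hd : (c : ℤ) ∣ a * d - 1) {z : ℂ} {m : ℤ} (h1 : -1 / (c : ℝ) < z.re) (h2 : z.re < 0) :
    EE s η c a (z + η / c) (m - 1) = (1 - ee (z + d * m / c)) * EE s η c a z m := by
  classical
  have hη := hs.one_lt
  have hc0 : (c : ℂ) ≠ 0 := by exact_mod_cast hc.ne'
  have hcp : (0 : ℝ) < (c : ℝ) := by exact_mod_cast hc
  have h7 : -1 / (c : ℝ) = -(1 / (c : ℝ)) := by ring
  rw [h7] at h1
  have e1 : EE s η c a (z + η / c) (m - 1) = ∏ i ∈ Finset.range c,
      ((if kk c a m (i + 1) = 0 then (1 - ee (z + d * m / c)) else 1) *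
        s (z + (pt η c a m (i + 1) : ℝ))) := by
    rw [EE_eq]
    refine Finset.prod_congr rfl fun i hi => ?_
    have hi' : i + 1 ≤ c := Finset.mem_range.1 hi
    split_ifs with h3
    · have h4 := kk_succ_of_eq hc h3
      have h5 : z + η / c + ((pt η c a (m - 1) (i + 1) : ℝ) : ℂ) =
          z + (pt η c a m (i + 1) : ℝ) + η := by
        rw [pt_cast, pt_cast, h4, h3]
        field_simp
        push_cast
        ring
      have h6 : pt η c a m (i + 1) ≤ 1 := by
        rw [pt, h3, div_le_one hcp]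
        have h8 : ((i + 1 : ℕ) : ℝ) ≤ c := by exact_mod_cast hi'
        push_cast at h8 ⊢
        linarith
      have h8 := pt_lower hη hc a m (Nat.le_add_left 1 i)
      rw [h5, hs.add_eta]
      · congr 2
        have h9 := kk_dvd c a m (i + 1)
        rw [h3, sub_zero] at h9
        have h10 : (c : ℤ) ∣ d * m - ((i + 1 : ℕ) : ℤ) := by
          have e : d * m - ((i + 1 : ℕ) : ℤ) = d * (m - a * ((i + 1 : ℕ) : ℤ)) +
              (a * d - 1) * ((i + 1 : ℕ) : ℤ) := by ring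
          rw [e]
          exact dvd_add (Dvd.dvd.mul_left h9 _) (Dvd.dvd.mul_right hd _)
        obtain ⟨t, ht⟩ := h10
        have h11 : (d : ℂ) * m = ((i + 1 : ℕ) : ℂ) + c * t := by
          have h12 : d * m = ((i + 1 : ℕ) : ℤ) + c * t := by linarith
          exact_mod_cast h12
        have h13 : z + (d : ℂ) * m / c = z + (pt η c a m (i + 1) : ℝ) + (t : ℤ) := by
          rw [h11, pt_cast, h3]
          field_simp
          push_cast
          ring
        rw [h13, ee_add_int]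
      · simp only [Complex.add_re, Complex.ofReal_re]
        linarith
      · simp only [Complex.add_re, Complex.ofReal_re]
        linarith
    · have h4 := kk_succ_of_ne hc h3
      rw [one_mul]
      congr 1
      rw [pt_cast, pt_cast, h4]
      push_cast
      field_simp
      ring
  have e2 : ∏ i ∈ Finset.range c,
      (if kk c a m (i + 1) = 0 then (1 - ee (z + d * m / c)) else 1) =
      (1 - ee (z + d * m / c)) := by
    have h0 : (0 : ℤ) < c := by exact_mod_cast hc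
    have hn := Int.emod_nonneg (d * m - 1) h0.ne'
    have hl := Int.emod_lt_of_pos (d * m - 1) h0
    have hi0 : ((d * m - 1) % c).toNat ∈ Finset.range c := by
      rw [Finset.mem_range]; omega
    have hk0 : kk c a m (((d * m - 1) % c).toNat + 1) = 0 := by
      rw [kk_eq_iff hc _ _ _ _ (le_refl 0) h0]
      have e : ((((d * m - 1) % c).toNat + 1 : ℕ) : ℤ) = (d * m - 1) % c + 1 := by
        push_cast
        rw [Int.toNat_of_nonneg hn]
      rw [e]
      have h3 : (c : ℤ) ∣ (d * m - 1) - (d * m - 1) % c := Int.dvd_self_sub_emod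
      have e2 : m - a * ((d * m - 1) % c + 1) - 0 =
          a * ((d * m - 1) - (d * m - 1) % c) - (a * d - 1) * m := by ring
      rw [e2]
      exact dvd_sub (Dvd.dvd.mul_left h3 _) (Dvd.dvd.mul_right hd _)
    rw [Finset.prod_eq_single_of_mem _ hi0, if_pos hk0]
    intro j hj hne
    rw [if_neg]
    intro h3
    exact hne (kk_inj hd (Finset.mem_range.1 hj) (Finset.mem_range.1 hi0) (h3.trans hk0.symm))
  rw [e1, Finset.prod_mul_distrib, e2, ← EE_eq]

/-! ### The reflection -/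

theorem sum_B22 {η : ℝ} (hη : 1 < η) {c : ℕ} (hc : 0 < c) {a d : ℤ}
    (hd : (c : ℤ) ∣ a * d - 1) (m : ℤ) (z : ℂ) :
    ∑ i ∈ Finset.range c, B22 η (z + (pt η c a m (i + 1) : ℝ)) =
      (c * z ^ 2 - (η - 1) * z) / η + ∑ i ∈ Finset.range c, B22 η (pt η c a m (i + 1) : ℝ) := by
  have hη0 : (η : ℂ) ≠ 0 := by
    have : η ≠ 0 := by linarith
    exact_mod_cast this
  have h1 : ∀ i, B22 η (z + (pt η c a m (i + 1) : ℝ)) =
      (z ^ 2 - (1 + η) * z) / η + (2 * z / η) * (pt η c a m (i + 1) : ℝ) +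
        B22 η (pt η c a m (i + 1) : ℝ) := by
    intro i
    rw [B22, B22]
    field_simp
    ring
  rw [Finset.sum_congr rfl fun i _ => h1 i, Finset.sum_add_distrib, Finset.sum_add_distrib,
    ← Finset.mul_sum, Finset.sum_const, Finset.card_range]
  have h2 : ∑ i ∈ Finset.range c, ((pt η c a m (i + 1) : ℝ) : ℂ) =
      ((c - 1) * η + (c + 1)) / 2 := by
    have := sum_pt (η := η) hc hd m
    rw [← Complex.ofReal_sum, this]
    push_cast
    ring
  rw [h2, nsmul_eq_mul]
  generalize ∑ i ∈ Finset.range c, B22 η (pt η c a m (i + 1) : ℝ) = W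
  field_simp
  ring

theorem B22_real (η x : ℝ) : ∃ r : ℝ, B22 η (x : ℂ) = r :=
  ⟨(x ^ 2 - (1 + η) * x + (1 + η ^ 2 + 3 * η) / 6) / η, by rw [B22]; push_cast; ring⟩

theorem EE_refl {η : ℝ} {s : ℂ → ℂ} (hs : SS η s) {c : ℕ} (hc : 0 < c) {a d : ℤ}
    (hd : (c : ℤ) ∣ a * d - 1) : ∃ K : ℤ → ℂ, (∀ m, ‖K m‖ = 1) ∧ ∀ (z : ℂ) (m : ℤ),
      -1 / (c : ℝ) < z.re → z.re < η / c → EE s η c a z m * EE s η c a ((η - 1) / c - z)
        (a - 1 - m) = K m * Complex.exp (Real.pi * I * (c * z ^ 2 - (η - 1) * z) / η) := by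
  have hη := hs.one_lt
  have hc0 : (c : ℂ) ≠ 0 := by exact_mod_cast hc.ne'
  have hcp : (0 : ℝ) < (c : ℝ) := by exact_mod_cast hc
  refine ⟨fun m => Complex.exp (Real.pi * I *
    ∑ i ∈ Finset.range c, B22 η (pt η c a m (i + 1) : ℝ)), ?_, ?_⟩
  · intro m
    choose r hr using fun i : ℕ => B22_real η (pt η c a m (i + 1))
    have e : (Real.pi * I * ∑ i ∈ Finset.range c, B22 η (pt η c a m (i + 1) : ℝ) : ℂ) =
        ((Real.pi * ∑ i ∈ Finset.range c, r i : ℝ) : ℂ) * I := by
      rw [Finset.sum_congr rfl fun i _ => hr i]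
      push_cast
      ring
    simp only
    rw [e, Complex.norm_exp_ofReal_mul_I]
  · intro z m h1 h2
    have h7 : -1 / (c : ℝ) = -(1 / (c : ℝ)) := by ring
    rw [h7] at h1
    rw [EE_eq, EE_eq, ← Finset.prod_range_reflect (fun i =>
      s (((η : ℂ) - 1) / c - z + (pt η c a (a - 1 - m) (i + 1) : ℝ))), ← Finset.prod_mul_distrib]
    have e1 : ∀ i ∈ Finset.range c, s (z + (pt η c a m (i + 1) : ℝ)) *
        s (((η : ℂ) - 1) / c - z + (pt η c a (a - 1 - m) (c - 1 - i + 1) : ℝ)) =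
        Complex.exp (Real.pi * I * B22 η (z + (pt η c a m (i + 1) : ℝ))) := by
      intro i hi
      have hi' : i < c := Finset.mem_range.1 hi
      have h3 := kk_refl hc a m hi'
      have h4 : ((η : ℂ) - 1) / c - z + (pt η c a (a - 1 - m) (c - 1 - i + 1) : ℝ) =
          1 + η - (z + (pt η c a m (i + 1) : ℝ)) := by
        rw [pt_cast, pt_cast, h3]
        have h5 : ((c - 1 - i + 1 : ℕ) : ℂ) = c - i := by
          have : c - 1 - i + 1 = c - i := by omega
          rw [this, Nat.cast_sub hi'.le]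
        rw [h5]
        field_simp
        push_cast
        ring
      rw [h4]
      have h8 := pt_lower hη hc a m (Nat.le_add_left 1 i)
      have h9 := pt_upper hη hc a m (j := i + 1) hi'
      refine hs.refl _ ?_ ?_
      · simp only [Complex.add_re, Complex.ofReal_re]
        linarith
      · simp only [Complex.add_re, Complex.ofReal_re]
        linarith
    rw [Finset.prod_congr rfl e1, ← Complex.exp_sum, ← Finset.mul_sum, sum_B22 hη hc hd,
      ← Complex.exp_add]
    congr 1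
    ring

/-! ### The limit at the top -/

theorem top_prod {ι : Type*} (S : Finset ι) (P : ℂ → Prop) (f : ι → ℂ → ℂ)
    (h : ∀ i ∈ S, ∃ C ε : ℝ, 0 < ε ∧ ∀ z, P z → 0 ≤ z.im →
      ‖f i z - 1‖ ≤ C * Real.exp (-ε * z.im)) :
    ∃ C ε : ℝ, 0 < ε ∧ ∀ z, P z → 0 ≤ z.im →
      ‖∏ i ∈ S, f i z - 1‖ ≤ C * Real.exp (-ε * z.im) := by
  classical
  induction S using Finset.induction_on with
  | empty => exact ⟨0, 1, one_pos, fun z _ _ => by simp⟩
  | insert i S hi ih =>
    obtain ⟨C1, e1, he1, h1⟩ := h i (Finset.mem_insert_self _ _)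
    obtain ⟨C2, e2, he2, h2⟩ := ih fun j hj => h j (Finset.mem_insert_of_mem hj)
    refine ⟨|C1| * (1 + |C2|) + |C2|, min e1 e2, lt_min he1 he2, fun z hz hz0 => ?_⟩
    rw [Finset.prod_insert hi]
    have g1 := h1 z hz hz0
    have g2 := h2 z hz hz0
    set A := f i z
    set B := ∏ j ∈ S, f j z
    have e : A * B - 1 = (A - 1) * B + (B - 1) := by ring
    have k1 : Real.exp (-e1 * z.im) ≤ Real.exp (-(min e1 e2) * z.im) := by
      apply Real.exp_le_exp.2
      have := mul_le_mul_of_nonneg_right (min_le_left e1 e2) hz0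
      linarith
    have k2 : Real.exp (-e2 * z.im) ≤ Real.exp (-(min e1 e2) * z.im) := by
      apply Real.exp_le_exp.2
      have := mul_le_mul_of_nonneg_right (min_le_right e1 e2) hz0
      linarith
    have k3 : Real.exp (-(min e1 e2) * z.im) ≤ 1 := by
      apply Real.exp_le_one_iff.2
      have := mul_nonneg (lt_min he1 he2).le hz0
      linarith
    have k0 := Real.exp_pos (-(min e1 e2) * z.im)
    have q1 : ‖A - 1‖ ≤ |C1| * Real.exp (-(min e1 e2) * z.im) :=
      g1.trans (mul_le_mul (le_abs_self C1) k1 (Real.exp_pos _).le (abs_nonneg _))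
    have q2 : ‖B - 1‖ ≤ |C2| * Real.exp (-(min e1 e2) * z.im) :=
      g2.trans (mul_le_mul (le_abs_self C2) k2 (Real.exp_pos _).le (abs_nonneg _))
    have q3 : ‖B‖ ≤ 1 + |C2| := by
      have : ‖B‖ ≤ ‖B - 1‖ + ‖(1 : ℂ)‖ := by
        have := norm_add_le (B - 1) 1
        simpa using this
      rw [norm_one] at this
      have q4 : |C2| * Real.exp (-(min e1 e2) * z.im) ≤ |C2| :=
        mul_le_of_le_one_right (abs_nonneg _) k3
      linarith
    calc ‖A * B - 1‖ = ‖(A - 1) * B + (B - 1)‖ := by rw [e]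
      _ ≤ ‖A - 1‖ * ‖B‖ + ‖B - 1‖ := by
          refine (norm_add_le _ _).trans ?_
          rw [norm_mul]
      _ ≤ |C1| * Real.exp (-(min e1 e2) * z.im) * (1 + |C2|) +
          |C2| * Real.exp (-(min e1 e2) * z.im) := by
          gcongr
      _ = _ := by ring

theorem EE_top {η : ℝ} {s : ℂ → ℂ} (hs : SS η s) {c : ℕ} (hc : 0 < c) (a m : ℤ) {α β : ℝ}
    (h1 : -1 / (c : ℝ) < α) (h2 : β < η / c) : ∃ C ε : ℝ, 0 < ε ∧ ∀ z : ℂ,
    α ≤ z.re → z.re ≤ β → 0 ≤ z.im → ‖EE s η c a z m - 1‖ ≤ C * Real.exp (-ε * z.im) := by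
  have hη := hs.one_lt
  have h7 : -1 / (c : ℝ) = -(1 / (c : ℝ)) := by ring
  rw [h7] at h1
  have key := top_prod (Finset.range c) (fun z => α ≤ z.re ∧ z.re ≤ β)
    (fun i z => s (z + (pt η c a m (i + 1) : ℝ))) ?_
  · obtain ⟨C, ε, he, h⟩ := key
    refine ⟨C, ε, he, fun z ha hb h0 => ?_⟩
    rw [EE_eq]
    exact h z ⟨ha, hb⟩ h0
  · intro i hi
    have hi' : i < c := Finset.mem_range.1 hi
    have h8 := pt_lower hη hc a m (Nat.le_add_left 1 i)
    have h9 := pt_upper hη hc a m (j := i + 1) hi'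
    obtain ⟨C, ε, he, h⟩ := hs.top (α + pt η c a m (i + 1)) (β + pt η c a m (i + 1))
      (by linarith) (by linarith)
    refine ⟨C, ε, he, fun z hz h0 => ?_⟩
    have := h (z + (pt η c a m (i + 1) : ℝ))
      (by simp only [Complex.add_re, Complex.ofReal_re]; linarith [hz.1])
      (by simp only [Complex.add_re, Complex.ofReal_re]; linarith [hz.2])
      (by simpa using h0)
    simpa using this

/-- The level `c` function satisfies its interface. -/
theorem LC_of_SS {η : ℝ} {s : ℂ → ℂ} (hs : SS η s) {c : ℕ} (hc : 0 < c) {a d : ℤ}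
    (hd : (c : ℤ) ∣ a * d - 1) : LC c a d η (EE s η c a) := by
  have hη := hs.one_lt
  have h7 : -1 / (c : ℝ) = -(1 / (c : ℝ)) := by ring
  have hrange : ∀ (z : ℂ) (m : ℤ) (i : ℕ), i ∈ Finset.range c → -1 / (c : ℝ) < z.re →
      z.re < η / c → 0 < (z + (pt η c a m (i + 1) : ℝ)).re ∧
        (z + (pt η c a m (i + 1) : ℝ)).re < 1 + η := by
    intro z m i hi h1 h2
    rw [h7] at h1
    have h8 := pt_lower hη hc a m (Nat.le_add_left 1 i)
    have h9 := pt_upper hη hc a m (j := i + 1) (Finset.mem_range.1 hi)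
    constructor
    · simp only [Complex.add_re, Complex.ofReal_re]; linarith
    · simp only [Complex.add_re, Complex.ofReal_re]; linarith
  exact {
    c_pos := hc
    inv := hd
    one_lt := hη
    irr := hs.irr
    per := by
      intro z m
      rw [EE_eq, EE_eq]
      refine Finset.prod_congr rfl fun i _ => ?_
      rw [pt, pt, kk_per]
    diff := by
      intro m
      have e : (fun z => EE s η c a z m) =
          fun z => ∏ i ∈ Finset.range c, s (z + (pt η c a m (i + 1) : ℝ)) := by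
        funext z; exact EE_eq _ _ _ _ _ _
      rw [e]
      refine DifferentiableOn.fun_finsetProd fun i hi => ?_
      refine hs.diff.comp ((differentiable_id.add_const _).differentiableOn) ?_
      intro z hz
      exact hrange z m i hi hz.1 hz.2
    ne := by
      intro z m h1 h2
      rw [EE_eq, Finset.prod_ne_zero_iff]
      intro i hi
      obtain ⟨h3, h4⟩ := hrange z m i hi h1 h2
      exact hs.ne _ h3 h4
    s1 := fun z m h1 h2 => EE_s1 hs hc a h1 h2
    s2 := fun z m h1 h2 => EE_s2 hs hc hd h1 h2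
    refl := EE_refl hs hc hd
    top := fun m α β h1 h2 => EE_top hs hc a m h1 h2 }

end Pool.Agent.Lib.MP_d0f9e0_co.AN
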