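import Mathlib

/-!
# The level `c` function

`LS η s`: interface of the level one function `s(z) = g(z) exp (pi i B22(z) / 2)`, the double
sine function normalised by `s -> 1` at `+ i oo`.  It has the poles `-(k η + j)`, `k, j >= 0`, where
the Lean value is `0` (so that the Lean inverse is the right value of `1 / s`), and the zeros
`k η + j`, `k, j >= 1`.

`lev`: the level `c` function
`E(z, m) = prod_(j = 1 .. c) s (z + (k_j η + j) / c)`, `k_j = (m - a j) mod c`.
-/

set_option autoImplicit false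
set_option linter.unusedSectionVars false

open Filter Topology

namespace Pool.MP_d0f9e0_co.AN

/-- `e(w) = exp (2 pi i w)`. -/
noncomputable def ex (w : ℂ) : ℂ := Complex.exp (2 * Real.pi * Complex.I * w)

/-- The Bernoulli polynomial `B22(z | 1, η)`. -/
noncomputable def B22 (η : ℝ) (z : ℂ) : ℂ :=
  z ^ 2 / η - z * (1 + η) / η + (1 + η ^ 2 + 3 * η) / (6 * η)

/-- The interface of the level one function. -/
structure LS (η : ℝ) (s : ℂ → ℂ) : Prop where
  one_lt : 1 < η
  diff : DifferentiableOn ℂ s {z : ℂ | 0 < z.re}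
  diff_inv : DifferentiableOn ℂ (fun z => (s z)⁻¹) {z : ℂ | z.re < 1 + η}
  ne : ∀ z : ℂ, 0 < z.re → z.re < 1 + η → s z ≠ 0
  add_one : ∀ z : ℂ, 0 < z.re → s (z + 1) = (1 - ex (z / η)) * s z
  add_eta : ∀ z : ℂ, 0 < z.re → s (z + η) = (1 - ex z) * s z
  inv_add_one : ∀ z : ℂ, z.re < η → (s z)⁻¹ = (1 - ex (z / η)) * (s (z + 1))⁻¹
  inv_add_eta : ∀ z : ℂ, z.re < 1 → (s z)⁻¹ = (1 - ex z) * (s (z + η))⁻¹
  refl : ∀ z : ℂ, 0 < z.re → s z = Complex.exp (Real.pi * Complex.I * B22 η z) *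
    (s (1 + η - z))⁻¹
  lim_top : ∀ x1 x2 ε : ℝ, 0 < ε → ∃ Y : ℝ, ∀ z : ℂ, x1 ≤ z.re → z.re ≤ x2 → Y ≤ z.im →
    ‖s z - 1‖ ≤ ε

section Alg

variable (c : ℕ) [NeZero c]

/-- `k_j = (m - a j) mod c`. -/
def kk (a : ℤ) (m : ZMod c) (j : ℕ) : ℕ := (m - a * j : ZMod c).val

/-- The level `c` function. -/
noncomputable def lev (a : ℤ) (η : ℝ) (s : ℂ → ℂ) (z : ℂ) (m : ZMod c) : ℂ :=
  ∏ i ∈ Finset.range c, s (z + (kk c a m (i + 1) * η + (i + 1 : ℕ)) / c)

/-- `x(z, m) = e(z + d m / c)`. -/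
noncomputable def xx (d : ℤ) (z : ℂ) (m : ZMod c) : ℂ := ex z * ZMod.stdAddChar (d * m : ZMod c)

/-- `x~(z, m) = e(z / η + m / c)`. -/
noncomputable def xt (η : ℝ) (z : ℂ) (m : ZMod c) : ℂ := ex (z / η) * ZMod.stdAddChar m

/-- `e(β)`, `β = (η - d) / c`. -/
noncomputable def qq (d : ℤ) (η : ℝ) : ℂ := ex ((η - d) / c)

/-- The kernel `psi(h, y) = e(c z z_y / η - d m m_y / c)`. -/
noncomputable def psi (d : ℤ) (η : ℝ) (z : ℂ) (m : ZMod c) (w : ℂ) (n : ZMod c) : ℂ :=
  ex (c * z * w / η) * ZMod.stdAddChar (-(d * m * n) : ZMod c)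

end Alg

theorem ex_add (z w : ℂ) : ex (z + w) = ex z * ex w := by
  rw [ex, ex, ex, ← Complex.exp_add]; congr 1; ring

theorem ex_neg (z : ℂ) : ex (-z) = (ex z)⁻¹ := by
  rw [ex, ex, ← Complex.exp_neg]; congr 1; ring

theorem ex_ne (z : ℂ) : ex z ≠ 0 := Complex.exp_ne_zero _

@[simp] theorem ex_zero : ex 0 = 1 := by simp [ex]

theorem ex_int (n : ℤ) : ex n = 1 := by
  rw [ex]
  rw [Complex.exp_eq_one_iff]
  exact ⟨n, by ring⟩

theorem ex_nat (n : ℕ) : ex n = 1 := by simpa using ex_int n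

theorem ex_sub (z w : ℂ) : ex (z - w) = ex z / ex w := by
  rw [sub_eq_add_neg, ex_add, ex_neg, div_eq_mul_inv]

theorem norm_ex (z : ℂ) : ‖ex z‖ = Real.exp (-(2 * Real.pi * z.im)) := by
  rw [ex, Complex.norm_exp]
  congr 1
  simp [Complex.mul_re, Complex.mul_im]

theorem std_int (c : ℕ) [NeZero c] (j : ℤ) :
    (ZMod.stdAddChar (j : ZMod c) : ℂ) = ex (j / c) := by
  rw [ZMod.stdAddChar_coe, ex]
  congr 1
  ring

theorem std_val (c : ℕ) [NeZero c] (m : ZMod c) :
    (ZMod.stdAddChar m : ℂ) = ex (m.val / c) := by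
  have := std_int c (m.val : ℤ)
  simpa using this

theorem std_ne (c : ℕ) [NeZero c] (m : ZMod c) : (ZMod.stdAddChar m : ℂ) ≠ 0 := by
  rw [std_val]; exact ex_ne _

theorem norm_std (c : ℕ) [NeZero c] (m : ZMod c) : ‖(ZMod.stdAddChar m : ℂ)‖ = 1 := by
  rw [std_val, norm_ex]
  have : ((m.val : ℂ) / c).im = 0 := by
    have : ((m.val : ℂ) / c) = (((m.val : ℝ) / c : ℝ) : ℂ) := by push_cast; rfl
    rw [this, Complex.ofReal_im]
  rw [this]; simp

/-! ### The points -/

section Pts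

variable (c : ℕ) [NeZero c] {a d : ℤ} {η : ℝ}

theorem cpos : 0 < (c : ℝ) := by
  exact_mod_cast Nat.pos_of_ne_zero (NeZero.ne c)

/-- The point `(k_j η + j) / c`. -/
noncomputable def pt (a : ℤ) (η : ℝ) (m : ZMod c) (j : ℕ) : ℝ := (kk c a m j * η + j) / c

theorem pt_cast (m : ZMod c) (j : ℕ) :
    ((pt c a η m j : ℝ) : ℂ) = (kk c a m j * η + j) / c := by
  rw [pt]; push_cast; rfl

theorem kk_lt (m : ZMod c) (j : ℕ) : kk c a m j < c := ZMod.val_lt _

theorem pt_lower (hη : 1 < η) (m : ZMod c) {j : ℕ} (hj : 1 ≤ j) : 1 / (c : ℝ) ≤ pt c a η m j := by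
  have hc := cpos c
  rw [pt]
  have h1 : (0 : ℝ) ≤ kk c a m j * η := by positivity
  have h2 : (1 : ℝ) ≤ j := by exact_mod_cast hj
  gcongr
  linarith

theorem pt_upper (hη : 1 < η) (m : ZMod c) {j : ℕ} (hj : j ≤ c) :
    pt c a η m j ≤ 1 + η - η / c := by
  have hc := cpos c
  rw [pt, div_le_iff₀ hc]
  have h1 : (kk c a m j : ℝ) ≤ c - 1 := by
    have := kk_lt c (a := a) m j
    have h2 : kk c a m j + 1 ≤ c := this
    have h3 : ((kk c a m j + 1 : ℕ) : ℝ) ≤ c := by exact_mod_cast h2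
    push_cast at h3
    linarith
  have h2 : (j : ℝ) ≤ c := by exact_mod_cast hj
  have h3 : (kk c a m j : ℝ) * η ≤ (c - 1) * η := by
    apply mul_le_mul_of_nonneg_right h1; linarith
  have h4 : (1 + η - η / c) * c = c + η * c - η := by
    field_simp
  rw [h4]
  nlinarith

theorem lev_eq (s : ℂ → ℂ) (z : ℂ) (m : ZMod c) :
    lev c a η s z m = ∏ i ∈ Finset.range c, s (z + (pt c a η m (i + 1) : ℝ)) := by
  rw [lev]
  refine Finset.prod_congr rfl fun i _ => ?_
  rw [pt_cast]

theorem kk_sub_a (m : ZMod c) (j : ℕ) : kk c a (m - a) j = kk c a m (j + 1) := by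
  rw [kk, kk]
  congr 1
  push_cast
  ring

theorem kk_add_c (m : ZMod c) (j : ℕ) : kk c a m (j + c) = kk c a m j := by
  rw [kk, kk]
  congr 1
  push_cast
  simp

end Pts

/-! ### The two equations -/

section Eqs

variable {c : ℕ} [NeZero c] {a d : ℤ} {η : ℝ} {s : ℂ → ℂ}

theorem xt_div_qq (hη : 1 < η) (had : η + 1 / η = a + d) (z : ℂ) (m : ZMod c) :
    xt c η z m / qq c d η = ex ((z + (pt c a η m 1 : ℝ)) / η) := by
  have hη0 : (η : ℂ) ≠ 0 := by
    have : η ≠ 0 := by linarith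
    exact_mod_cast this
  have hc0 : (c : ℂ) ≠ 0 := by exact_mod_cast NeZero.ne c
  have h1 : ((kk c a m 1 : ℂ) / c) = ((kk c a m 1 : ℕ) : ℂ) / c := rfl
  have h2 : (ZMod.stdAddChar m : ℂ) =
      ZMod.stdAddChar ((a : ℤ) : ZMod c) * ex (kk c a m 1 / c) := by
    rw [kk, ← std_val, ← AddChar.map_add_eq_mul]
    congr 1
    push_cast
    ring
  rw [xt, qq, h2, std_int, ← ex_add, ← ex_add, ← ex_sub, pt_cast]
  congr 1
  have h3 : (1 : ℂ) / η = a + d - η := by
    have : (1 : ℝ) / η = a + d - η := by linarith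
    have h4 := congrArg (fun t : ℝ => (t : ℂ)) this
    push_cast at h4
    exact h4
  have h5 : (z + (kk c a m 1 * η + (1 : ℕ)) / c) / η =
      z / η + kk c a m 1 / c + (1 / η) / c := by
    field_simp
    push_cast
    ring
  rw [h5, h3]
  ring

/-- A product over `1, .., c` is a product over `ZMod c`. -/
theorem prod_range_zmod {M : Type*} [CommMonoid M] (f : ZMod c → M) :
    ∏ i ∈ Finset.range c, f ((i + 1 : ℕ) : ZMod c) = ∏ u : ZMod c, f u := by
  refine Finset.prod_bij (fun i _ => ((i + 1 : ℕ) : ZMod c)) (fun _ _ => Finset.mem_univ _)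
    ?_ ?_ (fun _ _ => rfl)
  · intro i hi j hj h
    rw [Finset.mem_range] at hi hj
    rw [ZMod.natCast_eq_natCast_iff] at h
    have h2 : i ≡ j [MOD c] := Nat.ModEq.add_right_cancel' 1 h
    exact Nat.ModEq.eq_of_lt_of_lt h2 hi hj
  · intro u _
    refine ⟨(u - 1).val, Finset.mem_range.2 (ZMod.val_lt _), ?_⟩
    push_cast
    rw [ZMod.natCast_zmod_val]
    ring

/-- The first equation. -/
theorem LS.lev_s1 (h : LS η s) (had : η + 1 / η = a + d) {z : ℂ} (hz : -(1 / c : ℝ) < z.re)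
    (m : ZMod c) :
    lev c a η s (z + 1 / c) (m - a) = (1 - xt c η z m / qq c d η) * lev c a η s z m := by
  have hc0 : (c : ℂ) ≠ 0 := by exact_mod_cast NeZero.ne c
  obtain ⟨n, rfl⟩ : ∃ n, c = n + 1 := Nat.exists_eq_succ_of_ne_zero (NeZero.ne c)
  set F : ℕ → ℂ := fun j => s (z + (pt (n + 1) a η m j : ℝ)) with hF
  have e1 : lev (n + 1) a η s (z + 1 / (n + 1 : ℕ)) (m - a) =
      ∏ i ∈ Finset.range (n + 1), F (i + 1 + 1) := by
    rw [lev]
    refine Finset.prod_congr rfl fun i _ => ?_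
    rw [hF]
    simp only
    rw [pt_cast, kk_sub_a]
    congr 1
    push_cast
    ring
  have e2 : lev (n + 1) a η s z m = ∏ i ∈ Finset.range (n + 1), F (i + 1) := lev_eq _ _ _ _
  have e3 : F (n + 1 + 1) = (1 - xt (n + 1) η z m / qq (n + 1) d η) * F 1 := by
    rw [hF]
    simp only
    have h1 : pt (n + 1) a η m (n + 1 + 1) = pt (n + 1) a η m 1 + 1 := by
      rw [pt, pt, show n + 1 + 1 = 1 + (n + 1) by ring, kk_add_c]
      have hc1 : ((n + 1 : ℕ) : ℝ) ≠ 0 := by exact_mod_cast NeZero.ne (n + 1)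
      field_simp
      push_cast
      ring
    rw [h1]
    have h2 : z + ((pt (n + 1) a η m 1 + 1 : ℝ) : ℂ) = z + (pt (n + 1) a η m 1 : ℝ) + 1 := by
      push_cast; ring
    rw [h2, h.add_one, xt_div_qq h.one_lt had]
    have := pt_lower (n + 1) (a := a) h.one_lt m (le_refl 1)
    simp only [Complex.add_re, Complex.ofReal_re]
    linarith
  rw [e1, e2, Finset.prod_range_succ, e3, Finset.prod_range_succ' (fun i => F (i + 1))]
  ring

theorem kk_eq_zero (hd : (a * d : ℤ) = (1 : ZMod c)) (m : ZMod c) (j : ℕ) :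
    kk c a m j = 0 ↔ (j : ZMod c) = d * m := by
  rw [kk, ZMod.val_eq_zero, sub_eq_zero]
  have h1 : (a : ZMod c) * d = 1 := by
    rw [← hd]; push_cast; ring
  constructor
  · intro h2
    rw [h2]
    linear_combination (-(j : ZMod c)) * h1
  · intro h2
    rw [h2]
    linear_combination (-m) * h1

theorem kk_sub_one_of_ne (m : ZMod c) {j : ℕ} (h : kk c a m j ≠ 0) :
    kk c a (m - 1) j + 1 = kk c a m j := by
  have hc := NeZero.ne c
  have h1 : (m - 1 - a * j : ZMod c) = ((kk c a m j - 1 : ℕ) : ZMod c) := by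
    rw [Nat.cast_sub (Nat.one_le_iff_ne_zero.2 h), kk, ZMod.natCast_zmod_val]
    push_cast
    ring
  rw [kk, h1, ZMod.val_natCast, Nat.mod_eq_of_lt]
  · omega
  · have := kk_lt c (a := a) m j
    omega

theorem kk_sub_one_of_eq (m : ZMod c) {j : ℕ} (h : kk c a m j = 0) :
    kk c a (m - 1) j + 1 = c := by
  have hc := NeZero.ne c
  have h0 : (m - a * j : ZMod c) = 0 := by rwa [kk, ZMod.val_eq_zero] at h
  have h1 : (m - 1 - a * j : ZMod c) = ((c - 1 : ℕ) : ZMod c) := by
    rw [Nat.cast_sub (Nat.one_le_iff_ne_zero.2 hc)]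
    simp only [CharP.cast_eq_zero, Nat.cast_one]
    linear_combination h0
  rw [kk, h1, ZMod.val_natCast, Nat.mod_eq_of_lt]
  · omega
  · omega

/-- The second equation. -/
theorem LS.lev_s2 (h : LS η s) (hd : (a * d : ℤ) = (1 : ZMod c)) {z : ℂ}
    (hz : -(1 / c : ℝ) < z.re) (m : ZMod c) :
    lev c a η s (z + η / c) (m - 1) = (1 - xx c d z m) * lev c a η s z m := by
  have hc0 : (c : ℂ) ≠ 0 := by exact_mod_cast NeZero.ne c
  have e1 : lev c a η s (z + η / c) (m - 1) = ∏ i ∈ Finset.range c,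
      ((if ((i + 1 : ℕ) : ZMod c) = d * m then (1 - xx c d z m) else 1) *
        s (z + (pt c a η m (i + 1) : ℝ))) := by
    rw [lev]
    refine Finset.prod_congr rfl fun i _ => ?_
    split_ifs with h1
    · have h2 := (kk_eq_zero hd m (i + 1)).2 h1
      have h3 := kk_sub_one_of_eq m h2
      have h4 : ((kk c a (m - 1) (i + 1) : ℕ) : ℂ) = c - 1 := by
        have := congrArg (fun t : ℕ => (t : ℂ)) h3
        push_cast at this
        linear_combination this
      have h5 : z + η / c + (kk c a (m - 1) (i + 1) * η + (i + 1 : ℕ)) / c =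
          z + (pt c a η m (i + 1) : ℝ) + η := by
        rw [pt_cast, h4, h2]
        field_simp
        push_cast
        ring
      rw [h5, h.add_eta]
      · congr 2
        rw [pt_cast, h2, xx, ex_add]
        congr 1
        rw [← h1]
        have := std_int c ((i + 1 : ℕ) : ℤ)
        push_cast at this ⊢
        rw [this]
        congr 1
        ring
      · have := pt_lower c (a := a) h.one_lt m (Nat.le_add_left 1 i)
        simp only [Complex.add_re, Complex.ofReal_re]
        linarith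
    · have h2 : kk c a m (i + 1) ≠ 0 := fun h3 => h1 ((kk_eq_zero hd m (i + 1)).1 h3)
      have h3 := kk_sub_one_of_ne m h2
      have h4 : ((kk c a (m - 1) (i + 1) : ℕ) : ℂ) = kk c a m (i + 1) - 1 := by
        have := congrArg (fun t : ℕ => (t : ℂ)) h3
        push_cast at this
        linear_combination this
      rw [one_mul]
      congr 1
      rw [pt_cast, h4]
      ring
  rw [e1, Finset.prod_mul_distrib, ← lev_eq]
  congr 1
  have := prod_range_zmod (c := c) (fun u => if u = d * m then (1 - xx c d z m) else 1)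
  rw [this, Finset.prod_ite_eq']
  simp

/-- The first equation for the inverse. -/
theorem LS.lev_inv_s1 (h : LS η s) (had : η + 1 / η = a + d) {z : ℂ} (hz : z.re < (η - 1) / c)
    (m : ZMod c) :
    (lev c a η s z m)⁻¹ =
      (1 - xt c η z m / qq c d η) * (lev c a η s (z + 1 / c) (m - a))⁻¹ := by
  have hc0 : (c : ℂ) ≠ 0 := by exact_mod_cast NeZero.ne c
  obtain ⟨n, rfl⟩ : ∃ n, c = n + 1 := Nat.exists_eq_succ_of_ne_zero (NeZero.ne c)
  set F : ℕ → ℂ := fun j => (s (z + (pt (n + 1) a η m j : ℝ)))⁻¹ with hF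
  have e1 : (lev (n + 1) a η s (z + 1 / (n + 1 : ℕ)) (m - a))⁻¹ =
      ∏ i ∈ Finset.range (n + 1), F (i + 1 + 1) := by
    rw [lev, ← Finset.prod_inv_distrib]
    refine Finset.prod_congr rfl fun i _ => ?_
    rw [hF]
    simp only
    rw [pt_cast, kk_sub_a]
    congr 2
    push_cast
    ring
  have e2 : (lev (n + 1) a η s z m)⁻¹ = ∏ i ∈ Finset.range (n + 1), F (i + 1) := by
    rw [lev_eq, ← Finset.prod_inv_distrib]
  have e3 : F 1 = (1 - xt (n + 1) η z m / qq (n + 1) d η) * F (n + 1 + 1) := by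
    rw [hF]
    simp only
    have h1 : pt (n + 1) a η m (n + 1 + 1) = pt (n + 1) a η m 1 + 1 := by
      rw [pt, pt, show n + 1 + 1 = 1 + (n + 1) by ring, kk_add_c]
      have hc1 : ((n + 1 : ℕ) : ℝ) ≠ 0 := by exact_mod_cast NeZero.ne (n + 1)
      field_simp
      push_cast
      ring
    rw [h1]
    have h2 : z + ((pt (n + 1) a η m 1 + 1 : ℝ) : ℂ) = z + (pt (n + 1) a η m 1 : ℝ) + 1 := by
      push_cast; ring
    rw [h2, h.inv_add_one, xt_div_qq h.one_lt had]
    have hcp := cpos (n + 1)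
    have h3 : pt (n + 1) a η m 1 ≤ η - η / (n + 1 : ℕ) + 1 / (n + 1 : ℕ) := by
      rw [pt]
      have h4 : (kk (n + 1) a m 1 : ℝ) ≤ (n + 1 : ℕ) - 1 := by
        have := kk_lt (n + 1) (a := a) m 1
        have h2 : kk (n + 1) a m 1 + 1 ≤ n + 1 := this
        have h3 : ((kk (n + 1) a m 1 + 1 : ℕ) : ℝ) ≤ (n + 1 : ℕ) := by exact_mod_cast h2
        push_cast at h3 ⊢
        linarith
      have h5 : (kk (n + 1) a m 1 : ℝ) * η ≤ ((n + 1 : ℕ) - 1) * η := by
        apply mul_le_mul_of_nonneg_right h4; linarith [h.one_lt]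
      rw [div_le_iff₀ hcp]
      have h6 : (η - η / (n + 1 : ℕ) + 1 / (n + 1 : ℕ)) * (n + 1 : ℕ) =
          η * (n + 1 : ℕ) - η + 1 := by
        field_simp
      rw [h6]
      push_cast at h5 ⊢
      linarith
    simp only [Complex.add_re, Complex.ofReal_re]
    have h7 : (η - 1) / (n + 1 : ℕ) = η / (n + 1 : ℕ) - 1 / (n + 1 : ℕ) := by ring
    rw [h7] at hz
    linarith
  rw [e1, e2, Finset.prod_range_succ (fun i => F (i + 1 + 1)), Finset.prod_range_succ' _ n, e3]
  ring

/-- The second equation for the inverse. -/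
theorem LS.lev_inv_s2 (h : LS η s) (hd : (a * d : ℤ) = (1 : ZMod c)) {z : ℂ}
    (hz : z.re < 0) (m : ZMod c) :
    (lev c a η s z m)⁻¹ = (1 - xx c d z m) * (lev c a η s (z + η / c) (m - 1))⁻¹ := by
  have hc0 : (c : ℂ) ≠ 0 := by exact_mod_cast NeZero.ne c
  have hcp := cpos c
  have e1 : (lev c a η s z m)⁻¹ = ∏ i ∈ Finset.range c,
      ((if ((i + 1 : ℕ) : ZMod c) = d * m then (1 - xx c d z m) else 1) *
        (s (z + η / c + (kk c a (m - 1) (i + 1) * η + (i + 1 : ℕ)) / c))⁻¹) := by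
    rw [lev_eq, ← Finset.prod_inv_distrib]
    refine Finset.prod_congr rfl fun i hi => ?_
    split_ifs with h1
    · have h2 := (kk_eq_zero hd m (i + 1)).2 h1
      have h3 := kk_sub_one_of_eq m h2
      have h4 : ((kk c a (m - 1) (i + 1) : ℕ) : ℂ) = c - 1 := by
        have := congrArg (fun t : ℕ => (t : ℂ)) h3
        push_cast at this
        linear_combination this
      have h5 : z + η / c + (kk c a (m - 1) (i + 1) * η + (i + 1 : ℕ)) / c =
          z + (pt c a η m (i + 1) : ℝ) + η := by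
        rw [pt_cast, h4, h2]
        field_simp
        push_cast
        ring
      rw [h5, h.inv_add_eta]
      · congr 2
        rw [pt_cast, h2, xx, ex_add]
        congr 1
        rw [← h1]
        have := std_int c ((i + 1 : ℕ) : ℤ)
        push_cast at this ⊢
        rw [this]
        congr 1
        ring
      · have h6 : pt c a η m (i + 1) ≤ 1 := by
          rw [pt, h2, div_le_one hcp]
          have : i + 1 ≤ c := Finset.mem_range.1 hi
          have h8 : ((i + 1 : ℕ) : ℝ) ≤ c := by exact_mod_cast this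
          push_cast at h8 ⊢
          linarith
        simp only [Complex.add_re, Complex.ofReal_re]
        linarith
    · have h2 : kk c a m (i + 1) ≠ 0 := fun h3 => h1 ((kk_eq_zero hd m (i + 1)).1 h3)
      have h3 := kk_sub_one_of_ne m h2
      have h4 : ((kk c a (m - 1) (i + 1) : ℕ) : ℂ) = kk c a m (i + 1) - 1 := by
        have := congrArg (fun t : ℕ => (t : ℂ)) h3
        push_cast at this
        linear_combination this
      rw [one_mul]
      congr 2
      rw [pt_cast, h4]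
      ring
  rw [e1, Finset.prod_mul_distrib, lev, ← Finset.prod_inv_distrib]
  congr 1
  have := prod_range_zmod (c := c) (fun u => if u = d * m then (1 - xx c d z m) else 1)
  rw [this, Finset.prod_ite_eq']
  simp

/-! ### Holomorphy, no zeros -/

theorem LS.lev_diff (h : LS η s) (m : ZMod c) :
    DifferentiableOn ℂ (fun z => lev c a η s z m) {z : ℂ | -(1 / c : ℝ) < z.re} := by
  have e : (fun z => lev c a η s z m) =
      fun z => ∏ i ∈ Finset.range c, s (z + (pt c a η m (i + 1) : ℝ)) := by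
    funext z; exact lev_eq _ _ _ _
  rw [e]
  refine DifferentiableOn.fun_finsetProd fun i _ => ?_
  refine h.diff.comp ((differentiable_id.add_const _).differentiableOn) ?_
  intro z hz
  have h1 := pt_lower c (a := a) h.one_lt m (Nat.le_add_left 1 i)
  have h2 : -(1 / c : ℝ) < z.re := hz
  show 0 < (z + (pt c a η m (i + 1) : ℝ)).re
  simp only [Complex.add_re, Complex.ofReal_re]
  linarith

theorem LS.lev_diff_inv (h : LS η s) (m : ZMod c) :
    DifferentiableOn ℂ (fun z => (lev c a η s z m)⁻¹) {z : ℂ | z.re < η / c} := by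
  have e : (fun z => (lev c a η s z m)⁻¹) =
      fun z => ∏ i ∈ Finset.range c, (s (z + (pt c a η m (i + 1) : ℝ)))⁻¹ := by
    funext z; rw [lev_eq, Finset.prod_inv_distrib]
  rw [e]
  refine DifferentiableOn.fun_finsetProd fun i hi => ?_
  refine DifferentiableOn.comp (g := fun z => (s z)⁻¹)
    (f := fun z => z + ((pt c a η m (i + 1) : ℝ) : ℂ)) h.diff_inv
    ((differentiable_id.add_const _).differentiableOn) ?_
  intro z hz
  have h1 := pt_upper c (a := a) h.one_lt m (j := i + 1) (Finset.mem_range.1 hi)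
  have h2 : z.re < η / c := hz
  show (z + (pt c a η m (i + 1) : ℝ)).re < 1 + η
  simp only [Complex.add_re, Complex.ofReal_re]
  linarith

theorem LS.lev_ne (h : LS η s) {z : ℂ} (h1 : -(1 / c : ℝ) < z.re) (h2 : z.re < η / c)
    (m : ZMod c) : lev c a η s z m ≠ 0 := by
  rw [lev_eq, Finset.prod_ne_zero_iff]
  intro i hi
  have h3 := pt_lower c (a := a) h.one_lt m (Nat.le_add_left 1 i)
  have h4 := pt_upper c (a := a) h.one_lt m (j := i + 1) (Finset.mem_range.1 hi)
  refine h.ne _ ?_ ?_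
  · simp only [Complex.add_re, Complex.ofReal_re]; linarith
  · simp only [Complex.add_re, Complex.ofReal_re]; linarith

end Eqs

end Pool.MP_d0f9e0_co.AN
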