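import Pool.Agent.Lib.MP_d0f9e0_co.AN9.Limits

/-!
# THEOREM S: the finite sum as a level `c` beta integral (helper60, row R5 of note 9463)

`f(h) = E(h) / E(h - p) ψ(h, y)`, `φ = f / (1 - e(X - X~))`, `v = ((η - 1)/c, a - 1)`:
`φ(h + v) - φ(h) = (1 - 1/P) F(h)` with the integrand `F` of the level `c` beta integral.
-/

set_option autoImplicit false

open Complex MeasureTheory Filter Topology Set

namespace Pool.Agent.Lib.MP_d0f9e0_co.AN

open Pool.MP_d0f9e0_co.CS
open Pool.MP_d0f9e0_co.AN9 (kq fS SF Bd poleSet Lim)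

variable {c : ℕ} {a d : ℤ} {η : ℝ} {E : ℂ → ℤ → ℂ}

theorem cpos (h : LC c a d η E) : (0 : ℝ) < c := by exact_mod_cast h.c_pos

theorem ee_add_eq {z w : ℂ} {n : ℤ} (h : w = z + n) : ee w = ee z := by
  rw [h, ee_add_int]

theorem ee_sub' (z w : ℂ) : ee (z - w) = ee z / ee w := by
  rw [eq_div_iff (Pool.MP_d0f9e0_co.AN9.ee_ne w), ← ee_add]; congr 1; ring

/-! ### Periodicity in `m` -/

theorem Rinv_per (h : LC c a d η E) (z : ℂ) (m : ℤ) :
    Rinv E η c d z (m + c) = Rinv E η c d z m := by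
  have hc : (c : ℂ) ≠ 0 := by exact_mod_cast (cpos h).ne'
  unfold Rinv
  have e1 : ee (z + d * ((m + c : ℤ) : ℂ) / c) = ee (z + d * m / c) := by
    refine ee_add_eq (n := d) ?_
    push_cast
    field_simp
    ring
  rw [h.per, e1, show m + (c : ℤ) - 1 = m - 1 + c by ring, h.per]

theorem psi_per (hc : (c : ℂ) ≠ 0) (z : ℂ) (m : ℤ) (w : ℂ) (k : ℤ) :
    psi η c d z (m + c) w k = psi η c d z m w k := by
  unfold psi
  refine ee_add_eq (n := -(d * k)) ?_
  push_cast
  field_simp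
  ring

theorem fS_per (h : LC c a d η E) {zp zy : ℝ} {mp my : ℤ} (m : ℤ) (z : ℂ) :
    fS E η c d zp mp zy my (m + c) z = fS E η c d zp mp zy my m z := by
  have hc : (c : ℂ) ≠ 0 := by exact_mod_cast (cpos h).ne'
  unfold fS
  rw [h.per, psi_per hc, show m + (c : ℤ) - mp = m - mp + c by ring, Rinv_per h]

theorem kqS_per (h : LC c a d η E) {zp zy : ℝ} {mp my : ℤ} (κ : ℝ) (m : ℤ) (z : ℂ) :
    kq (fS E η c d zp mp zy my (m + c)) κ ((d - 1) * ((m + c : ℤ) : ℝ) / c) z =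
      kq (fS E η c d zp mp zy my m) κ ((d - 1) * (m : ℝ) / c) z := by
  have hc : (c : ℂ) ≠ 0 := by exact_mod_cast (cpos h).ne'
  unfold kq
  rw [fS_per h]
  congr 2
  refine ee_add_eq (n := d - 1) ?_
  push_cast
  field_simp
  ring

theorem kqS_congr (h : LC c a d η E) {zp zy : ℝ} {mp my : ℤ} (κ : ℝ) {m m' : ℤ}
    (hm : (c : ℤ) ∣ m' - m) (z : ℂ) :
    kq (fS E η c d zp mp zy my m') κ ((d - 1) * (m' : ℝ) / c) z =
      kq (fS E η c d zp mp zy my m) κ ((d - 1) * (m : ℝ) / c) z := by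
  have h1 : Function.Periodic (fun m : ℤ =>
      kq (fS E η c d zp mp zy my m) κ ((d - 1) * (m : ℝ) / c) z) (c : ℤ) := by
    intro m
    exact kqS_per h κ m z
  obtain ⟨k, hk⟩ := hm
  have h3 : m + k * (c : ℤ) = m' := by rw [mul_comm, ← hk]; ring
  have h2 := h1.int_mul k m
  simp only [Int.cast_id] at h2
  rw [h3] at h2
  exact h2

/-! ### The shift identity -/

theorem re_ofReal_add (z : ℂ) (r : ℝ) : (z + r).re = z.re + r := by simp

theorem P_eq {zp : ℝ} {mp Np : ℤ}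
    (hzp : zp * (1 - 1 / η) + (d - 1) * mp / c = Np) :
    ee ((zp : ℂ) + d * mp / c) = ee ((zp : ℂ) / η + mp / c) := by
  refine ee_add_eq (n := Np) ?_
  have h1 := congrArg (fun x : ℝ => (x : ℂ)) hzp
  push_cast at h1
  rw [← h1]
  ring

/-- `φ(h + v) - φ(h) = (1 - 1/P) F(h)`. -/
theorem LC.kq_shift (h : LC c a d η E) (htr : η + 1 / η = a + d) {zp zy : ℝ}
    {mp my Np Ny : ℤ} (hzp : zp * (1 - 1 / η) + (d - 1) * mp / c = Np)
    (hzy : zy * (1 - 1 / η) + (d - 1) * my / c = Ny) (hp1 : zp < (η - 1) / c) {z : ℂ}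
    (hz0 : 0 < z.re) (hz1 : z.re < 1 / c) (hz2 : z.re < zp) (m : ℤ) :
    kq (fS E η c d zp mp zy my (m + (a - 1))) (1 - 1 / η)
        ((d - 1) * ((m + (a - 1) : ℤ) : ℝ) / c) (z + ((η - 1) / c : ℝ)) -
      kq (fS E η c d zp mp zy my m) (1 - 1 / η) ((d - 1) * (m : ℝ) / c) z =
      (1 - 1 / ee ((zp : ℂ) + d * mp / c)) * FF E η c a d zp mp zy my z m := by
  have hc := cpos h
  have hη := h.one_lt
  have hη0 : η ≠ 0 := by linarith
  have hcC : (c : ℂ) ≠ 0 := by exact_mod_cast hc.ne'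
  have hηC : (η : ℂ) ≠ 0 := by exact_mod_cast hη0
  have hηc : 0 < η / c := by positivity
  have hηc1 : 0 < (η - 1) / c := div_pos (by linarith) hc
  have e0 : (η - 1) / (c : ℝ) = η / c - 1 / c := by ring
  have e2 : -1 / (c : ℝ) = -(1 / c) := by ring
  obtain ⟨q, hq⟩ := h.inv
  have hqC : (a : ℂ) * d - 1 = c * q := by exact_mod_cast congrArg (fun x : ℤ => (x : ℂ)) hq
  have htrC : (η : ℂ) + 1 / η = a + d := by exact_mod_cast congrArg (fun x : ℝ => (x : ℂ)) htr
  have hre1 : (z - 1 / c).re = z.re - 1 / c := by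
    rw [sub_re, show (1 : ℂ) / c = ((1 / c : ℝ) : ℂ) by push_cast; ring, ofReal_re]
  -- (1)
  have h1 : E z m = (1 - ee (z / η + m / c)) * E (z - 1 / c) (m + a) := by
    have h1' := h.s1 (z - 1 / c) (m + a) (by rw [hre1, e2]; linarith)
      (by rw [hre1, e0]; linarith)
    rw [sub_add_cancel, add_sub_cancel_right] at h1'
    rw [h1']
    congr 2
    congr 1
    push_cast
    field_simp
    ring
  -- (2)
  have h2 : E (z + ((η - 1) / c : ℝ)) (m + (a - 1)) =
      (1 - ee (z + d * m / c)) * E (z - 1 / c) (m + a) := by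
    have h2' := h.s2 (z - 1 / c) (m + a) (by rw [hre1, e2]; linarith)
      (by rw [hre1]; linarith)
    rw [show z - 1 / c + η / c = z + ((η - 1) / c : ℝ) by push_cast; ring,
      show m + a - 1 = m + (a - 1) by ring] at h2'
    rw [h2']
    congr 2
    refine ee_add_eq (n := q) ?_
    have : (q : ℂ) = (a * d - 1) / c := by rw [hqC]; field_simp
    rw [this]
    push_cast
    field_simp
    ring
  set E1 := E (z - 1 / c) (m + a) with hE1
  -- (3)
  have hre3 : (z - zp).re = z.re - zp := by rw [sub_re, ofReal_re]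
  have h3 : Rinv E η c d (z - zp) (m - mp) =
      (1 - ee (z + d * m / c) / ee ((zp : ℂ) + d * mp / c)) / E (z - zp + η / c) (m - mp - 1) := by
    rw [Pool.MP_d0f9e0_co.AN9.Rinv_eq2 (by rw [hre3]; linarith), ← ee_sub']
    congr 3
    push_cast
    ring
  -- (4)
  set w : ℂ := z + ((η - 1) / c : ℝ) - zp with hw
  have hwre : w.re = z.re + (η - 1) / c - zp := by
    rw [hw, sub_re, re_ofReal_add, ofReal_re]
  have h4 : Rinv E η c d w (m + (a - 1) - mp) =
      (1 - ee (z / η + m / c) / ee ((zp : ℂ) + d * mp / c)) / E (z - zp + η / c) (m - mp - 1) := by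
    have h4' := h.s1 w (m + (a - 1) - mp) (by rw [hwre, e2]; linarith) (by rw [hwre]; linarith)
    rw [Pool.MP_d0f9e0_co.AN9.Rinv_eq1 h (by rw [hwre, e2]; linarith)]
    rw [show w + 1 / c = z - zp + η / c by rw [hw]; push_cast; ring,
      show m + (a - 1) - mp - a = m - mp - 1 by ring,
      show w / η + 1 / (c * η) + ((m + (a - 1) - mp : ℤ) - (a : ℂ)) / c =
        (z / η + m / c) - (zp / η + mp / c) by
          rw [hw]; push_cast; field_simp; ring, ee_sub'] at h4'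
    have hn1 : E w (m + (a - 1) - mp) ≠ 0 :=
      h.ne _ _ (by rw [hwre, e2]; linarith) (by rw [hwre]; linarith)
    have hn2 : E (z - zp + η / c) (m - mp - 1) ≠ 0 := by
      have hre4 : (z - zp + η / c : ℂ).re = z.re - zp + η / c := by
        rw [add_re, hre3, show (η : ℂ) / c = ((η / c : ℝ) : ℂ) by push_cast; ring, ofReal_re]
      exact h.ne _ _ (by rw [hre4, e2]; linarith) (by rw [hre4]; linarith)
    rw [P_eq hzp]
    rw [h4'] at hn2 ⊢
    have hn3 := left_ne_zero_of_mul hn2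
    rw [div_mul_eq_div_div, div_self hn3]
  -- (5)
  have h5 : psi η c d (z + ((η - 1) / c : ℝ)) (m + (a - 1)) zy my = psi η c d z m zy my := by
    unfold psi
    refine ee_add_eq (n := Ny - q * my) ?_
    have h1 := congrArg (fun x : ℝ => (x : ℂ)) hzy
    push_cast at h1
    have h2 : (q : ℂ) = (a * d - 1) / c := by rw [hqC]; field_simp
    push_cast
    rw [← h1, h2]
    field_simp
    ring
  -- (6)
  have h6 : ee (((1 - 1 / η : ℝ) : ℂ) * (z + ((η - 1) / c : ℝ)) +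
      (((d - 1) * ((m + (a - 1) : ℤ) : ℝ) / c : ℝ) : ℂ)) =
      ee (z + d * m / c) / ee (z / η + m / c) := by
    rw [← ee_sub']
    refine ee_add_eq (n := q) ?_
    have h2 : (q : ℂ) = (a * d - 1) / c := by rw [hqC]; field_simp
    rw [h2]
    have h7 : (η : ℂ) ^ 2 + 1 = (a + d) * η := by
      rw [← htrC]; field_simp
    push_cast
    field_simp
    linear_combination h7
  have h7 : ee (((1 - 1 / η : ℝ) : ℂ) * z + (((d - 1) * (m : ℝ) / c : ℝ) : ℂ)) =
      ee (z + d * m / c) / ee (z / η + m / c) := by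
    rw [← ee_sub']
    congr 1
    push_cast
    ring
  -- (7) the denominator does not vanish
  have hxt := Pool.MP_d0f9e0_co.AN9.ee_ne (z / η + m / c)
  have hP := Pool.MP_d0f9e0_co.AN9.ee_ne ((zp : ℂ) + d * mp / c)
  have h8 : ee (z / η + m / c) - ee (z + d * m / c) ≠ 0 := by
    intro h9
    have h10 : ee (((1 - 1 / η : ℝ) : ℂ) * z + (((d - 1) * (m : ℝ) / c : ℝ) : ℂ)) = 1 := by
      rw [h7, div_eq_one_iff_eq hxt]
      exact (sub_eq_zero.1 h9).symm
    obtain ⟨k, hk⟩ := ee_eq_one h10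
    have h11 := congrArg Complex.re hk
    rw [add_re, re_ofReal_mul, ofReal_re, intCast_re] at h11
    have h12 : c * (1 - 1 / η) * z.re = ((c * k - (d - 1) * m : ℤ) : ℝ) := by
      push_cast
      rw [← h11]
      field_simp
      ring
    have h13 : 0 < 1 - 1 / η := by
      rw [sub_pos, div_lt_one (by linarith)]; exact hη
    have h14 : 0 < c * (1 - 1 / η) * z.re := by positivity
    have h15 : c * (1 - 1 / η) * z.re < 1 := by
      have h16 : c * z.re < 1 := by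
        rw [lt_div_iff₀ hc] at hz1; linarith
      have h17 : 1 - 1 / η < 1 := by
        have : 0 < 1 / η := by positivity
        linarith
      have h18 : 0 < c * z.re := by positivity
      nlinarith
    rw [h12] at h14 h15
    have h19 : (0 : ℤ) < c * k - (d - 1) * m := by exact_mod_cast h14
    have h20 : (c * k - (d - 1) * m : ℤ) < 1 := by exact_mod_cast h15
    omega
  unfold kq fS FF
  rw [h6, h7, h2, h1, h3, ← hw, h4, h5]
  set x := ee (z + d * m / c)
  set xt := ee (z / η + m / c)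
  set P := ee ((zp : ℂ) + d * mp / c)
  set E2 := E (z - zp + η / c) (m - mp - 1)
  have h9 : 1 - x / xt ≠ 0 := by
    rw [one_sub_div hxt]; exact div_ne_zero h8 hxt
  rw [← hE1, ← sub_div, div_eq_iff h9]
  have h10 : (1 - x) * E1 * ((1 - xt / P) / E2) * psi η c d z m zy my -
      (1 - xt) * E1 * ((1 - x / P) / E2) * psi η c d z m zy my =
      ((1 - x) * (1 - xt / P) - (1 - xt) * (1 - x / P)) * (E1 / E2 * psi η c d z m zy my) := by
    ring
  rw [h10]
  have h11 : (1 - x) * (1 - xt / P) - (1 - xt) * (1 - x / P) =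
      (1 - 1 / P) * xt * (1 - x / xt) := by
    field_simp
    ring
  rw [h11]
  ring

/-! ### Integrability of `F` on the line -/

theorem top_bd {φ : ℂ → ℂ} {x0 : ℝ} (h : Bd φ (SF x0 x0 1)) :
    ∃ C Y : ℝ, ∀ t : ℝ, Y ≤ t → ‖φ (x0 + t * I)‖ ≤ C := by
  obtain ⟨C, hC⟩ := h
  obtain ⟨Y, hY⟩ := Pool.MP_d0f9e0_co.AN9.SF_basis.1 hC
  refine ⟨C, Y, fun t ht => hY _ ?_ ?_ ?_⟩
  · simp
  · simp
  · simpa using ht

theorem bot_bd {φ : ℂ → ℂ} {x0 : ℝ} (h : Bd φ (SF x0 x0 (-1))) :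
    ∃ C Y : ℝ, ∀ t : ℝ, t ≤ -Y → ‖φ (x0 + t * I)‖ ≤ C := by
  obtain ⟨C, hC⟩ := h
  obtain ⟨Y, hY⟩ := Pool.MP_d0f9e0_co.AN9.SF_basis.1 hC
  refine ⟨C, Y, fun t ht => hY _ ?_ ?_ ?_⟩
  · simp
  · simp
  · simp; linarith

theorem norm_ee_line {κ x0 t : ℝ} (b : ℂ) : ‖ee (κ * (x0 + t * I) + b)‖ =
    Real.exp (-(2 * Real.pi * b.im)) * Real.exp (-(2 * Real.pi * κ) * t) := by
  rw [Pool.MP_d0f9e0_co.AN9.ee_norm, ← Real.exp_add]
  congr 1
  simp [Complex.add_im, Complex.mul_im]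
  ring

theorem alg1 {A B Q e3 e1 : ℂ} (hQ : Q ≠ 0) (he : e3 ≠ 0) :
    A * B⁻¹ * e1 = A / (Q * e3) * (Q / B) * (e3 * e1) := by
  rw [div_eq_mul_inv, div_eq_mul_inv, mul_inv]
  have h1 := mul_inv_cancel₀ hQ
  have h2 := mul_inv_cancel₀ he
  calc A * B⁻¹ * e1 = A * B⁻¹ * e1 * 1 * 1 := by ring
    _ = A * B⁻¹ * e1 * (Q * Q⁻¹) * (e3 * e3⁻¹) := by rw [h1, h2]
    _ = _ := by ring

theorem LC.FF_integrable (h : LC c a d η E) {zp zy : ℝ} {mp my : ℤ} {x0 : ℝ}
    (hx0 : 0 < x0) (hx1 : x0 < 1 / c) (hx2 : x0 < zp) (hzy : 0 ≤ zy)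
    (hpy : zp + zy < η / c) (m : ℤ) :
    Integrable fun t : ℝ => FF E η c a d zp mp zy my (x0 + t * I) m := by
  have hc := cpos h
  have hη := h.one_lt
  have hη0 : η ≠ 0 := by linarith
  have hcC : (c : ℂ) ≠ 0 := by exact_mod_cast hc.ne'
  have hηC : (η : ℂ) ≠ 0 := by exact_mod_cast hη0
  have hηc : 0 < η / c := by positivity
  have e2 : -1 / (c : ℝ) = -(1 / c) := by ring
  have h1c : 0 < 1 / (c : ℝ) := by positivity
  have hlt : 1 / (c : ℝ) < η / c := by
    rw [div_lt_div_iff_of_pos_right hc]; exact hη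
  -- the two values of `E`
  have s1 : Tendsto (fun z : ℂ => z + ((-(1 / c) : ℝ) : ℂ)) (SF x0 x0 1)
      (SF (x0 + -(1 / c)) (x0 + -(1 / c)) 1) := Pool.MP_d0f9e0_co.AN9.SF_shift _
  have s1' : Tendsto (fun z : ℂ => z + ((-(1 / c) : ℝ) : ℂ)) (SF x0 x0 (-1))
      (SF (x0 + -(1 / c)) (x0 + -(1 / c)) (-1)) := Pool.MP_d0f9e0_co.AN9.SF_shift _
  have s2 : Tendsto (fun z : ℂ => z + ((-zp + η / c : ℝ) : ℂ)) (SF x0 x0 1)
      (SF (x0 + (-zp + η / c)) (x0 + (-zp + η / c)) 1) := Pool.MP_d0f9e0_co.AN9.SF_shift _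
  have s2' : Tendsto (fun z : ℂ => z + ((-zp + η / c : ℝ) : ℂ)) (SF x0 x0 (-1))
      (SF (x0 + (-zp + η / c)) (x0 + (-zp + η / c)) (-1)) := Pool.MP_d0f9e0_co.AN9.SF_shift _
  have a1 : -1 / (c : ℝ) < x0 + -(1 / c) := by rw [e2]; linarith
  have a2 : x0 + -(1 / c) < η / c := by linarith
  have a3 : -1 / (c : ℝ) < x0 + (-zp + η / c) := by rw [e2]; linarith
  have a4 : x0 + (-zp + η / c) < η / c := by linarith
  -- top
  have t1 := (Pool.MP_d0f9e0_co.AN9.E_top h (m + a) a1 a2).comp s1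
  have t2 := (Pool.MP_d0f9e0_co.AN9.E_top h (m - mp - 1) a3 a4).comp s2
  have t3 := t1.mul (t2.inv₀ one_ne_zero)
  obtain ⟨C1, Y1, hC1⟩ := top_bd (Bd.of_tendsto t3)
  -- bottom
  obtain ⟨K, hK, b1⟩ := Pool.MP_d0f9e0_co.AN9.E_bot h (m + a) a1 a2
  obtain ⟨K', hK', b2⟩ := Pool.MP_d0f9e0_co.AN9.E_bot h (m - mp - 1) a3 a4
  have b3 := (b1.comp s1').mul ((b2.comp s2').inv₀ hK')
  obtain ⟨C2, Y2, hC2⟩ := bot_bd (Bd.of_tendsto b3)
  -- exact form of the other factors
  set κ1 : ℝ := 1 / η + c * zy / η with hκ1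
  set κ2 : ℝ := (c * zp + c * zy - η) / η with hκ2
  have hκ1' : 0 < κ1 := by rw [hκ1]; positivity
  have hκ2' : κ2 < 0 := by
    rw [hκ2]
    refine div_neg_of_neg_of_pos ?_ (by linarith)
    have : c * (zp + zy) < η := by
      rw [lt_div_iff₀ hc] at hpy; linarith
    linarith
  have f1 : ∀ z : ℂ, ee (z / η + m / c) * psi η c d z m zy my =
      ee ((κ1 : ℂ) * z + (m / c - d * m * my / c)) := by
    intro z
    rw [psi, ← ee_add]
    congr 1
    rw [hκ1]
    push_cast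
    ring
  have f2 : ∀ z : ℂ, FF E η c a d zp mp zy my z m =
      (E (z + ((-(1 / c) : ℝ) : ℂ)) (m + a) * (E (z + ((-zp + η / c : ℝ) : ℂ)) (m - mp - 1))⁻¹) *
        ee ((κ1 : ℂ) * z + (m / c - d * m * my / c)) := by
    intro z
    rw [← f1, FF]
    rw [show z + ((-(1 / c) : ℝ) : ℂ) = z - 1 / c by push_cast; ring,
      show z + ((-zp + η / c : ℝ) : ℂ) = z - zp + η / c by push_cast; ring]
    ring
  obtain ⟨b, hb⟩ : ∃ b : ℂ, ∀ z : ℂ,
      Pool.MP_d0f9e0_co.AN9.qg c η (z + ((-(1 / c) : ℝ) : ℂ)) =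
      Pool.MP_d0f9e0_co.AN9.qg c η (z + ((-zp + η / c : ℝ) : ℂ)) *
        ee (((κ2 - κ1 : ℝ) : ℂ) * z + b) := by
    refine ⟨(c * (1 / c ^ 2 - (-zp + η / c) ^ 2) - (η - 1) * (-(1 / c) - (-zp + η / c))) /
      (2 * η), fun z => ?_⟩
    rw [Pool.MP_d0f9e0_co.AN9.qg, Pool.MP_d0f9e0_co.AN9.qg, ee, ← Complex.exp_add]
    congr 1
    rw [hκ1, hκ2]
    push_cast
    field_simp
    ring
  have f3 : ∀ z : ℂ, FF E η c a d zp mp zy my z m =
      (E (z + ((-(1 / c) : ℝ) : ℂ)) (m + a) /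
          Pool.MP_d0f9e0_co.AN9.qg c η (z + ((-(1 / c) : ℝ) : ℂ)) *
        (E (z + ((-zp + η / c : ℝ) : ℂ)) (m - mp - 1) /
          Pool.MP_d0f9e0_co.AN9.qg c η (z + ((-zp + η / c : ℝ) : ℂ)))⁻¹) *
        ee ((κ2 : ℂ) * z + (b + (m / c - d * m * my / c))) := by
    intro z
    have q1 := Pool.MP_d0f9e0_co.AN9.qg_ne (c := c) (η := η) (z + ((-(1 / c) : ℝ) : ℂ))
    have q2 := Pool.MP_d0f9e0_co.AN9.qg_ne (c := c) (η := η) (z + ((-zp + η / c : ℝ) : ℂ))
    have q3 : ee ((κ2 : ℂ) * z + (b + (m / c - d * m * my / c))) =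
        ee (((κ2 - κ1 : ℝ) : ℂ) * z + b) * ee ((κ1 : ℂ) * z + (m / c - d * m * my / c)) := by
      rw [← ee_add]
      congr 1
      push_cast
      ring
    rw [f2 z, q3, hb z, inv_div]
    have q4 := Pool.MP_d0f9e0_co.AN9.ee_ne (((κ2 - κ1 : ℝ) : ℂ) * z + b)
    exact alg1 q2 q4
  -- continuity on the line
  have l1 : ∀ t : ℝ, ((x0 : ℂ) + t * I + ((-(1 / c) : ℝ) : ℂ)).re = x0 + -(1 / c) := by
    intro t; simp
  have l2 : ∀ t : ℝ, ((x0 : ℂ) + t * I + ((-zp + η / c : ℝ) : ℂ)).re = x0 + (-zp + η / c) := by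
    intro t; simp
  have hcont : Continuous fun t : ℝ => FF E η c a d zp mp zy my (x0 + t * I) m := by
    have c0 : Continuous fun t : ℝ => (x0 : ℂ) + t * I := by fun_prop
    have c1 : Continuous fun t : ℝ => E ((x0 : ℂ) + t * I + ((-(1 / c) : ℝ) : ℂ)) (m + a) := by
      rw [continuous_iff_continuousAt]
      intro t
      have hd := (Pool.MP_d0f9e0_co.AN9.E_diff h (m := m + a)
        (z := (x0 : ℂ) + t * I + ((-(1 / c) : ℝ) : ℂ))
        (by rw [l1]; exact a1) (by rw [l1]; exact a2)).continuousAt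
      exact ContinuousAt.comp (f := fun t : ℝ => (x0 : ℂ) + t * I + ((-(1 / c) : ℝ) : ℂ)) hd
        (c0.add continuous_const).continuousAt
    have c2 : Continuous fun t : ℝ =>
        E ((x0 : ℂ) + t * I + ((-zp + η / c : ℝ) : ℂ)) (m - mp - 1) := by
      rw [continuous_iff_continuousAt]
      intro t
      have hd := (Pool.MP_d0f9e0_co.AN9.E_diff h (m := m - mp - 1)
        (z := (x0 : ℂ) + t * I + ((-zp + η / c : ℝ) : ℂ))
        (by rw [l2]; exact a3) (by rw [l2]; exact a4)).continuousAt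
      exact ContinuousAt.comp (f := fun t : ℝ => (x0 : ℂ) + t * I + ((-zp + η / c : ℝ) : ℂ)) hd
        (c0.add continuous_const).continuousAt
    have c3 : Continuous fun t : ℝ =>
        ee ((κ1 : ℂ) * ((x0 : ℂ) + t * I) + (m / c - d * m * my / c)) :=
      ee_differentiable.continuous.comp ((continuous_const.mul c0).add continuous_const)
    simp_rw [f2]
    refine (c1.mul (c2.inv₀ fun t => ?_)).mul c3
    exact h.ne _ _ (by rw [l2]; exact a3) (by rw [l2]; exact a4)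
  -- the exponential bounds
  set M1 := Real.exp (-(2 * Real.pi * ((m : ℂ) / c - d * m * my / c).im)) with hM1
  set M2 := Real.exp (-(2 * Real.pi * (b + ((m : ℂ) / c - d * m * my / c)).im)) with hM2
  have hπ := Real.pi_pos
  have hM1p : 0 < M1 := Real.exp_pos _
  have hM2p : 0 < M2 := Real.exp_pos _
  set ε := min (2 * Real.pi * κ1) (-(2 * Real.pi * κ2)) with hε
  have hε0 : 0 < ε := lt_min (by positivity) (by nlinarith)
  refine integrable_line (C := max (|C1| * M1) (|C2| * M2)) (ε := ε) (Y := max Y1 Y2) hε0 hcont ?_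
  intro t ht
  rcases le_or_gt 0 t with h0 | h0
  · rw [abs_of_nonneg h0] at ht ⊢
    have g1 := hC1 t ((le_max_left _ _).trans ht)
    simp only [Function.comp_apply] at g1
    rw [f2, norm_mul, norm_ee_line]
    calc _ ≤ |C1| * (M1 * Real.exp (-ε * t)) := by
          refine mul_le_mul (g1.trans (le_abs_self _)) ?_ (by positivity) (abs_nonneg _)
          refine mul_le_mul_of_nonneg_left ?_ hM1p.le
          refine Real.exp_le_exp.2 ?_
          have : ε ≤ 2 * Real.pi * κ1 := min_le_left _ _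
          nlinarith
      _ = |C1| * M1 * Real.exp (-ε * t) := by ring
      _ ≤ _ := mul_le_mul_of_nonneg_right (le_max_left _ _) (Real.exp_pos _).le
  · rw [abs_of_neg h0] at ht ⊢
    have g1 := hC2 t (by have := (le_max_right Y1 Y2).trans ht; linarith)
    simp only [Function.comp_apply] at g1
    rw [f3, norm_mul, norm_ee_line]
    calc _ ≤ |C2| * (M2 * Real.exp (-ε * -t)) := by
          refine mul_le_mul (g1.trans (le_abs_self _)) ?_ (by positivity) (abs_nonneg _)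
          refine mul_le_mul_of_nonneg_left ?_ hM2p.le
          refine Real.exp_le_exp.2 ?_
          have : ε ≤ -(2 * Real.pi * κ2) := min_le_right _ _
          nlinarith
      _ = |C2| * M2 * Real.exp (-ε * -t) := by ring
      _ ≤ _ := mul_le_mul_of_nonneg_right (le_max_right _ _) (Real.exp_pos _).le

/-! ### The finite sets -/

/-- The integers `N` with `0 < c N - (d - 1) m ≤ n`. -/
noncomputable def win (c : ℕ) (d n m : ℤ) : Finset ℤ := Finset.Ioc ((d - 1) * m / c) ((n + (d - 1) * m) / c)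

theorem mem_win (hc : 0 < c) {d n m N : ℤ} :
    N ∈ win c d n m ↔ 0 < c * N - (d - 1) * m ∧ c * N - (d - 1) * m ≤ n := by
  have hc' : (0 : ℤ) < c := by exact_mod_cast hc
  rw [win, Finset.mem_Ioc, Int.ediv_lt_iff_lt_mul hc', Int.le_ediv_iff_mul_le hc']
  constructor
  · rintro ⟨h1, h2⟩
    constructor <;> linarith
  · rintro ⟨h1, h2⟩
    constructor <;> linarith

/-- The point of `H^G` with `X = X~ + N`. -/
noncomputable def zz (η : ℝ) (c : ℕ) (d N m : ℤ) : ℝ := (N - (d - 1) * m / c) / (1 - 1 / η)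

theorem poleSet_eq (h : LC c a d η E) (htr : η + 1 / η = a + d) {x0 : ℝ} (hx0 : 0 < x0)
    (hx1 : x0 < 1 / c) (m : ℤ) :
    poleSet x0 (x0 + (η - 1) / c) (1 - 1 / η) ((d - 1) * (m : ℝ) / c) =
      win c d (a + d - 2) m := by
  have hc := cpos h
  have hη := h.one_lt
  have hη0 : 0 < η := by linarith
  ext j
  rw [Pool.MP_d0f9e0_co.AN9.mem_poleSet, mem_win h.c_pos]
  have hα : 0 < 1 - 1 / η := by rw [sub_pos, div_lt_one hη0]; exact hη
  have hα1 : 1 - 1 / η < 1 := by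
    have : 0 < 1 / η := by positivity
    linarith
  set δ := c * ((1 - 1 / η) * x0) with hδ
  have hδ0 : 0 < δ := by positivity
  have hδ1 : δ < 1 := by
    have h16 : c * x0 < 1 := by
      rw [lt_div_iff₀ hc] at hx1; linarith
    have h18 : 0 < c * x0 := by positivity
    rw [hδ]
    nlinarith
  have e1 : (1 - 1 / η) * x0 + (d - 1) * (m : ℝ) / c < j ↔ δ + (d - 1) * m < c * j := by
    rw [hδ, ← mul_lt_mul_iff_of_pos_left hc]
    have : (c : ℝ) * ((1 - 1 / η) * x0 + (d - 1) * (m : ℝ) / c) =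
      c * ((1 - 1 / η) * x0) + (d - 1) * m := by field_simp
    rw [this]
  have htr' : (1 - 1 / η) * (η - 1) = a + d - 2 := by
    rw [← htr]; field_simp; ring
  have e2 : (j : ℝ) < (1 - 1 / η) * (x0 + (η - 1) / c) + (d - 1) * (m : ℝ) / c ↔
      c * (j : ℝ) < δ + (a + d - 2) + (d - 1) * m := by
    rw [hδ, ← mul_lt_mul_iff_of_pos_left hc]
    have : (c : ℝ) * ((1 - 1 / η) * (x0 + (η - 1) / c) + (d - 1) * (m : ℝ) / c) =
      c * ((1 - 1 / η) * x0) + (1 - 1 / η) * (η - 1) + (d - 1) * m := by field_simp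
    rw [this, htr']
  rw [e1, e2]
  constructor
  · rintro ⟨h1, h2⟩
    constructor
    · have h3 : (((d - 1) * m : ℤ) : ℝ) < ((c * j : ℤ) : ℝ) := by push_cast; linarith
      have h4 := Int.cast_lt.1 h3
      linarith
    · have h3 : ((c * j : ℤ) : ℝ) < ((1 + (a + d - 2) + (d - 1) * m : ℤ) : ℝ) := by
        push_cast; linarith
      have h4 := Int.cast_lt.1 h3
      linarith
  · rintro ⟨h1, h2⟩
    have h3 : ((1 : ℤ) : ℝ) ≤ ((c * j - (d - 1) * m : ℤ) : ℝ) := Int.cast_le.2 h1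
    have h4 : ((c * j - (d - 1) * m : ℤ) : ℝ) ≤ ((a + d - 2 : ℤ) : ℝ) := Int.cast_le.2 h2
    push_cast at h3 h4
    constructor <;> linarith

theorem no_int (h : LC c a d η E) {δ : ℝ} (h0 : 0 < δ) (h1 : δ < 1) (k n : ℤ) :
    δ / c + (k : ℝ) / c ≠ n := by
  have hc := cpos h
  intro h2
  have h3 : δ = ((c * n - k : ℤ) : ℝ) := by
    push_cast
    rw [← h2]
    field_simp
    ring
  rw [h3] at h0 h1
  have h4 : (0 : ℤ) < c * n - k := by exact_mod_cast h0
  have h5 : (c * n - k : ℤ) < 1 := by exact_mod_cast h1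
  omega

theorem sum_zmod {M : Type*} [AddCommMonoid M] {c : ℕ} [NeZero c] (G : ℤ → M) :
    ∑ x : ZMod c, G ((x.val : ℕ) : ℤ) = ∑ m ∈ Finset.range c, G (m : ℤ) := by
  obtain _ | k := c
  · exact absurd rfl (NeZero.ne 0)
  · exact (Finset.sum_range (fun m : ℕ => G (m : ℤ))).symm

theorem ee_nat_mul (z : ℂ) (n : ℕ) : ee (n * z) = ee z ^ n := by
  induction n with
  | zero => simp [ee_zero]
  | succ k ih =>
    rw [pow_succ, ← ih, ← ee_add]
    congr 1
    push_cast
    ring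

theorem gauss_sum (h : LC c a d η E) (my : ℤ) :
    ∑ m ∈ Finset.range c, ee (-((d : ℂ) * ((m : ℤ) : ℂ) * my / c)) =
      if (c : ℤ) ∣ my then (c : ℂ) else 0 := by
  have hc := cpos h
  have hcC : (c : ℂ) ≠ 0 := by exact_mod_cast hc.ne'
  set ω := ee (-((d : ℂ) * my / c)) with hω
  have h1 : ∀ m : ℕ, ee (-((d : ℂ) * ((m : ℤ) : ℂ) * my / c)) = ω ^ m := by
    intro m
    rw [hω, ← ee_nat_mul]
    congr 1
    push_cast
    ring
  simp_rw [h1]
  split_ifs with h2
  · obtain ⟨k, hk⟩ := h2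
    have h3 : ω = 1 := by
      rw [hω, ← ee_int (-(d * k))]
      congr 1
      rw [hk]
      push_cast
      field_simp
    simp [h3]
  · have h3 : ω ≠ 1 := by
      intro h3
      obtain ⟨n, hn⟩ := ee_eq_one h3
      apply h2
      have h4 : (d : ℂ) * my = c * (-n : ℤ) := by
        push_cast
        rw [← hn]
        field_simp
      have h5 : d * my = c * (-n) := by exact_mod_cast h4
      obtain ⟨q, hq⟩ := h.inv
      refine ⟨a * (-n) - q * my, ?_⟩
      linear_combination a * h5 - my * hq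
    have h4 : ω ^ c = 1 := by
      rw [hω, ← ee_nat_mul, ← ee_int (-(d * my))]
      congr 1
      push_cast
      field_simp
    rw [geom_sum_eq h3, h4, sub_self, zero_div]

/-- **THEOREM S**, from the level `c` beta integral. -/
theorem LC.sum_formula_of_beta (h : LC c a d η E) (htr : η + 1 / η = a + d) {zp zy : ℝ}
    {mp my Np Ny : ℤ} (hzp : zp * (1 - 1 / η) + (d - 1) * mp / c = Np)
    (hzy : zy * (1 - 1 / η) + (d - 1) * my / c = Ny) (hp : 0 < zp) (hy : 0 ≤ zy)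
    (hpy : zp + zy < (η - 1) / c)
    (hbeta : ∀ x0 : ℝ, 0 < x0 → x0 < zp → x0 < 1 / c →
      I * ∑ m ∈ Finset.range c, ∫ t : ℝ, FF E η c a d zp mp zy my (x0 + t * I) m =
        RR E η c a d zp mp zy my) :
    ∑ m ∈ Finset.range c, ∑ N ∈ win c d (a + d - 2) m,
        E (zz η c d N m : ℝ) m * Rinv E η c d ((zz η c d N m : ℝ) - zp) (m - mp) *
          psi η c d (zz η c d N m : ℝ) m zy my =
      (η - 1) / η * (E zp mp * E zy my * psi η c d zp mp zy my /
        (E 0 0 * E (zy + zp) (my + mp))) +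
      (if zy = 0 ∧ (c : ℤ) ∣ my then ((η - 1) ^ 2 / η : ℂ) else 0) := by
  have hc := cpos h
  have hη := h.one_lt
  have hη0 : η ≠ 0 := by linarith
  have hcC : (c : ℂ) ≠ 0 := by exact_mod_cast hc.ne'
  have hηC : (η : ℂ) ≠ 0 := by exact_mod_cast hη0
  have hη1C : (η : ℂ) - 1 ≠ 0 := by
    have : η - 1 ≠ 0 := by linarith
    exact_mod_cast this
  have : NeZero c := ⟨h.c_pos.ne'⟩
  have h1c : 0 < 1 / (c : ℝ) := by positivity
  have e0 : (η - 1) / (c : ℝ) = η / c - 1 / c := by ring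
  have e2 : -1 / (c : ℝ) = -(1 / c) := by ring
  have e3 : (1 + η) / (c : ℝ) = 1 / c + η / c := by ring
  have hα : 0 < 1 - 1 / η := by
    rw [sub_pos, div_lt_one (by linarith)]; exact hη
  have hα1 : 1 - 1 / η < 1 := by
    have : 0 < 1 / η := by positivity
    linarith
  obtain ⟨x0, hx0, hx1, hx2⟩ : ∃ x0 : ℝ, 0 < x0 ∧ x0 < zp ∧ x0 < 1 / c := by
    refine ⟨min zp (1 / c) / 2, by positivity, ?_, ?_⟩
    · have := min_le_left zp (1 / (c : ℝ)); linarith
    · have := min_le_right zp (1 / (c : ℝ)); linarith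
  have hb := hbeta x0 hx0 hx1 hx2
  have hcx : c * x0 < 1 := by
    rw [lt_div_iff₀ hc] at hx2; linarith
  have hcx0 : 0 < c * x0 := by positivity
  set δ := (1 - 1 / η) * (c * x0) with hδ
  have hδ0 : 0 < δ := by positivity
  have hδ1 : δ < 1 := by nlinarith
  have htr' : (1 - 1 / η) * (η - 1) = a + d - 2 := by
    rw [← htr]; field_simp; ring
  -- the data of `shift_sum`
  set m' : ZMod c → ℤ := fun x => ((x.val : ℕ) : ℤ) with hm'
  set θ : ZMod c → ℝ := fun x => (d - 1) * (m' x : ℝ) / c with hθ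
  set K : ℂ := 1 - 1 / ee ((zp : ℂ) + d * mp / c) with hK
  have hKS := Pool.MP_d0f9e0_co.AN9.shift_sum (ι := ZMod c)
    (Equiv.addRight (((a - 1 : ℤ)) : ZMod c))
    (f := fun x => fS E η c d zp mp zy my (m' x))
    (F := fun x z => FF E η c a d zp mp zy my z (m' x))
    (θ := θ) (a := x0) (b := x0 + (η - 1) / c) (α := 1 - 1 / η) (K := K)
    (Lp := fun x => if zy = 0 then ee (-(d * (m' x : ℂ) * my / c)) else 0) (Lm := fun _ => 0)
    (by have : 0 ≤ (η - 1) / c := div_nonneg (by linarith) hc.le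
        linarith) hα
    (by
      intro i n
      have h1 := no_int h hδ0 hδ1 ((d - 1) * m' i) n
      refine fun h2 => h1 ?_
      rw [← h2, hδ, hθ]
      push_cast
      field_simp)
    (by
      intro i n
      have h1 := no_int h hδ0 hδ1 ((a + d - 2) + (d - 1) * m' i) n
      refine fun h2 => h1 ?_
      rw [← h2, hδ, hθ]
      have h3 : (1 - 1 / η) * (x0 + (η - 1) / c) + (d - 1) * (m' i : ℝ) / c =
        (1 - 1 / η) * (c * x0) / c + ((1 - 1 / η) * (η - 1) + (d - 1) * (m' i : ℝ)) / c := by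
        field_simp
        ring
      rw [h3, htr']
      push_cast
      ring)
    (by
      intro i z hz1 hz2
      refine Pool.MP_d0f9e0_co.AN9.fS_diff h ?_ ?_ ?_ ?_
      · rw [e2]; linarith
      · linarith
      · rw [e3]; linarith
      · linarith)
    (fun i => Pool.MP_d0f9e0_co.AN9.fS_top h (by rw [e2]; linarith) (by linarith)
      (by rw [e3]; linarith) (by linarith) hy hα _)
    (fun i => Pool.MP_d0f9e0_co.AN9.fS_bot h (by rw [e2]; linarith) (by linarith)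
      (by rw [e3]; linarith) (by linarith) hα
      (by
        have h3 : c * (zp + zy) < η - 1 := by
          rw [lt_div_iff₀ hc] at hpy; linarith
        rw [div_lt_iff₀ (by linarith)]
        have h4 : (1 - 1 / η) * η = η - 1 := by field_simp
        rw [h4]
        exact h3) _)
    (by
      intro i y
      have hdv : (c : ℤ) ∣ m' (i + ((a - 1 : ℤ) : ZMod c)) - (m' i + (a - 1)) := by
        rw [← ZMod.intCast_eq_intCast_iff_dvd_sub, hm']
        push_cast
        simp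
      have hk := kqS_congr (zp := zp) (zy := zy) (mp := mp) (my := my) h (1 - 1 / η) hdv
        ((x0 : ℂ) + y * I + ((η - 1) / c : ℝ))
      have hre : ((x0 : ℂ) + y * I).re = x0 := by simp
      have hs := h.kq_shift htr hzp hzy (by linarith) (z := (x0 : ℂ) + y * I)
        (by rw [hre]; exact hx0) (by rw [hre]; exact hx2) (by rw [hre]; exact hx1) (m' i)
      rw [← hk] at hs
      have e4 : (((x0 + (η - 1) / c : ℝ) : ℂ) + y * I) =
        (x0 : ℂ) + y * I + ((η - 1) / c : ℝ) := by push_cast; ring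
      simp only [Equiv.coe_addRight]
      rw [e4]
      exact hs)
    (fun i => h.FF_integrable hx0 hx2 hx1 hy (by linarith) (m' i))
  rw [hm', sum_zmod (fun m => ∫ y : ℝ, FF E η c a d zp mp zy my (x0 + y * I) m), hb] at hKS
  have hS : ∑ x : ZMod c, ∑ j ∈ poleSet x0 (x0 + (η - 1) / c) (1 - 1 / η) (θ x),
      fS E η c d zp mp zy my (((x.val : ℕ) : ℤ)) (((j - θ x) / (1 - 1 / η) : ℝ) : ℂ) =
      ∑ m ∈ Finset.range c, ∑ N ∈ win c d (a + d - 2) m,
        E (zz η c d N m : ℝ) m * Rinv E η c d ((zz η c d N m : ℝ) - zp) (m - mp) *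
          psi η c d (zz η c d N m : ℝ) m zy my := by
    rw [hθ, hm', sum_zmod (fun m => ∑ j ∈ poleSet x0 (x0 + (η - 1) / c) (1 - 1 / η)
      ((d - 1) * (m : ℝ) / c), fS E η c d zp mp zy my m
        (((j - (d - 1) * (m : ℝ) / c) / (1 - 1 / η) : ℝ) : ℂ))]
    refine Finset.sum_congr rfl fun m _ => ?_
    rw [poleSet_eq h htr hx0 hx2]
    rfl
  have hL : ∑ x : ZMod c, ((if zy = 0 then
      ee (-(d * ((((x.val : ℕ) : ℤ)) : ℂ) * my / c)) else 0) - 0) =
      if zy = 0 ∧ (c : ℤ) ∣ my then (c : ℂ) else 0 := by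
    simp only [sub_zero]
    by_cases h0 : zy = 0
    · simp only [h0, true_and, if_true]
      rw [sum_zmod (fun m => ee (-(d * (m : ℂ) * my / c))), gauss_sum h]
    · simp [h0]
  have hE : E zp mp = (1 - ee ((zp : ℂ) / η + mp / c)) * E ((zp : ℂ) - 1 / c) (mp + a) := by
    have hre1 : ((zp : ℂ) - 1 / c).re = zp - 1 / c := by
      rw [sub_re, show (1 : ℂ) / c = ((1 / c : ℝ) : ℂ) by push_cast; ring, ofReal_re, ofReal_re]
    have h1' := h.s1 ((zp : ℂ) - 1 / c) (mp + a) (by rw [hre1, e2]; linarith)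
      (by rw [hre1]; linarith)
    rw [sub_add_cancel, add_sub_cancel_right] at h1'
    rw [h1']
    congr 2
    congr 1
    push_cast
    field_simp
    ring
  rw [hS, hL] at hKS
  have hKR : K * RR E η c a d zp mp zy my = -(E zp mp * E zy my * psi η c d zp mp zy my /
      (E 0 0 * E (zy + zp) (my + mp))) := by
    rw [RR, hE, hK, P_eq hzp]
    have hPn := Pool.MP_d0f9e0_co.AN9.ee_ne ((zp : ℂ) / η + mp / c)
    generalize ee ((zp : ℂ) / η + mp / c) = P at hPn ⊢
    generalize E ((zp : ℂ) - 1 / c) (mp + a) = E1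
    generalize E (zy + zp) (my + mp) = E2
    have h7 : (1 - 1 / P) * P = P - 1 := by field_simp
    calc (1 - 1 / P) * (P * E1 * E zy my * psi η c d zp mp zy my / (E 0 0 * E2)) =
        ((1 - 1 / P) * P) * (E1 * E zy my * psi η c d zp mp zy my / (E 0 0 * E2)) := by ring
      _ = _ := by rw [h7]; ring
  rw [hKR] at hKS
  have hα' : ((1 - 1 / η : ℝ) : ℂ) = ((η : ℂ) - 1) / η := by
    push_cast; field_simp
  have hb' : ((x0 + (η - 1) / c - x0 : ℝ) : ℂ) = ((η : ℂ) - 1) / c := by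
    push_cast; ring
  rw [hα', hb'] at hKS
  set S := ∑ m ∈ Finset.range c, ∑ N ∈ win c d (a + d - 2) m,
        E (zz η c d N m : ℝ) m * Rinv E η c d ((zz η c d N m : ℝ) - zp) (m - mp) *
          psi η c d (zz η c d N m : ℝ) m zy my with hSdef
  set T := E zp mp * E zy my * psi η c d zp mp zy my / (E 0 0 * E (zy + zp) (my + mp)) with hT
  have h5 : S = (η - 1) / η * (T + ((η : ℂ) - 1) / c *
      (if zy = 0 ∧ (c : ℤ) ∣ my then (c : ℂ) else 0)) := by
    have h6 : (1 / (((η : ℂ) - 1) / η)) * S = T + ((η : ℂ) - 1) / c *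
      (if zy = 0 ∧ (c : ℤ) ∣ my then (c : ℂ) else 0) := by
      linear_combination hKS
    rw [← h6]
    field_simp
  rw [h5]
  split_ifs
  · field_simp
  · ring

end Pool.Agent.Lib.MP_d0f9e0_co.AN
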