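import Pool.Agent.Lib.MP_d0f9e0_co.AN.Defs

/-!
# Behaviour of the level `c` function at the two ends of a vertical strip (helper60)

`topF α β` and `botF α β` are the filters `Im z → +∞` and `Im z → -∞` inside the closed strip
`α ≤ Re z ≤ β`.
-/

set_option autoImplicit false

open Complex MeasureTheory Filter Topology Set Asymptotics

namespace Pool.Agent.Lib.MP_d0f9e0_co.AN

open Pool.MP_d0f9e0_co.CS (ee ee_add ee_int ee_add_int ee_differentiable ee_zero)

/-- `Im z → +∞` in the strip `α ≤ Re z ≤ β`. -/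
def topF (α β : ℝ) : Filter ℂ := comap Complex.im atTop ⊓ 𝓟 {z : ℂ | α ≤ z.re ∧ z.re ≤ β}

/-- `Im z → -∞` in the strip `α ≤ Re z ≤ β`. -/
def botF (α β : ℝ) : Filter ℂ := comap Complex.im atBot ⊓ 𝓟 {z : ℂ | α ≤ z.re ∧ z.re ≤ β}

theorem eventually_topF {α β : ℝ} {p : ℂ → Prop} :
    (∀ᶠ z in topF α β, p z) ↔ ∃ Y : ℝ, ∀ z : ℂ, α ≤ z.re → z.re ≤ β → Y ≤ z.im → p z := by
  rw [topF, eventually_inf_principal, eventually_comap, eventually_atTop]
  constructor
  · rintro ⟨Y, h⟩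
    exact ⟨Y, fun z h1 h2 h3 => h z.im h3 z rfl ⟨h1, h2⟩⟩
  · rintro ⟨Y, h⟩
    exact ⟨Y, fun y hy z hz h12 => h z h12.1 h12.2 (by rw [hz]; exact hy)⟩

theorem eventually_botF {α β : ℝ} {p : ℂ → Prop} :
    (∀ᶠ z in botF α β, p z) ↔ ∃ Y : ℝ, ∀ z : ℂ, α ≤ z.re → z.re ≤ β → z.im ≤ Y → p z := by
  rw [botF, eventually_inf_principal, eventually_comap, eventually_atBot]
  constructor
  · rintro ⟨Y, h⟩
    exact ⟨Y, fun z h1 h2 h3 => h z.im h3 z rfl ⟨h1, h2⟩⟩
  · rintro ⟨Y, h⟩
    exact ⟨Y, fun y hy z hz h12 => h z h12.1 h12.2 (by rw [hz]; exact hy)⟩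

theorem tendsto_topF {α β : ℝ} {f : ℂ → ℂ} {L : ℂ} :
    Tendsto f (topF α β) (𝓝 L) ↔ ∀ e : ℝ, 0 < e → ∃ Y : ℝ, ∀ z : ℂ, α ≤ z.re → z.re ≤ β →
      Y ≤ z.im → ‖f z - L‖ ≤ e := by
  rw [Metric.tendsto_nhds]
  constructor
  · intro h e he
    obtain ⟨Y, hY⟩ := eventually_topF.1 (h e he)
    exact ⟨Y, fun z h1 h2 h3 => by rw [← dist_eq_norm]; exact (hY z h1 h2 h3).le⟩
  · intro h e he
    obtain ⟨Y, hY⟩ := h (e / 2) (by linarith)
    exact eventually_topF.2 ⟨Y, fun z h1 h2 h3 => by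
      rw [dist_eq_norm]; exact lt_of_le_of_lt (hY z h1 h2 h3) (by linarith)⟩

theorem tendsto_botF {α β : ℝ} {f : ℂ → ℂ} {L : ℂ} :
    Tendsto f (botF α β) (𝓝 L) ↔ ∀ e : ℝ, 0 < e → ∃ Y : ℝ, ∀ z : ℂ, α ≤ z.re → z.re ≤ β →
      z.im ≤ Y → ‖f z - L‖ ≤ e := by
  rw [Metric.tendsto_nhds]
  constructor
  · intro h e he
    obtain ⟨Y, hY⟩ := eventually_botF.1 (h e he)
    exact ⟨Y, fun z h1 h2 h3 => by rw [← dist_eq_norm]; exact (hY z h1 h2 h3).le⟩
  · intro h e he
    obtain ⟨Y, hY⟩ := h (e / 2) (by linarith)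
    exact eventually_botF.2 ⟨Y, fun z h1 h2 h3 => by
      rw [dist_eq_norm]; exact lt_of_le_of_lt (hY z h1 h2 h3) (by linarith)⟩

theorem norm_ee (z : ℂ) : ‖ee z‖ = Real.exp (-(2 * Real.pi) * z.im) := by
  rw [ee, Complex.norm_exp]
  congr 1
  simp [Complex.mul_re, Complex.mul_im]

theorem ee_ne (z : ℂ) : ee z ≠ 0 := Complex.exp_ne_zero _

theorem ee_neg (z : ℂ) : ee (-z) = (ee z)⁻¹ := by
  rw [ee, ee, ← Complex.exp_neg]; congr 1; ring

theorem ee_sub (z w : ℂ) : ee (z - w) = ee z / ee w := by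
  rw [sub_eq_add_neg, ee_add, ee_neg, div_eq_mul_inv]

theorem tendsto_im_topF (α β : ℝ) : Tendsto Complex.im (topF α β) atTop :=
  tendsto_comap.mono_left inf_le_left

theorem tendsto_im_botF (α β : ℝ) : Tendsto Complex.im (botF α β) atBot :=
  tendsto_comap.mono_left inf_le_left

theorem ee_top {α β κ : ℝ} (b : ℂ) (hκ : 0 < κ) :
    Tendsto (fun z : ℂ => ee (κ * z + b)) (topF α β) (𝓝 0) := by
  rw [tendsto_zero_iff_norm_tendsto_zero]
  have h1 : ∀ z : ℂ, ‖ee (κ * z + b)‖ =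
      Real.exp (-(2 * Real.pi * κ) * z.im + -(2 * Real.pi) * b.im) := by
    intro z
    rw [norm_ee]
    congr 1
    simp [Complex.add_im, Complex.mul_im]
    ring
  simp_rw [h1]
  refine Real.tendsto_exp_atBot.comp (tendsto_atBot_add_const_right _ _ ?_)
  have h2 : Tendsto (fun z : ℂ => z.im * (-(2 * Real.pi * κ))) (topF α β) atBot :=
    (tendsto_im_topF α β).atTop_mul_const_of_neg (by have := Real.pi_pos; nlinarith)
  refine h2.congr (fun z => by ring)

theorem ee_bot {α β κ : ℝ} (b : ℂ) (hκ : κ < 0) :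
    Tendsto (fun z : ℂ => ee (κ * z + b)) (botF α β) (𝓝 0) := by
  rw [tendsto_zero_iff_norm_tendsto_zero]
  have h1 : ∀ z : ℂ, ‖ee (κ * z + b)‖ =
      Real.exp (-(2 * Real.pi * κ) * z.im + -(2 * Real.pi) * b.im) := by
    intro z
    rw [norm_ee]
    congr 1
    simp [Complex.add_im, Complex.mul_im]
    ring
  simp_rw [h1]
  refine Real.tendsto_exp_atBot.comp (tendsto_atBot_add_const_right _ _ ?_)
  have h2 : Tendsto (fun z : ℂ => z.im * (-(2 * Real.pi * κ))) (botF α β) atBot :=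
    (tendsto_im_botF α β).atBot_mul_const (by have := Real.pi_pos; nlinarith)
  refine h2.congr (fun z => by ring)

theorem topF_shift {α β α' β' : ℝ} (w : ℂ) (h1 : α' ≤ α + w.re) (h2 : β + w.re ≤ β') :
    Tendsto (fun z : ℂ => z + w) (topF α β) (topF α' β') := by
  refine tendsto_inf.2 ⟨tendsto_comap_iff.2 ?_, tendsto_principal.2 ?_⟩
  · have : (Complex.im ∘ fun z : ℂ => z + w) = fun z : ℂ => z.im + w.im := by
      funext z; simp
    rw [this]
    exact tendsto_atTop_add_const_right _ _ (tendsto_im_topF α β)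
  · refine eventually_topF.2 ⟨0, fun z h3 h4 _ => ⟨?_, ?_⟩⟩
    · simp only [Complex.add_re]; linarith
    · simp only [Complex.add_re]; linarith

theorem botF_shift {α β α' β' : ℝ} (w : ℂ) (h1 : α' ≤ α + w.re) (h2 : β + w.re ≤ β') :
    Tendsto (fun z : ℂ => z + w) (botF α β) (botF α' β') := by
  refine tendsto_inf.2 ⟨tendsto_comap_iff.2 ?_, tendsto_principal.2 ?_⟩
  · have : (Complex.im ∘ fun z : ℂ => z + w) = fun z : ℂ => z.im + w.im := by
      funext z; simp
    rw [this]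
    exact tendsto_atBot_add_const_right _ _ (tendsto_im_botF α β)
  · refine eventually_botF.2 ⟨0, fun z h3 h4 _ => ⟨?_, ?_⟩⟩
    · simp only [Complex.add_re]; linarith
    · simp only [Complex.add_re]; linarith

theorem botF_refl {α β α' β' : ℝ} (w : ℂ) (h1 : α' ≤ w.re - β) (h2 : w.re - α ≤ β') :
    Tendsto (fun z : ℂ => w - z) (botF α β) (topF α' β') := by
  refine tendsto_inf.2 ⟨tendsto_comap_iff.2 ?_, tendsto_principal.2 ?_⟩
  · have : (Complex.im ∘ fun z : ℂ => w - z) = fun z : ℂ => -z.im + w.im := by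
      funext z; simp; ring
    rw [this]
    exact tendsto_atTop_add_const_right _ _ (tendsto_neg_atBot_atTop.comp (tendsto_im_botF α β))
  · refine eventually_botF.2 ⟨0, fun z h3 h4 _ => ⟨?_, ?_⟩⟩
    · simp only [Complex.sub_re]; linarith
    · simp only [Complex.sub_re]; linarith

variable {c : ℕ} {a d : ℤ} {η : ℝ} {E : ℂ → ℤ → ℂ}

theorem LC.c_pos' (h : LC c a d η E) : (0 : ℝ) < c := by exact_mod_cast h.c_pos

theorem LC.diffAt (h : LC c a d η E) (m : ℤ) {z : ℂ} (h1 : -1 / (c : ℝ) < z.re)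
    (h2 : z.re < η / c) : DifferentiableAt ℂ (fun z => E z m) z := by
  refine (h.diff m).differentiableAt (IsOpen.mem_nhds ?_ ⟨h1, h2⟩)
  exact (isOpen_lt continuous_const Complex.continuous_re).inter
    (isOpen_lt Complex.continuous_re continuous_const)

theorem LC.E_top (h : LC c a d η E) (m : ℤ) {α β : ℝ} (h1 : -1 / (c : ℝ) < α)
    (h2 : β < η / c) : Tendsto (fun z => E z m) (topF α β) (𝓝 1) := by
  obtain ⟨C, ε, hε, hC⟩ := h.top m α β h1 h2
  rw [tendsto_iff_norm_sub_tendsto_zero]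
  have h3 : Tendsto (fun z : ℂ => C * Real.exp (-ε * z.im)) (topF α β) (𝓝 0) := by
    have h4 : Tendsto (fun z : ℂ => z.im * (-ε)) (topF α β) atBot :=
      (tendsto_im_topF α β).atTop_mul_const_of_neg (by linarith)
    have h5 : Tendsto (fun z : ℂ => Real.exp (-ε * z.im)) (topF α β) (𝓝 0) :=
      (Real.tendsto_exp_atBot.comp h4).congr (fun z => by
        simp only [Function.comp]; congr 1; ring)
    simpa using h5.const_mul C
  refine squeeze_zero' (Eventually.of_forall fun z => norm_nonneg _) ?_ h3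
  exact eventually_topF.2 ⟨0, fun z h4 h5 h6 => hC z h4 h5 h6⟩

/-- The Gaussian which describes the bottom. -/
noncomputable def GG (η : ℝ) (c : ℕ) (z : ℂ) : ℂ :=
  Complex.exp (Real.pi * I * (c * z ^ 2 - (η - 1) * z) / η)

theorem GG_ne (η : ℝ) (c : ℕ) (z : ℂ) : GG η c z ≠ 0 := Complex.exp_ne_zero _

theorem LC.E_bot (h : LC c a d η E) (m : ℤ) : ∃ K : ℂ, ‖K‖ = 1 ∧ ∀ α β : ℝ,
    -1 / (c : ℝ) < α → β < η / c → Tendsto (fun z => E z m / GG η c z) (botF α β) (𝓝 K) := by
  obtain ⟨K, hK, hE⟩ := h.refl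
  have hc := h.c_pos'
  refine ⟨K m, hK m, fun α β h1 h2 => ?_⟩
  have h3 : Tendsto (fun z : ℂ => E ((η - 1) / c - z) (a - 1 - m)) (botF α β) (𝓝 1) := by
    have h4 := h.E_top (a - 1 - m) (α := (η - 1) / c - β) (β := (η - 1) / c - α)
      (by
        have : (η - 1) / c - η / c = -1 / (c : ℝ) := by field_simp; ring
        linarith)
      (by
        have : (η - 1) / c + 1 / c = η / (c : ℝ) := by field_simp; ring
        have h5 : -1 / (c : ℝ) = -(1 / c) := by ring
        linarith)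
    refine h4.comp ?_
    refine botF_refl _ (le_of_eq ?_) (le_of_eq ?_)
    · congr 1
      rw [show ((η : ℂ) - 1) / c = (((η - 1) / c : ℝ) : ℂ) by push_cast; ring,
        Complex.ofReal_re]
    · congr 1
      rw [show ((η : ℂ) - 1) / c = (((η - 1) / c : ℝ) : ℂ) by push_cast; ring,
        Complex.ofReal_re]
  have h4 : Tendsto (fun z : ℂ => K m / E ((η - 1) / c - z) (a - 1 - m)) (botF α β)
      (𝓝 (K m)) := by
    have h4' := (tendsto_const_nhds (x := K m)).div h3 one_ne_zero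
    rw [div_one] at h4'
    exact h4'
  refine h4.congr' ?_
  have h5 : ∀ᶠ z in botF α β, E ((η - 1) / c - z) (a - 1 - m) ≠ 0 :=
    h3.eventually_ne one_ne_zero
  have h6 : ∀ᶠ z in botF α β, α ≤ z.re ∧ z.re ≤ β :=
    eventually_botF.2 ⟨0, fun z h7 h8 _ => ⟨h7, h8⟩⟩
  filter_upwards [h5, h6] with z h7 h8
  have h9 := hE z m (lt_of_lt_of_le h1 h8.1) (lt_of_le_of_lt h8.2 h2)
  rw [div_eq_div_iff h7 (GG_ne _ _ _), GG, ← h9]

/-- The two expressions for `1 / E`. -/
theorem LC.inv_eq (h : LC c a d η E) {w : ℂ} (m : ℤ) (h1 : -1 / (c : ℝ) < w.re)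
    (h2 : w.re < 0) : (1 - ee (w + d * m / c)) / E (w + η / c) (m - 1) = 1 / E w m := by
  have hc := h.c_pos'
  have h3 := h.s2 w m h1 h2
  have h4 : E (w + η / c) (m - 1) ≠ 0 := by
    have h5 : (w + η / c : ℂ).re = w.re + η / c := by
      rw [Complex.add_re, show (η : ℂ) / c = ((η / c : ℝ) : ℂ) by push_cast; ring,
        Complex.ofReal_re]
    have hη := h.one_lt
    refine h.ne _ _ ?_ ?_
    · rw [h5]
      have : 0 < η / c := by positivity
      linarith
    · rw [h5]; linarith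
  have h5 : E w m ≠ 0 := h.ne w m h1 (by
    have hη := h.one_lt
    have : 0 < η / c := by positivity
    linarith)
  have h6 : 1 - ee (w + d * m / c) ≠ 0 := by
    intro h7
    rw [h7, zero_mul] at h3
    exact h4 h3
  rw [h3]
  field_simp

theorem LC.Rinv_right (h : LC c a d η E) {w : ℂ} (m : ℤ) (h1 : -1 / (c : ℝ) < w.re) :
    Rinv E η c d w m = 1 / E w m := by
  rw [Rinv]
  split_ifs with h2
  · rfl
  · exact h.inv_eq m h1 (not_le.1 h2)

theorem Rinv_left {w : ℂ} (m : ℤ) (h1 : w.re < 0) :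
    Rinv E η c d w m = (1 - ee (w + d * m / c)) / E (w + η / c) (m - 1) := by
  rw [Rinv, if_neg (not_le.2 h1)]

theorem re_add_eta (c : ℕ) (η : ℝ) (w : ℂ) : (w + η / c : ℂ).re = w.re + η / c := by
  rw [Complex.add_re, show (η : ℂ) / c = ((η / c : ℝ) : ℂ) by push_cast; ring,
    Complex.ofReal_re]

theorem LC.Rinv_diff (h : LC c a d η E) {w : ℂ} (m : ℤ) (h1 : -(1 + η) / (c : ℝ) < w.re)
    (h2 : w.re < η / c) : DifferentiableAt ℂ (fun w => Rinv E η c d w m) w := by
  have hc := h.c_pos'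
  have hη := h.one_lt
  have hηc : 0 < η / c := by positivity
  have h1c : 0 < 1 / (c : ℝ) := by positivity
  have e1 : -(1 + η) / (c : ℝ) = -1 / c - η / c := by ring
  have e2 : -1 / (c : ℝ) = -(1 / c) := by ring
  rcases lt_or_ge w.re 0 with h3 | h3
  · have h4 : (fun w => Rinv E η c d w m) =ᶠ[𝓝 w]
        fun w => (1 - ee (w + d * m / c)) / E (w + η / c) (m - 1) := by
      filter_upwards [(isOpen_lt Complex.continuous_re continuous_const).mem_nhds h3] with z hz
      exact Rinv_left m hz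
    refine DifferentiableAt.congr_of_eventuallyEq ?_ h4
    have h5 : DifferentiableAt ℂ (fun z => E z (m - 1)) (w + η / c) := by
      refine h.diffAt (m - 1) ?_ ?_
      · rw [re_add_eta]; linarith
      · rw [re_add_eta]; linarith
    have h6 : DifferentiableAt ℂ (fun z : ℂ => E (z + η / c) (m - 1)) w :=
      h5.comp w ((differentiableAt_id).add_const _)
    have h7 : DifferentiableAt ℂ (fun z : ℂ => ee (z + d * m / c)) w :=
      (ee_differentiable _).comp w ((differentiableAt_id).add_const _)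
    refine (DifferentiableAt.const_sub h7 1).div h6 ?_
    refine h.ne _ _ ?_ ?_
    · rw [re_add_eta]; linarith
    · rw [re_add_eta]; linarith
  · have h3' : -1 / (c : ℝ) < w.re := by linarith
    have h4 : (fun w => Rinv E η c d w m) =ᶠ[𝓝 w] fun w => 1 / E w m := by
      filter_upwards [(isOpen_lt continuous_const Complex.continuous_re).mem_nhds h3'] with z hz
      exact h.Rinv_right m hz
    refine DifferentiableAt.congr_of_eventuallyEq ?_ h4
    exact (differentiableAt_const _).div (h.diffAt m h3' h2) (h.ne _ _ h3' h2)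

/-- Another cut for `Rinv`, in the interior of the overlap. -/
theorem LC.Rinv_cut (h : LC c a d η E) (m : ℤ) : (fun w : ℂ => Rinv E η c d w m) =
    fun w : ℂ => if -(1 / (2 * (c : ℝ))) ≤ w.re then 1 / E w m
      else (1 - ee (w + d * m / c)) / E (w + η / c) (m - 1) := by
  have hc := h.c_pos'
  have h1c : 0 < 1 / (2 * (c : ℝ)) := by positivity
  have e2 : -1 / (c : ℝ) = -(2 * (1 / (2 * c))) := by field_simp
  funext w
  split_ifs with h1
  · exact h.Rinv_right m (by rw [e2]; linarith)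
  · exact Rinv_left m (by push Not at h1; linarith)

theorem tendsto_one_div {f : ℂ → ℂ} {l : Filter ℂ} {L : ℂ} (h : Tendsto f l (𝓝 L))
    (hL : L ≠ 0) : Tendsto (fun z => 1 / f z) l (𝓝 (1 / L)) := by
  simp_rw [one_div]
  exact h.inv₀ hL

theorem LC.Rinv_top (h : LC c a d η E) (m : ℤ) {α β : ℝ} (h1 : -(1 + η) / (c : ℝ) < α)
    (h2 : β < η / c) : Tendsto (fun z => Rinv E η c d z m) (topF α β) (𝓝 1) := by
  have hc := h.c_pos'
  have hη := h.one_lt
  have hηc : 0 < η / c := by positivity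
  have h1c : 0 < 1 / (2 * (c : ℝ)) := by positivity
  have e1 : -(1 + η) / (c : ℝ) = -1 / c - η / c := by ring
  have e2 : -1 / (c : ℝ) = -(2 * (1 / (2 * c))) := by field_simp
  rw [h.Rinv_cut m]
  refine Tendsto.if ?_ ?_
  · have h3 := h.E_top m (α := -(1 / (2 * (c : ℝ)))) (β := β) (by rw [e2]; linarith) h2
    have h4 : topF α β ⊓ 𝓟 {x : ℂ | -(1 / (2 * (c : ℝ))) ≤ x.re} ≤
        topF (-(1 / (2 * (c : ℝ)))) β := by
      rw [topF, topF, inf_assoc, inf_principal]
      refine inf_le_inf_left _ (principal_mono.2 ?_)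
      rintro z ⟨⟨h5, h6⟩, h7⟩
      exact ⟨h7, h6⟩
    have h5 := tendsto_one_div h3 one_ne_zero
    rw [div_one] at h5
    exact h5.mono_left h4
  · have h3 := h.E_top (m - 1) (α := α + η / c) (β := η / c - 1 / (2 * (c : ℝ)))
      (by linarith) (by linarith)
    have h4 : topF α β ⊓ 𝓟 {x : ℂ | ¬ -(1 / (2 * (c : ℝ))) ≤ x.re} ≤
        topF α (-(1 / (2 * (c : ℝ)))) := by
      rw [topF, topF, inf_assoc, inf_principal]
      refine inf_le_inf_left _ (principal_mono.2 ?_)
      rintro z ⟨⟨h5, h6⟩, h7⟩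
      exact ⟨h5, (not_le.1 h7).le⟩
    refine Tendsto.mono_left ?_ h4
    have h5 : Tendsto (fun z : ℂ => E (z + η / c) (m - 1)) (topF α (-(1 / (2 * (c : ℝ)))))
        (𝓝 1) := by
      refine h3.comp (topF_shift _ (le_of_eq ?_) (le_of_eq ?_))
      · rw [show (η : ℂ) / c = ((η / c : ℝ) : ℂ) by push_cast; ring, Complex.ofReal_re]
      · rw [show (η : ℂ) / c = ((η / c : ℝ) : ℂ) by push_cast; ring, Complex.ofReal_re]
        ring
    have h6 := ee_top (α := α) (β := -(1 / (2 * (c : ℝ)))) (κ := 1) ((d : ℂ) * m / c) one_pos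
    have h7 : Tendsto (fun z : ℂ => 1 - ee (z + d * m / c)) (topF α (-(1 / (2 * (c : ℝ)))))
        (𝓝 (1 - 0)) := by
      refine tendsto_const_nhds.sub (h6.congr (fun z => ?_))
      push_cast
      rw [one_mul]
    have h8 := h7.div h5 one_ne_zero
    rw [sub_zero, div_one] at h8
    exact h8

/-- `Rinv w m · G(w)` is bounded at the bottom. -/
theorem LC.Rinv_bot (h : LC c a d η E) (m : ℤ) {α β : ℝ} (h1 : -(1 + η) / (c : ℝ) < α)
    (h2 : β < η / c) : ∃ C : ℝ, ∀ᶠ z in botF α β, ‖Rinv E η c d z m * GG η c z‖ ≤ C := by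
  have hc := h.c_pos'
  have hcC : (c : ℂ) ≠ 0 := by exact_mod_cast hc.ne'
  have hη := h.one_lt
  have hηC : (η : ℂ) ≠ 0 := by
    have : η ≠ 0 := by linarith
    exact_mod_cast this
  have hηc : 0 < η / c := by positivity
  have h1c : 0 < 1 / (2 * (c : ℝ)) := by positivity
  have e1 : -(1 + η) / (c : ℝ) = -1 / c - η / c := by ring
  have e2 : -1 / (c : ℝ) = -(2 * (1 / (2 * c))) := by field_simp
  obtain ⟨K, hK, hK1⟩ := h.E_bot m
  obtain ⟨K', hK', hK1'⟩ := h.E_bot (m - 1)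
  have hK0 : K ≠ 0 := by rw [← norm_pos_iff, hK]; exact one_pos
  have hK0' : K' ≠ 0 := by rw [← norm_pos_iff, hK']; exact one_pos
  -- right part
  have hR : ∃ C : ℝ, ∀ᶠ z in botF (-(1 / (2 * (c : ℝ)))) β, ‖1 / E z m * GG η c z‖ ≤ C := by
    have h3 := hK1 (-(1 / (2 * (c : ℝ)))) β (by rw [e2]; linarith) h2
    have h4 := (tendsto_one_div h3 hK0).norm
    refine ⟨‖1 / K‖ + 1, ?_⟩
    filter_upwards [h4.eventually (gt_mem_nhds (lt_add_one _))] with z hz
    refine le_trans (le_of_eq ?_) hz.le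
    congr 1
    rw [one_div_div]
    ring
  have hL : ∃ C : ℝ, ∀ᶠ z in botF α (-(1 / (2 * (c : ℝ)))),
      ‖(1 - ee (z + d * m / c)) / E (z + η / c) (m - 1) * GG η c z‖ ≤ C := by
    have h3 := hK1' (α + η / c) (η / c - 1 / (2 * (c : ℝ))) (by linarith) (by linarith)
    have h5 : Tendsto (fun z : ℂ => E (z + η / c) (m - 1) / GG η c (z + η / c))
        (botF α (-(1 / (2 * (c : ℝ))))) (𝓝 K') := by
      refine h3.comp (botF_shift _ (le_of_eq ?_) (le_of_eq ?_))
      · rw [show (η : ℂ) / c = ((η / c : ℝ) : ℂ) by push_cast; ring, Complex.ofReal_re]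
      · rw [show (η : ℂ) / c = ((η / c : ℝ) : ℂ) by push_cast; ring, Complex.ofReal_re]
        ring
    have h6 := ee_bot (α := α) (β := -(1 / (2 * (c : ℝ)))) (κ := -1) (-((d : ℂ) * m / c))
      (by norm_num)
    have h7 : Tendsto (fun z : ℂ => ee (-1 * z + -((d : ℂ) * m / c)) - 1)
        (botF α (-(1 / (2 * (c : ℝ))))) (𝓝 (0 - 1)) := by
      refine (h6.congr (fun z => ?_)).sub tendsto_const_nhds
      push_cast
      rfl
    have h8 := ((h7.mul (tendsto_one_div h5 hK0')).mul_const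
      (ee (d * m / c) * Complex.exp (-(Real.pi * I / c)))).norm
    refine ⟨‖(0 - 1) * (1 / K') * (ee (d * m / c) * Complex.exp (-(Real.pi * I / c)))‖ + 1, ?_⟩
    · filter_upwards [h8.eventually (gt_mem_nhds (lt_add_one _))] with z hz
      refine le_trans (le_of_eq ?_) hz.le
      congr 1
      have h9 : GG η c (z + η / c) = GG η c z * ee z * Complex.exp (Real.pi * I / c) := by
        rw [GG, GG, ee, ← Complex.exp_add, ← Complex.exp_add]
        congr 1
        field_simp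
        ring
      have h10 : ee (-1 * z + -((d : ℂ) * m / c)) * ee z * ee (d * m / c) = 1 := by
        rw [← ee_add, ← ee_add, show -1 * z + -((d : ℂ) * m / c) + z + d * m / c = 0 by ring,
          ee_zero]
      have h11 : Complex.exp (Real.pi * I / c) * Complex.exp (-(Real.pi * I / c)) = 1 := by
        rw [← Complex.exp_add, add_neg_cancel, Complex.exp_zero]
      rw [one_div_div, h9, ee_add]
      have h12 : (ee (-1 * z + -((d : ℂ) * m / c)) - 1) *
          (GG η c z * ee z * Complex.exp (Real.pi * I / c) / E (z + η / c) (m - 1)) *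
          (ee (d * m / c) * Complex.exp (-(Real.pi * I / c))) =
          (ee (-1 * z + -((d : ℂ) * m / c)) * ee z * ee (d * m / c) - ee z * ee (d * m / c)) *
          (Complex.exp (Real.pi * I / c) * Complex.exp (-(Real.pi * I / c))) * GG η c z /
            E (z + η / c) (m - 1) := by ring
      rw [h12, h10, h11]
      ring
  obtain ⟨C1, h3⟩ := hR
  obtain ⟨C2, h4⟩ := hL
  refine ⟨max C1 C2, ?_⟩
  obtain ⟨Y1, h5⟩ := eventually_botF.1 h3
  obtain ⟨Y2, h6⟩ := eventually_botF.1 h4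
  refine eventually_botF.2 ⟨min Y1 Y2, fun z h7 h8 h9 => ?_⟩
  have h10 : Rinv E η c d z m = if -(1 / (2 * (c : ℝ))) ≤ z.re then 1 / E z m
      else (1 - ee (z + d * m / c)) / E (z + η / c) (m - 1) := congrFun (h.Rinv_cut m) z
  rw [h10]
  split_ifs with h11
  · exact (h5 z h11 h8 (h9.trans (min_le_left _ _))).trans (le_max_left _ _)
  · exact (h6 z h7 (not_le.1 h11).le (h9.trans (min_le_right _ _))).trans (le_max_right _ _)

end Pool.Agent.Lib.MP_d0f9e0_co.AN
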