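import Pool.Agent.Lib.MP_d0f9e0_co.AN.Sum
import Pool.Agent.Lib.MP_d0f9e0_co.AN.BetaC

/-!
# THEOREM S (helper60, Project Z), unconditional for `LC`
-/

set_option autoImplicit false

open Complex MeasureTheory Filter Topology Set

namespace Pool.Agent.Lib.MP_d0f9e0_co.AN

open Pool.MP_d0f9e0_co.CS (ee)

variable {c : ℕ} {a d : ℤ} {η : ℝ} {E : ℂ → ℤ → ℂ}

/-- A positive real `zp` with `zp (1 - 1/η) + (d - 1) mp / c` an integer is no multiple of
`1 / c`. -/
theorem ne_div_of_fix (h : LC c a d η E) {zp : ℝ} {mp Np : ℤ}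
    (hzp : zp * (1 - 1 / η) + (d - 1) * mp / c = Np) (hp : 0 < zp) (n : ℕ) : zp ≠ n / c := by
  intro hn
  have hc := cpos h
  have hη := h.one_lt
  have hη0 : η ≠ 0 := by linarith
  have hc0 : (c : ℝ) ≠ 0 := hc.ne'
  have hn0 : (n : ℝ) ≠ 0 := by
    intro h0
    rw [hn, h0, zero_div] at hp
    exact lt_irrefl _ hp
  have h1 : (n : ℝ) / η = n + (d - 1) * mp - c * Np := by
    have h2 : c * (zp * (1 - 1 / η) + (d - 1) * mp / c) = c * Np := by rw [hzp]
    rw [hn] at h2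
    have h3 : c * ((n : ℝ) / c * (1 - 1 / η) + (d - 1) * mp / c) =
        n - n / η + (d - 1) * mp := by
      field_simp
    rw [h3] at h2
    linarith
  have h4 : 1 / η = (((n : ℤ) + (d - 1) * mp - c * Np : ℤ) : ℝ) / ((n : ℤ) : ℝ) := by
    rw [eq_div_iff (by exact_mod_cast hn0)]
    push_cast
    rw [← h1]
    field_simp
  have h5 : Irrational (1 / η) := by
    rw [one_div]
    exact irrational_inv_iff.2 h.irr
  refine h5 ⟨(((n : ℤ) + (d - 1) * mp - c * Np : ℤ) : ℚ) / ((n : ℤ) : ℚ), ?_⟩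
  rw [h4]
  push_cast
  rfl

/-- **THEOREM S**. -/
theorem LC.sum_formula (h : LC c a d η E) (htr : η + 1 / η = a + d) {zp zy : ℝ}
    {mp my Np Ny : ℤ} (hzp : zp * (1 - 1 / η) + (d - 1) * mp / c = Np)
    (hzy : zy * (1 - 1 / η) + (d - 1) * my / c = Ny) (hp : 0 < zp) (hy : 0 ≤ zy)
    (hpy : zp + zy < (η - 1) / c) :
    ∑ m ∈ Finset.range c, ∑ N ∈ win c d (a + d - 2) m,
        E (zz η c d N m : ℝ) m * Rinv E η c d ((zz η c d N m : ℝ) - zp) (m - mp) *
          psi η c d (zz η c d N m : ℝ) m zy my =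
      (η - 1) / η * (E zp mp * E zy my * psi η c d zp mp zy my /
        (E 0 0 * E (zy + zp) (my + mp))) +
      (if zy = 0 ∧ (c : ℤ) ∣ my then ((η - 1) ^ 2 / η : ℂ) else 0) := by
  have hc := cpos h
  have h1 : (0 : ℝ) < 1 / c := by positivity
  have h2 : (η - 1) / (c : ℝ) = η / c - 1 / c := by ring
  refine h.sum_formula_of_beta htr hzp hzy hp hy hpy fun x0 hx0 hx1 _ => ?_
  refine h.beta hp (ne_div_of_fix h hzp hp) mp my ?_ ?_ hx0 hx1
  · rw [ofReal_re, neg_div]; linarith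
  · rw [ofReal_re]; linarith

end Pool.Agent.Lib.MP_d0f9e0_co.AN
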