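import Pool.Agent.Lib.MP_d0f9e0_co.GH.Defs

/-!
# The symmetry `y ↔ -p - y` of the near group equation (helper19, Project Z)
-/

set_option autoImplicit false

namespace Pool.Agent.Lib.MP_d0f9e0_co.AN

open Finset

variable {G : Type*} [AddCommGroup G] [Fintype G]

/-- The equation `NG.A2` at one pair `(p, y)`. -/
def A2At (η : ℝ) (ψ : G → G → ℂ) (c : G → ℝ) (z : G → ℂ) (p y : G) : Prop :=
  ∑ a, (c a : ℂ) * c (p - a) * (z a / z (a - p)) * ψ a y =
    ((√η - (√η)⁻¹ : ℝ) : ℂ) * ψ p y * (c p * c y * c (-y - p)) *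
      (z p * z y / (z 0 * z (y + p)))

variable {η : ℝ} {ψ : G → G → ℂ} {c : G → ℝ} {z : G → ℂ}

omit [Fintype G] in
theorem psi_neg_right (add : ∀ x y w, ψ (x + y) w = ψ x w * ψ y w) (symm : ∀ x y, ψ x y = ψ y x)
    (hne : ∀ x y, ψ x y ≠ 0) (x y : G) : ψ x (-y) = (ψ x y)⁻¹ := by
  have h0 : ψ 0 x = 1 := by
    have := add 0 0 x
    rw [add_zero] at this
    have h1 := hne 0 x
    field_simp at this
    exact this.symm
  have h := add y (-y) x
  rw [add_neg_cancel, h0] at h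
  rw [symm x (-y), symm x y]
  exact eq_inv_of_mul_eq_one_right h.symm

/-- **Symmetry.** -/
theorem A2At.symm' (add : ∀ x y w, ψ (x + y) w = ψ x w * ψ y w)
    (symm : ∀ x y, ψ x y = ψ y x) (hne : ∀ x y, ψ x y ≠ 0) (hz : ∀ x, z x ≠ 0)
    (zneg : ∀ x, z (-x) = z x)
    (zquad : ∀ x y, z (x + y) ^ 2 * z 0 ^ 2 = z x ^ 2 * z y ^ 2 * ψ x y) {p y : G}
    (h : A2At η ψ c z p (-p - y)) : A2At η ψ c z p y := by
  unfold A2At at h ⊢
  have hn := psi_neg_right add symm hne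
  have addr : ∀ x a b, ψ x (a + b) = ψ x a * ψ x b := fun x a b => by
    rw [symm x, add, symm a, symm b]
  -- reindex
  have e1 : ∑ a, (c a : ℂ) * c (p - a) * (z a / z (a - p)) * ψ a y =
      ∑ a, (c (p - a) : ℂ) * c a * (z (p - a) / z (-a)) * ψ (p - a) y := by
    refine Fintype.sum_equiv (Equiv.subLeft p) _ _ fun a => ?_
    simp only [Equiv.subLeft_apply, sub_sub_cancel]
    congr 3
    rw [neg_sub]
  have e2 : ∀ a, (c (p - a) : ℂ) * c a * (z (p - a) / z (-a)) * ψ (p - a) y =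
      (z p ^ 2 / z 0 ^ 2 * ψ p y) *
        ((c a : ℂ) * c (p - a) * (z a / z (a - p)) * ψ a (-p - y)) := by
    intro a
    have h1 : z (p - a) = z (a - p) := by rw [← zneg, neg_sub]
    have h2 : ψ (p - a) y = ψ p y * (ψ a y)⁻¹ := by
      rw [sub_eq_add_neg, add, symm (-a) y, hn, symm y a]
    have h3 : ψ a (-p - y) = (ψ a p)⁻¹ * (ψ a y)⁻¹ := by
      rw [sub_eq_add_neg, addr, hn, hn]
    have h4 := zquad (a - p) p
    rw [sub_add_cancel] at h4
    have h5 : ψ (a - p) p = ψ a p * (ψ p p)⁻¹ := by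
      rw [sub_eq_add_neg, add, symm (-p) p, hn]
    have h6 := zquad p (-p)
    rw [add_neg_cancel, zneg, hn] at h6
    rw [h1, zneg, h2, h3]
    have ha := hz a
    have hap := hz (a - p)
    have hp := hz p
    have h0 := hz 0
    have p1 := hne a p
    have p2 := hne a y
    have p3 := hne p y
    have p4 := hne p p
    rw [h5] at h4
    -- z (a-p)^2 ψ(a,p) z0^2 = z a^2 z p^2
    have key : z (a - p) ^ 2 * ψ a p * z 0 ^ 2 = z a ^ 2 * z p ^ 2 := by
      field_simp at h4 h6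
      have h7 : z p ^ 4 = z 0 ^ 4 * ψ p p := by linear_combination -h6
      have h8 : z 0 ^ 2 ≠ 0 := pow_ne_zero 2 h0
      have h9 : z p ^ 2 ≠ 0 := pow_ne_zero 2 hp
      apply mul_right_cancel₀ h9
      linear_combination (-(z 0 ^ 2)) * h4 - z a ^ 2 * h7
    field_simp
    linear_combination (c (p - a) : ℂ) * c a * key
  rw [e1, Finset.sum_congr rfl fun a _ => e2 a, ← Finset.mul_sum, h]
  have g1 : -(-p - y) - p = y := by abel
  have g2 : -p - y + p = -y := by abel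
  have g3 : z (-p - y) = z (y + p) := by rw [← zneg]; congr 1; abel
  have g4 : -y - p = -p - y := by abel
  rw [g1, g2, g3, zneg, g4]
  have g5 : ψ p (-p - y) = (ψ p p)⁻¹ * (ψ p y)⁻¹ := by
    rw [sub_eq_add_neg, addr, hn, hn]
  rw [g5]
  have h4 := zquad y p
  have h6 := zquad p (-p)
  rw [add_neg_cancel, zneg, hn] at h6
  rw [symm y p] at h4
  have hp := hz p
  have h0 := hz 0
  have hy := hz y
  have hyp := hz (y + p)
  have p3 := hne p y
  have p4 := hne p p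
  field_simp at h6 ⊢
  have h7 : z p ^ 4 = z 0 ^ 4 * ψ p p := by linear_combination -h6
  have h8 : z 0 ^ 2 ≠ 0 := pow_ne_zero 2 h0
  apply mul_right_cancel₀ h8
  generalize ((√η ^ 2 - 1) / √η : ℝ) = k
  linear_combination (z p ^ 2 * (k : ℂ) * (c p : ℂ) * (c (-p - y) : ℂ) * (c y : ℂ)) * h4 +
    ((k : ℂ) * (c p : ℂ) * (c (-p - y) : ℂ) * (c y : ℂ) * z y ^ 2 * ψ p y) * h7

end Pool.Agent.Lib.MP_d0f9e0_co.AN
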